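import Pool.Agent.Helper35.HC.StC
import Pool.Agent.Helper98.PI2.M_GH

/-!
Project HC (MP_925021_gt), module HSJ: heat operator of the squared norm of the normal gradient of
the mean curvature in a graph chart.
-/

set_option autoImplicit false

namespace Helper82.HC

open Helper35.HC Helper35.HSF Helper35.MS Helper35.PI Helper35.PI2
open Helper2.PI Helper98.PI2
open scoped ContDiff Manifold Topology ENNReal BigOperators
open MeasureTheory Set Filter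

section Alg

variable {n N : ℕ}

lemma pr1 (a : Fin n → Fin n → ℝ) (b : Fin n → ℝ) :
    ∑ i, ∑ j, ∑ k, a i k * b j = (∑ i, ∑ k, a i k) * ∑ j, b j := by
  rw [Finset.sum_mul]
  refine Finset.sum_congr rfl fun i _ => ?_
  rw [Finset.mul_sum]
  refine Finset.sum_congr rfl fun j _ => ?_
  rw [Finset.sum_mul]

lemma pr2 (a : Fin n → Fin n → ℝ) (b : Fin n → ℝ) :
    ∑ i, ∑ j, ∑ k, a j k * b i = (∑ i, ∑ k, a i k) * ∑ j, b j := by
  rw [Finset.mul_sum]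
  refine Finset.sum_congr rfl fun i _ => ?_
  rw [Finset.sum_mul]
  refine Finset.sum_congr rfl fun j _ => ?_
  rw [Finset.sum_mul]

lemma pr3 (a : Fin n → Fin n → ℝ) (b : Fin n → ℝ) :
    ∑ i, ∑ j, ∑ k, a j i * b k = (∑ i, ∑ k, a i k) * ∑ j, b j := by
  rw [Finset.sum_comm, Finset.sum_mul]
  refine Finset.sum_congr rfl fun j _ => ?_
  rw [Finset.sum_mul]
  refine Finset.sum_congr rfl fun i _ => ?_
  rw [Finset.mul_sum]

lemma pr4 (a : Fin n → Fin n → ℝ) (b : Fin n → ℝ) :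
    ∑ i, ∑ j, ∑ k, a i j * b k = (∑ i, ∑ k, a i k) * ∑ j, b j := by
  rw [Finset.sum_mul]
  refine Finset.sum_congr rfl fun i _ => ?_
  rw [Finset.sum_mul]
  refine Finset.sum_congr rfl fun j _ => ?_
  rw [Finset.mul_sum]

lemma pr5 (a : Fin n → Fin n → ℝ) (b : Fin n → ℝ) :
    ∑ i, ∑ j, ∑ k, a k j * b i = (∑ i, ∑ k, a i k) * ∑ j, b j := by
  rw [← pr2 a b]
  refine Finset.sum_congr rfl fun i _ => ?_
  rw [Finset.sum_comm]

lemma cs2 (x y : EE N) : (inner ℝ x y : ℝ) ^ 2 ≤ ‖x‖ ^ 2 * ‖y‖ ^ 2 := by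
  have h := abs_real_inner_le_norm x y
  have h1 : (inner ℝ x y : ℝ) ^ 2 = |(inner ℝ x y : ℝ)| ^ 2 := (sq_abs _).symm
  rw [h1, ← mul_pow]
  exact pow_le_pow_left₀ (abs_nonneg _) h 2

/-- product of two inner products, paired crosswise -/
lemma amgm (x y v w : EE N) : (inner ℝ x y : ℝ) * inner ℝ v w
    ≤ 1 / 2 * (‖x‖ ^ 2 * ‖w‖ ^ 2 + ‖y‖ ^ 2 * ‖v‖ ^ 2) := by
  have h1 := abs_real_inner_le_norm x y
  have h2 := abs_real_inner_le_norm v w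
  have h3 : (inner ℝ x y : ℝ) * inner ℝ v w ≤ (‖x‖ * ‖y‖) * (‖v‖ * ‖w‖) := by
    calc (inner ℝ x y : ℝ) * inner ℝ v w ≤ |(inner ℝ x y : ℝ) * inner ℝ v w| := le_abs_self _
      _ = |(inner ℝ x y : ℝ)| * |(inner ℝ v w : ℝ)| := abs_mul _ _
      _ ≤ _ := mul_le_mul h1 h2 (abs_nonneg _) (by positivity)
  nlinarith [sq_nonneg (‖x‖ * ‖w‖ - ‖y‖ * ‖v‖)]

lemma eq2_le (T : Fin n → Fin n → Fin n → EE N) : eq2 T ≤ n * tq T := by
  have h1 : ∀ k, ‖et T k‖ ^ 2 ≤ n * ∑ i, ∑ j, ‖T i j k‖ ^ 2 := by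
    intro k
    have h2 : ‖et T k‖ ≤ ∑ i, ‖T i i k‖ := norm_sum_le _ _
    have h3 : (∑ i, ‖T i i k‖) ^ 2 ≤ n * ∑ i, ‖T i i k‖ ^ 2 := by
      have := sq_sum_le_card_mul_sum_sq (s := (Finset.univ : Finset (Fin n)))
        (f := fun i => ‖T i i k‖)
      simpa using this
    have h4 : ∑ i, ‖T i i k‖ ^ 2 ≤ ∑ i, ∑ j, ‖T i j k‖ ^ 2 := by
      refine Finset.sum_le_sum fun i _ => ?_
      exact Finset.single_le_sum (f := fun j => ‖T i j k‖ ^ 2) (fun j _ => by positivity)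
        (Finset.mem_univ i)
    calc ‖et T k‖ ^ 2 ≤ (∑ i, ‖T i i k‖) ^ 2 := pow_le_pow_left₀ (norm_nonneg _) h2 2
      _ ≤ _ := h3
      _ ≤ _ := mul_le_mul_of_nonneg_left h4 (by positivity)
  calc eq2 T ≤ ∑ k, (n : ℝ) * ∑ i, ∑ j, ‖T i j k‖ ^ 2 := Finset.sum_le_sum fun k _ => h1 k
    _ = n * tq T := by
      rw [← Finset.mul_sum]
      unfold tq
      congr 1
      rw [Finset.sum_comm]
      refine Finset.sum_congr rfl fun i _ => ?_
      rw [Finset.sum_comm]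

lemma Hv_le (A : Fin n → Fin n → EE N) : ‖Hv A‖ ^ 2 ≤ n * XX A := by
  have h2 : ‖Hv A‖ ≤ ∑ i, ‖A i i‖ := norm_sum_le _ _
  have h3 : (∑ i, ‖A i i‖) ^ 2 ≤ n * ∑ i, ‖A i i‖ ^ 2 := by
    have := sq_sum_le_card_mul_sum_sq (s := (Finset.univ : Finset (Fin n)))
      (f := fun i => ‖A i i‖)
    simpa using this
  have h4 : ∑ i, ‖A i i‖ ^ 2 ≤ XX A := by
    refine Finset.sum_le_sum fun i _ => ?_
    exact Finset.single_le_sum (f := fun j => ‖A i j‖ ^ 2) (fun j _ => by positivity)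
      (Finset.mem_univ i)
  calc ‖Hv A‖ ^ 2 ≤ (∑ i, ‖A i i‖) ^ 2 := pow_le_pow_left₀ (norm_nonneg _) h2 2
    _ ≤ _ := h3
    _ ≤ _ := mul_le_mul_of_nonneg_left h4 (by positivity)

lemma XX_nonneg (A : Fin n → Fin n → EE N) : 0 ≤ XX A := by unfold XX; positivity
lemma tq_nonneg (T : Fin n → Fin n → Fin n → EE N) : 0 ≤ tq T := by unfold tq; positivity
lemma eq2_nonneg (T : Fin n → Fin n → Fin n → EE N) : 0 ≤ eq2 T := by unfold eq2; positivity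

lemma sum_add3 (f g : Fin n → Fin n → Fin n → ℝ) :
    ∑ i, ∑ j, ∑ k, 1 / 2 * (f i j k + g i j k)
      = 1 / 2 * (∑ i, ∑ j, ∑ k, f i j k + ∑ i, ∑ j, ∑ k, g i j k) := by
  simp only [← Finset.mul_sum, Finset.sum_add_distrib]

lemma ta (A : Fin n → Fin n → EE N) (h : Fin n → EE N) :
    ∑ i, ∑ j, (∑ k, (inner ℝ (A i k) (A j k) : ℝ)) * inner ℝ (h i) (h j)
      ≤ XX A * ∑ k, ‖h k‖ ^ 2 := by
  have h1 : ∑ i, ∑ j, (∑ k, (inner ℝ (A i k) (A j k) : ℝ)) * inner ℝ (h i) (h j)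
      ≤ ∑ i, ∑ j, ∑ k, 1 / 2 * (‖A i k‖ ^ 2 * ‖h j‖ ^ 2 + ‖A j k‖ ^ 2 * ‖h i‖ ^ 2) := by
    refine Finset.sum_le_sum fun i _ => Finset.sum_le_sum fun j _ => ?_
    rw [Finset.sum_mul]
    exact Finset.sum_le_sum fun k _ => amgm _ _ _ _
  refine h1.trans (le_of_eq ?_)
  rw [sum_add3 (fun i j k => ‖A i k‖ ^ 2 * ‖h j‖ ^ 2) (fun i j k => ‖A j k‖ ^ 2 * ‖h i‖ ^ 2),
    pr1 (fun i k => ‖A i k‖ ^ 2) (fun j => ‖h j‖ ^ 2),
    pr2 (fun i k => ‖A i k‖ ^ 2) (fun j => ‖h j‖ ^ 2)]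
  unfold XX
  ring

lemma tb1 (A : Fin n → Fin n → EE N) (h : Fin n → EE N) :
    -∑ i, ∑ a, ∑ b, (inner ℝ (A a i) (h b) : ℝ) * inner ℝ (A a b) (h i)
      ≤ XX A * ∑ k, ‖h k‖ ^ 2 := by
  have h1 : -∑ i, ∑ a, ∑ b, (inner ℝ (A a i) (h b) : ℝ) * inner ℝ (A a b) (h i)
      ≤ ∑ i, ∑ a, ∑ b, 1 / 2 * (‖A a i‖ ^ 2 * ‖h b‖ ^ 2 + ‖A a b‖ ^ 2 * ‖h i‖ ^ 2) := by
    simp only [← Finset.sum_neg_distrib]
    refine Finset.sum_le_sum fun i _ => Finset.sum_le_sum fun a _ =>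
      Finset.sum_le_sum fun b _ => ?_
    have h2 := cs2 (A a i) (h b)
    have h3 := cs2 (A a b) (h i)
    nlinarith [sq_nonneg ((inner ℝ (A a i) (h b) : ℝ) + inner ℝ (A a b) (h i))]
  refine h1.trans (le_of_eq ?_)
  rw [sum_add3 (fun i a b => ‖A a i‖ ^ 2 * ‖h b‖ ^ 2) (fun i a b => ‖A a b‖ ^ 2 * ‖h i‖ ^ 2),
    pr3 (fun i k => ‖A i k‖ ^ 2) (fun j => ‖h j‖ ^ 2),
    pr2 (fun i k => ‖A i k‖ ^ 2) (fun j => ‖h j‖ ^ 2)]
  unfold XX
  ring

lemma tb2 (A : Fin n → Fin n → EE N) (h : Fin n → EE N) :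
    ∑ i, ∑ m, (∑ k, (inner ℝ (h k) (A m k) : ℝ)) * inner ℝ (A i m) (h i)
      ≤ XX A * ∑ k, ‖h k‖ ^ 2 := by
  have h1 : ∑ i, ∑ m, (∑ k, (inner ℝ (h k) (A m k) : ℝ)) * inner ℝ (A i m) (h i)
      ≤ ∑ i, ∑ m, ∑ k, 1 / 2 * (‖A i m‖ ^ 2 * ‖h k‖ ^ 2 + ‖A m k‖ ^ 2 * ‖h i‖ ^ 2) := by
    refine Finset.sum_le_sum fun i _ => Finset.sum_le_sum fun m _ => ?_
    rw [Finset.sum_mul]
    refine Finset.sum_le_sum fun k _ => ?_
    have h2 := amgm (h k) (A m k) (h i) (A i m)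
    rw [real_inner_comm (h i) (A i m)]
    linarith
  refine h1.trans (le_of_eq ?_)
  rw [sum_add3 (fun i m k => ‖A i m‖ ^ 2 * ‖h k‖ ^ 2) (fun i m k => ‖A m k‖ ^ 2 * ‖h i‖ ^ 2),
    pr4 (fun i k => ‖A i k‖ ^ 2) (fun j => ‖h j‖ ^ 2),
    pr2 (fun i k => ‖A i k‖ ^ 2) (fun j => ‖h j‖ ^ 2)]
  unfold XX
  ring

lemma td (A : Fin n → Fin n → EE N) (h : Fin n → EE N) :
    ∑ i, ∑ k, ∑ m, (inner ℝ (h i) (A m k) : ℝ) ^ 2 ≤ XX A * ∑ k, ‖h k‖ ^ 2 := by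
  have h1 : ∑ i, ∑ k, ∑ m, (inner ℝ (h i) (A m k) : ℝ) ^ 2
      ≤ ∑ i, ∑ k, ∑ m, ‖A m k‖ ^ 2 * ‖h i‖ ^ 2 := by
    refine Finset.sum_le_sum fun i _ => Finset.sum_le_sum fun k _ =>
      Finset.sum_le_sum fun m _ => ?_
    have := cs2 (h i) (A m k)
    linarith [mul_comm (‖A m k‖ ^ 2) (‖h i‖ ^ 2)]
  exact h1.trans (le_of_eq (pr5 (fun i k => ‖A i k‖ ^ 2) (fun j => ‖h j‖ ^ 2)))

lemma tb3 (A : Fin n → Fin n → EE N) (T : Fin n → Fin n → Fin n → EE N) (hT : Sym3V T) :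
    ∑ i, ∑ m, ∑ l, (inner ℝ (Hv A) (A m l) : ℝ) * inner ℝ (T l i m) (et T i)
      ≤ n * (XX A * tq T) := by
  rcases (XX_nonneg A).eq_or_lt with hX | hX
  · have hA : ∀ m l, A m l = 0 := by
      intro m l
      have h1 : ‖A m l‖ ^ 2 ≤ XX A := by
        refine le_trans (Finset.single_le_sum (f := fun j => ‖A m j‖ ^ 2)
          (fun j _ => by positivity) (Finset.mem_univ l)) ?_
        exact Finset.single_le_sum (f := fun i => ∑ j, ‖A i j‖ ^ 2)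
          (fun i _ => by positivity) (Finset.mem_univ m)
      have h2 : ‖A m l‖ ^ 2 = 0 := le_antisymm (by rw [hX]; exact h1) (by positivity)
      exact norm_eq_zero.1 (pow_eq_zero_iff (by norm_num) |>.1 h2)
    simp only [hA, inner_zero_right, zero_mul, Finset.sum_const_zero]
    have := tq_nonneg T
    rw [← hX]
    simp
  · rcases Nat.eq_zero_or_pos n with hn | hn
    · subst hn
      simp
    have hn' : (0 : ℝ) < n := by exact_mod_cast hn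
    set c : ℝ := n * XX A with hc
    have hc0 : 0 < c := by positivity
    have hT' : ∀ i m l, T l i m = T i m l := fun i m l => by rw [hT.1 l i m, hT.2 i l m]
    have h1 : ∑ i, ∑ m, ∑ l, (inner ℝ (Hv A) (A m l) : ℝ) * inner ℝ (T l i m) (et T i)
        ≤ ∑ i, ∑ m, ∑ l, 1 / 2 * (c * ‖T i m l‖ ^ 2
          + ‖Hv A‖ ^ 2 / c * (‖A m l‖ ^ 2 * ‖et T i‖ ^ 2)) := by
      refine Finset.sum_le_sum fun i _ => Finset.sum_le_sum fun m _ =>
        Finset.sum_le_sum fun l _ => ?_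
      rw [hT' i m l]
      have h2 := abs_real_inner_le_norm (Hv A) (A m l)
      have h3 := abs_real_inner_le_norm (T i m l) (et T i)
      have h4 : (inner ℝ (Hv A) (A m l) : ℝ) * inner ℝ (T i m l) (et T i)
          ≤ (‖Hv A‖ * ‖A m l‖) * (‖T i m l‖ * ‖et T i‖) := by
        calc (inner ℝ (Hv A) (A m l) : ℝ) * inner ℝ (T i m l) (et T i)
            ≤ |(inner ℝ (Hv A) (A m l) : ℝ) * inner ℝ (T i m l) (et T i)| := le_abs_self _
          _ = |(inner ℝ (Hv A) (A m l) : ℝ)| * |(inner ℝ (T i m l) (et T i) : ℝ)| := abs_mul _ _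
          _ ≤ _ := mul_le_mul h2 h3 (abs_nonneg _) (by positivity)
      set s := ‖Hv A‖ * ‖A m l‖ * ‖et T i‖ with hs
      have h5 : (‖Hv A‖ * ‖A m l‖) * (‖T i m l‖ * ‖et T i‖) = ‖T i m l‖ * s := by rw [hs]; ring
      have h6 : ‖Hv A‖ ^ 2 / c * (‖A m l‖ ^ 2 * ‖et T i‖ ^ 2) = s ^ 2 / c := by rw [hs]; ring
      rw [h6]
      have h7 : ‖T i m l‖ * s ≤ 1 / 2 * (c * ‖T i m l‖ ^ 2 + s ^ 2 / c) := by
        have h8 : 0 ≤ (c * ‖T i m l‖ - s) ^ 2 / c := by positivity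
        have h9 : (c * ‖T i m l‖ - s) ^ 2 / c
            = c * ‖T i m l‖ ^ 2 - 2 * (‖T i m l‖ * s) + s ^ 2 / c := by
          field_simp
          ring
        linarith
      linarith
    refine h1.trans ?_
    rw [sum_add3 (fun i m l => c * ‖T i m l‖ ^ 2)
      (fun i m l => ‖Hv A‖ ^ 2 / c * (‖A m l‖ ^ 2 * ‖et T i‖ ^ 2))]
    have e1 : ∑ i, ∑ m, ∑ l, c * ‖T i m l‖ ^ 2 = c * tq T := by
      simp only [← Finset.mul_sum]
      rfl
    have e2 : ∑ i, ∑ m, ∑ l, ‖Hv A‖ ^ 2 / c * (‖A m l‖ ^ 2 * ‖et T i‖ ^ 2)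
        = ‖Hv A‖ ^ 2 / c * (XX A * eq2 T) := by
      simp only [← Finset.mul_sum]
      congr 1
      exact pr2 (fun i k => ‖A i k‖ ^ 2) (fun j => ‖et T j‖ ^ 2)
    rw [e1, e2]
    have h3 : ‖Hv A‖ ^ 2 / c ≤ 1 := by
      rw [div_le_one hc0]
      exact Hv_le A
    have h4 : ‖Hv A‖ ^ 2 / c * (XX A * eq2 T) ≤ 1 * (XX A * (n * tq T)) := by
      refine mul_le_mul h3 ?_ (mul_nonneg hX.le (eq2_nonneg T)) (by norm_num)
      exact mul_le_mul_of_nonneg_left (eq2_le T) hX.le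
    have h5 : c * tq T = n * (XX A * tq T) := by rw [hc]; ring
    nlinarith

/-- the final estimate -/
lemma est (A : Fin n → Fin n → EE N) (T : Fin n → Fin n → Fin n → EE N) (hT : Sym3V T)
    (J : Fin n → EE N)
    (hJ : ∀ i, J i = (-2 : ℝ) • (∑ a, ∑ b, (inner ℝ (A a i) (et T b) : ℝ) • A a b)
        + (2 : ℝ) • (∑ m, (∑ k, (inner ℝ (et T k) (A m k) : ℝ)) • A i m)
        + (2 : ℝ) • (∑ m, ∑ l, (inner ℝ (Hv A) (A m l) : ℝ) • T l i m)) :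
    2 * (∑ i, ∑ j, (∑ k, (inner ℝ (A i k) (A j k) : ℝ)) * inner ℝ (et T i) (et T j))
      + 2 * (∑ i, (inner ℝ (J i) (et T i) : ℝ))
      + 2 * (∑ i, ∑ k, ∑ m, (inner ℝ (et T i) (A m k) : ℝ) ^ 2)
      ≤ 16 * n * (XX A * tq T) := by
  have e : ∑ i, (inner ℝ (J i) (et T i) : ℝ)
      = 2 * (-∑ i, ∑ a, ∑ b, (inner ℝ (A a i) (et T b) : ℝ) * inner ℝ (A a b) (et T i))
        + 2 * (∑ i, ∑ m, (∑ k, (inner ℝ (et T k) (A m k) : ℝ)) * inner ℝ (A i m) (et T i))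
        + 2 * (∑ i, ∑ m, ∑ l, (inner ℝ (Hv A) (A m l) : ℝ) * inner ℝ (T l i m) (et T i)) := by
    have h1 : ∀ i, (inner ℝ (J i) (et T i) : ℝ)
        = 2 * (-∑ a, ∑ b, (inner ℝ (A a i) (et T b) : ℝ) * inner ℝ (A a b) (et T i))
        + 2 * (∑ m, (∑ k, (inner ℝ (et T k) (A m k) : ℝ)) * inner ℝ (A i m) (et T i))
        + 2 * (∑ m, ∑ l, (inner ℝ (Hv A) (A m l) : ℝ) * inner ℝ (T l i m) (et T i)) := by
      intro i
      rw [hJ i, inner_add_left, inner_add_left]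
      simp only [real_inner_smul_left, sum_inner]
      ring
    simp only [h1, Finset.sum_add_distrib, ← Finset.mul_sum, Finset.sum_neg_distrib]
  rw [e]
  have a1 := ta A (et T)
  have a2 := tb1 A (et T)
  have a3 := tb2 A (et T)
  have a4 := tb3 A T hT
  have a5 := td A (et T)
  have hq : ∑ k, ‖et T k‖ ^ 2 = eq2 T := rfl
  rw [hq] at a1 a2 a3 a5
  have h6 : XX A * eq2 T ≤ n * (XX A * tq T) := by
    have := mul_le_mul_of_nonneg_left (eq2_le T) (XX_nonneg A)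
    calc XX A * eq2 T ≤ XX A * (n * tq T) := this
      _ = _ := by ring
  linarith

end Alg

section Geo

variable {n N : ℕ}

lemma slice {V : Type*} [NormedAddCommGroup V] [NormedSpace ℝ V]
    (φ : EE n × ℝ → V) (x : EE n) (t : ℝ) (m : Fin n) (h : DifferentiableAt ℝ φ (x, t)) :
    fderiv ℝ (fun y => φ (y, t)) x (ee m) = jg φ (x, t) m := by
  have h1 : HasFDerivAt (fun y : EE n => ((y, t) : EE n × ℝ))
      (ContinuousLinearMap.inl ℝ (EE n) ℝ) x := hasFDerivAt_prodMk_left x t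
  have h2 : HasFDerivAt (fun y => φ (y, t))
      ((fderiv ℝ φ (x, t)).comp (ContinuousLinearMap.inl ℝ (EE n) ℝ)) x :=
    HasFDerivAt.comp x h.hasFDerivAt h1
  rw [h2.fderiv]
  simp [jg]

/-- inner product of two normal parts -/
lemma inner_nrm (hNR : StNR) (f : EE n → EE N) (x : EE n) (hf : LI f x) (v v' : EE N) :
    (inner ℝ (nrm f x v) (nrm f x v') : ℝ)
      = inner ℝ v v' - ∑ k, ∑ l, (gram f x)⁻¹ k l
          * ((inner ℝ v' (dv1 f x k) : ℝ) * inner ℝ v (dv1 f x l)) := by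
  obtain ⟨n1, n2, n3, n4, n5, n6, n7, n8⟩ := hNR n N f x hf
  rw [n7, n4 (nrm f x v') (n1 v')]
  unfold nrm
  rw [inner_sub_right, inner_sum]
  congr 1
  refine Finset.sum_congr rfl fun k _ => ?_
  rw [inner_sum]
  refine Finset.sum_congr rfl fun l _ => ?_
  rw [real_inner_smul_right]
  ring

lemma GI_symm (hFR : StFR) (f : EE n → EE N) (x : EE n) (hf : LI f x) (i j : Fin n) :
    (gram f x)⁻¹ i j = (gram f x)⁻¹ j i := by
  obtain ⟨-, -, P, hP, -⟩ := hFR n N f x hf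
  rw [hP]
  simp only [Matrix.mul_apply, Matrix.transpose_apply]
  exact Finset.sum_congr rfl fun a _ => mul_comm _ _

/-- mean curvature vector near the centre -/
lemma Hf_ev (hJHW : StJHW) (hG2 : StG2) (hNR : StNR) (hFR : StFR) (x₀ : EE N)
    (L : EE n →ₗᵢ[ℝ] EE N) (u : EE n × ℝ → EE N) (t₀ : ℝ) (hu : GraphSol x₀ L u t₀) :
    Hf x₀ L u =ᶠ[𝓝 ((0 : EE n), t₀)]
      fun z => jt u z - ∑ m, Vg x₀ L u m z • (L (ee m) + jg u z m) := by
  obtain ⟨-, -, hperp, -⟩ := hJHW n N x₀ L u t₀ hu _ _ rfl rfl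
  filter_upwards [hG2 n N x₀ L u t₀ hu, hu.pde, hperp] with z hz hp hw
  obtain ⟨z1, z2, z3, z4, z5⟩ := hz
  have h1 : Hf x₀ L u z = nrm (grf x₀ L u z.2) z.1 (jt u z) := by
    show ∑ i, ∑ j, (gram (grf x₀ L u z.2) z.1)⁻¹ i j •
      nrm (grf x₀ L u z.2) z.1 (dv2 (grf x₀ L u z.2) z.1 i j) = _
    rw [nrm_sum hNR _ _ z5 (fun i j => (gram (grf x₀ L u z.2) z.1)⁻¹ i j)
      (fun i j => dv2 (grf x₀ L u z.2) z.1 i j), hp]
    congr 1
    refine Finset.sum_congr rfl fun i _ => Finset.sum_congr rfl fun j _ => ?_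
    rw [z2 i j]
  rw [h1]
  unfold nrm
  congr 1
  rw [Finset.sum_comm]
  refine Finset.sum_congr rfl fun l _ => ?_
  rw [← Finset.sum_smul, z1 l]
  congr 1
  unfold Vg
  refine Finset.sum_congr rfl fun k _ => ?_
  rw [z1 k, inner_add_right, hw, zero_add]
  unfold GIf
  rw [GI_symm hFR _ _ z5 k l]

lemma Vg_smooth (hJHW : StJHW) (hG0 : StG0) (x₀ : EE N)
    (L : EE n →ₗᵢ[ℝ] EE N) (u : EE n × ℝ → EE N) (t₀ : ℝ) (hu : GraphSol x₀ L u t₀) (m : Fin n) :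
    ContDiffAt ℝ ∞ (Vg x₀ L u m) (0, t₀) := by
  obtain ⟨hw, -, -, -⟩ := hJHW n N x₀ L u t₀ hu _ _ rfl rfl
  unfold Vg
  refine ContDiffAt.sum fun j _ => ?_
  refine (hG0 n N x₀ L u t₀ hu m j).1.mul ?_
  exact hw.inner ℝ (DD_inf hu.smooth (ee j, 0))

/-- explicit form of `|∇^⊥H|²` near the centre -/
noncomputable def RR (x₀ : EE N) (L : EE n →ₗᵢ[ℝ] EE N) (u : EE n × ℝ → EE N)
    (z : EE n × ℝ) : ℝ :=
  ∑ i, ∑ j, GIf x₀ L u i j z * ((inner ℝ (Dg x₀ L u i z) (Dg x₀ L u j z) : ℝ)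
    - ∑ k, ∑ l, GIf x₀ L u k l z * ((inner ℝ (Dg x₀ L u j z) (jg u z k) : ℝ)
      * inner ℝ (Dg x₀ L u i z) (jg u z l)))

lemma hsq_ev (hDIJ : StDIJ) (hJHW : StJHW) (hG0 : StG0) (hG2 : StG2) (hNR : StNR) (hFR : StFR)
    (x₀ : EE N) (L : EE n →ₗᵢ[ℝ] EE N) (u : EE n × ℝ → EE N) (t₀ : ℝ)
    (hu : GraphSol x₀ L u t₀) :
    (fun z : EE n × ℝ => hsq (grf x₀ L u z.2) z.1) =ᶠ[𝓝 ((0 : EE n), t₀)] RR x₀ L u := by
  have hH := Hf_ev hJHW hG2 hNR hFR x₀ L u t₀ hu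
  obtain ⟨hw, -, -, -⟩ := hJHW n N x₀ L u t₀ hu _ _ rfl rfl
  have hV := Vg_smooth hJHW hG0 x₀ L u t₀ hu
  have hs : ContDiffAt ℝ ∞ u (0, t₀) := hu.smooth
  have hsg : ∀ m : Fin n, ContDiffAt ℝ ∞ (DD ((ee m, 0) : EE n × ℝ) u) (0, t₀) := fun m =>
    DD_inf hs _
  have hDp : ∀ᶠ z in 𝓝 ((0 : EE n), t₀), ∀ i, ∀ v,
      (inner ℝ (Dg x₀ L u i z) (L v) : ℝ) = 0 := by
    rw [Filter.eventually_all]
    intro i
    exact (hDIJ n N x₀ L u t₀ hu _ _ rfl rfl i).2.2.1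
  have hVd : ∀ᶠ z in 𝓝 ((0 : EE n), t₀), ∀ m, DifferentiableAt ℝ (Vg x₀ L u m) z := by
    rw [Filter.eventually_all]
    intro m
    exact diff_ev (hV m)
  have hgd : ∀ᶠ z in 𝓝 ((0 : EE n), t₀), ∀ m : Fin n,
      DifferentiableAt ℝ (DD ((ee m, 0) : EE n × ℝ) u) z := by
    rw [Filter.eventually_all]
    intro m
    exact diff_ev (hsg m)
  filter_upwards [hH.eventuallyEq_nhds, hG2 n N x₀ L u t₀ hu, hDp, hVd, hgd, diff_ev hw]
    with z hHz hz hDz hVz hgz hwz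
  obtain ⟨z1, z2, z3, z4, z5⟩ := hz
  have hterm : ∀ m : Fin n, DifferentiableAt ℝ
      (fun z => Vg x₀ L u m z • (L (ee m) + jg u z m)) z := fun m =>
    (hVz m).smul ((differentiableAt_const _).add (hgz m))
  have hsum : DifferentiableAt ℝ
      (fun z => ∑ m, Vg x₀ L u m z • (L (ee m) + jg u z m)) z :=
    DifferentiableAt.fun_sum fun m _ => hterm m
  have hder : ∀ k, jg (Hf x₀ L u) z k
      = Dg x₀ L u k z - ∑ m, jg (Vg x₀ L u m) z k • dv1 (grf x₀ L u z.2) z.1 m := by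
    intro k
    have e1 : jg (Hf x₀ L u) z k
        = jg (fun z => jt u z - ∑ m, Vg x₀ L u m z • (L (ee m) + jg u z m)) z k :=
      DD_congr hHz _
    rw [e1]
    have e2 : jg (fun z => jt u z - ∑ m, Vg x₀ L u m z • (L (ee m) + jg u z m)) z k
        = jg (jt u) z k - jg (fun z => ∑ m, Vg x₀ L u m z • (L (ee m) + jg u z m)) z k := by
      show fderiv ℝ (fun z => jt u z - ∑ m, Vg x₀ L u m z • (L (ee m) + jg u z m)) z (ee k, 0)
        = _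
      rw [fderiv_fun_sub hwz hsum]
      rfl
    have e3 : jg (fun z => ∑ m, Vg x₀ L u m z • (L (ee m) + jg u z m)) z k
        = ∑ m, (Vg x₀ L u m z • jgg u z k m
          + jg (Vg x₀ L u m) z k • (L (ee m) + jg u z m)) := by
      have e4 := DD_sum Finset.univ (fun m z => Vg x₀ L u m z • (L (ee m) + jg u z m))
        (z := z) (fun m _ => hterm m) ((ee k, 0) : EE n × ℝ)
      refine Eq.trans e4 ?_
      refine Finset.sum_congr rfl fun m _ => ?_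
      have e5 := DD_smul (Vg x₀ L u m) (fun z => L (ee m) + jg u z m) (hVz m)
        ((differentiableAt_const _).add (hgz m)) ((ee k, 0) : EE n × ℝ)
      refine Eq.trans e5 ?_
      congr 2
      show fderiv ℝ (fun z => L (ee m) + jg u z m) z (ee k, 0) = _
      rw [fderiv_const_add]
      rfl
    rw [e2, e3, Finset.sum_add_distrib]
    unfold Dg
    simp only [z1]
    abel
  have hD : ∀ k, fderiv ℝ (mcv (grf x₀ L u z.2)) z.1 (ee k) = jg (Hf x₀ L u) z k := by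
    intro k
    have hd : DifferentiableAt ℝ (Hf x₀ L u) (z.1, z.2) := by
      have : DifferentiableAt ℝ
          (fun z => jt u z - ∑ m, Vg x₀ L u m z • (L (ee m) + jg u z m)) z := hwz.sub hsum
      exact (hHz.differentiableAt_iff).2 this
    exact slice (Hf x₀ L u) z.1 z.2 k hd
  have hN : ∀ k, nrm (grf x₀ L u z.2) z.1 (fderiv ℝ (mcv (grf x₀ L u z.2)) z.1 (ee k))
      = nrm (grf x₀ L u z.2) z.1 (Dg x₀ L u k z) := by
    intro k
    obtain ⟨n1, n2, n3, n4, n5, n6, n7, n8⟩ := hNR n N (grf x₀ L u z.2) z.1 z5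
    rw [hD, hder]
    have e1 : ∑ m, jg (Vg x₀ L u m) z k • dv1 (grf x₀ L u z.2) z.1 m
        ∈ Submodule.span ℝ (range fun i => dv1 (grf x₀ L u z.2) z.1 i) :=
      Submodule.sum_mem _ fun m _ => Submodule.smul_mem _ _ (Submodule.subset_span ⟨m, rfl⟩)
    have e2 : Dg x₀ L u k z - ∑ m, jg (Vg x₀ L u m) z k • dv1 (grf x₀ L u z.2) z.1 m
        = Dg x₀ L u k z
          + (-1 : ℝ) • ∑ m, jg (Vg x₀ L u m) z k • dv1 (grf x₀ L u z.2) z.1 m := by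
      rw [neg_one_smul, sub_eq_add_neg]
    rw [e2, n5, n6, n2 _ e1, smul_zero, add_zero]
  show hsq (grf x₀ L u z.2) z.1 = RR x₀ L u z
  unfold hsq RR
  refine Finset.sum_congr rfl fun i _ => Finset.sum_congr rfl fun j _ => ?_
  rw [hN i, hN j, inner_nrm hNR _ _ z5]
  have h3 : ∀ i k, (inner ℝ (Dg x₀ L u i z) (dv1 (grf x₀ L u z.2) z.1 k) : ℝ)
      = inner ℝ (Dg x₀ L u i z) (jg u z k) := by
    intro i k
    rw [z1 k, inner_add_right, hDz, zero_add]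
  simp only [h3]
  rfl

/-- product with a function of vanishing gradient -/
lemma jh_mul0 (hJB : StJB) (z : EE n × ℝ) (g φ : EE n × ℝ → ℝ) (hg : ContDiffAt ℝ 2 g z)
    (hφ : ContDiffAt ℝ 2 φ z) (h0 : ∀ k, jg g z k = 0) :
    jh (fun z => g z * φ z) z = jh g z * φ z + g z * jh φ z := by
  obtain ⟨h1, -⟩ := hJB n 0 z
  rw [(h1 g φ hg hφ).2]
  simp [h0]

/-- bookkeeping of the final sum -/
lemma fin_alg (S I : Fin n → Fin n → ℝ) (q a b c : Fin n → ℝ) (hb : ∀ i, 0 ≤ b i)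
    (hq : ∀ i, q i = 2 * a i - 2 * b i + 2 * c i) :
    ∑ i, (∑ j, (2 * S i j) * I i j + q i)
      ≤ 2 * (∑ i, ∑ j, S i j * I i j) + 2 * (∑ i, a i) + 2 * (∑ i, c i) := by
  have h1 : ∑ i, (∑ j, (2 * S i j) * I i j + q i)
      ≤ ∑ i, (2 * (∑ j, S i j * I i j) + 2 * a i + 2 * c i) := by
    refine Finset.sum_le_sum fun i _ => ?_
    have e : ∑ j, (2 * S i j) * I i j = 2 * (∑ j, S i j * I i j) := by
      rw [Finset.mul_sum]
      exact Finset.sum_congr rfl fun j _ => by ring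
    rw [e, hq i]
    have := hb i
    linarith
  refine h1.trans (le_of_eq ?_)
  rw [Finset.sum_add_distrib, Finset.sum_add_distrib, ← Finset.mul_sum, ← Finset.mul_sum,
    ← Finset.mul_sum]

theorem hHSJ (hDIJ : StDIJ) (hJHW : StJHW) (hG0 : StG0) (hG1 : StG1) (hG2 : StG2) (hG5 : StG5)
    (hNR : StNR) (hFR : StFR) (hJA : StJA) (hJB : StJB) : StHSJ := by
  intro n N hn x₀ L u t₀ hu A T hA hT
  have hev := hsq_ev hDIJ hJHW hG0 hG2 hNR hFR x₀ L u t₀ hu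
  obtain ⟨symA, symT, perpA, perpT⟩ := hG1 n N x₀ L u t₀ hu
  rw [← hA] at symA perpA
  rw [← hT] at symT perpT
  have hs : ContDiffAt ℝ ∞ u (0, t₀) := hu.smooth
  have hsg : ∀ m : Fin n, ContDiffAt ℝ 2 (fun z => jg u z m) ((0 : EE n), t₀) := fun m =>
    two_of (DD_inf hs ((ee m, 0) : EE n × ℝ))
  have hGs : ∀ i j, ContDiffAt ℝ 2 (GIf x₀ L u i j) ((0 : EE n), t₀) := fun i j =>
    two_of (hG0 n N x₀ L u t₀ hu i j).1
  have hG0v : ∀ i j, GIf x₀ L u i j ((0 : EE n), t₀) = if i = j then 1 else 0 := fun i j =>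
    (hG0 n N x₀ L u t₀ hu i j).2.1
  have hG0g : ∀ i j k, jg (GIf x₀ L u i j) ((0 : EE n), t₀) k = 0 := fun i j =>
    (hG0 n N x₀ L u t₀ hu i j).2.2.1
  have hG0h : ∀ i j, jh (GIf x₀ L u i j) ((0 : EE n), t₀)
      = 2 * ∑ k, (inner ℝ (A i k) (A j k) : ℝ) := by
    intro i j
    rw [(hG5 n N x₀ L u t₀ hu i j).2.2.2, hA]
  have hDJ := fun i => hDIJ n N x₀ L u t₀ hu A T hA hT i
  have hDs : ∀ i, ContDiffAt ℝ 2 (Dg x₀ L u i) ((0 : EE n), t₀) := fun i => two_of (hDJ i).1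
  have hDv : ∀ i, Dg x₀ L u i ((0 : EE n), t₀) = et T i := fun i => (hDJ i).2.1
  obtain ⟨-, jaC, jaA, -, jaS⟩ := hJA n ℝ ((0 : EE n), t₀)
  obtain ⟨jbM, jbI⟩ := hJB n N ((0 : EE n), t₀)
  -- the functions
  set z₀ : EE n × ℝ := ((0 : EE n), t₀) with hz₀
  let p : Fin n → Fin n → EE n × ℝ → ℝ := fun j k z => inner ℝ (Dg x₀ L u j z) (jg u z k)
  have hp : ∀ j k, ContDiffAt ℝ 2 (p j k) z₀ := fun j k => (hDs j).inner ℝ (hsg k)
  have hpv : ∀ j k, p j k z₀ = 0 := by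
    intro j k
    show (inner ℝ (Dg x₀ L u j z₀) (jg u z₀ k) : ℝ) = 0
    rw [hu.du0 k, inner_zero_right]
  have hpg : ∀ j k m, jg (p j k) z₀ m = inner ℝ (et T j) (A m k) := by
    intro j k m
    have := (jbI (Dg x₀ L u j) (fun z => jg u z k) (hDs j) (hsg k)).1 m
    refine Eq.trans this ?_
    show (inner ℝ (jg (Dg x₀ L u j) z₀ m) (jg u z₀ k) : ℝ)
      + inner ℝ (Dg x₀ L u j z₀) (jgg u z₀ m k) = _
    rw [hu.du0 k, inner_zero_right, zero_add, hDv, hA]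
  have hpp : ∀ i j k l, jh (fun z => p j k z * p i l z) z₀
      = -2 * ∑ m, (inner ℝ (et T j) (A m k) : ℝ) * inner ℝ (et T i) (A m l) := by
    intro i j k l
    rw [(jbM (p j k) (p i l) (hp j k) (hp i l)).2, hpv, hpv]
    simp only [hpg]
    ring
  have hppS : ∀ i j k l, ContDiffAt ℝ 2 (fun z => p j k z * p i l z) z₀ := fun i j k l =>
    (hp j k).mul (hp i l)
  have hgp : ∀ i j k l, jh (fun z => GIf x₀ L u k l z * (p j k z * p i l z)) z₀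
      = (if k = l then 1 else 0)
        * (-2 * ∑ m, (inner ℝ (et T j) (A m k) : ℝ) * inner ℝ (et T i) (A m l)) := by
    intro i j k l
    rw [jh_mul0 hJB z₀ (GIf x₀ L u k l) (fun z => p j k z * p i l z) (hGs k l)
      (hppS i j k l) (hG0g k l)]
    rw [hpp, hpv, hG0v]
    ring
  have hgpS : ∀ i j k l, ContDiffAt ℝ 2 (fun z => GIf x₀ L u k l z * (p j k z * p i l z)) z₀ :=
    fun i j k l => (hGs k l).mul (hppS i j k l)
  let q : Fin n → Fin n → EE n × ℝ → ℝ := fun i j z =>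
    ∑ k, ∑ l, GIf x₀ L u k l z * (p j k z * p i l z)
  have hqS : ∀ i j, ContDiffAt ℝ 2 (q i j) z₀ := fun i j =>
    ContDiffAt.sum fun k _ => ContDiffAt.sum fun l _ => hgpS i j k l
  have hqv : ∀ i j, q i j z₀ = 0 := by
    intro i j
    show ∑ k, ∑ l, GIf x₀ L u k l z₀ * (p j k z₀ * p i l z₀) = 0
    simp [hpv]
  have hqh : ∀ i, jh (q i i) z₀ = -2 * ∑ k, ∑ m, (inner ℝ (et T i) (A m k) : ℝ) ^ 2 := by
    intro i
    have e1 : jh (q i i) z₀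
        = ∑ k, jh (fun z => ∑ l, GIf x₀ L u k l z * (p i k z * p i l z)) z₀ :=
      (jaS n (fun k z => ∑ l, GIf x₀ L u k l z * (p i k z * p i l z))
        (fun k => ContDiffAt.sum fun l _ => hgpS i i k l)).2
    rw [e1, Finset.mul_sum]
    refine Finset.sum_congr rfl fun k _ => ?_
    rw [(jaS n (fun l z => GIf x₀ L u k l z * (p i k z * p i l z))
      (fun l => hgpS i i k l)).2]
    rw [Finset.sum_eq_single k]
    · rw [hgp, if_pos rfl, one_mul]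
      congr 1
      exact Finset.sum_congr rfl fun m _ => (_root_.sq _).symm
    · intro l _ hl
      rw [hgp, if_neg (Ne.symm hl), zero_mul]
    · intro h
      exact absurd (Finset.mem_univ _) h
  let Q : Fin n → Fin n → EE n × ℝ → ℝ := fun i j z =>
    (inner ℝ (Dg x₀ L u i z) (Dg x₀ L u j z) : ℝ) - q i j z
  have hIS : ∀ i j, ContDiffAt ℝ 2
      (fun z => (inner ℝ (Dg x₀ L u i z) (Dg x₀ L u j z) : ℝ)) z₀ := fun i j =>
    (hDs i).inner ℝ (hDs j)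
  have hQS : ∀ i j, ContDiffAt ℝ 2 (Q i j) z₀ := fun i j => (hIS i j).sub (hqS i j)
  have hQv : ∀ i j, Q i j z₀ = inner ℝ (et T i) (et T j) := by
    intro i j
    show (inner ℝ (Dg x₀ L u i z₀) (Dg x₀ L u j z₀) : ℝ) - q i j z₀ = _
    rw [hqv, hDv, hDv, sub_zero]
  have hQh : ∀ i, jh (Q i i) z₀ = 2 * (inner ℝ (jh (Dg x₀ L u i) z₀) (et T i) : ℝ)
      - 2 * ∑ m, ‖jg (Dg x₀ L u i) z₀ m‖ ^ 2
      + 2 * ∑ k, ∑ m, (inner ℝ (et T i) (A m k) : ℝ) ^ 2 := by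
    intro i
    have e1 : jh (Q i i) z₀
        = jh (fun z => (inner ℝ (Dg x₀ L u i z) (Dg x₀ L u i z) : ℝ)) z₀ - jh (q i i) z₀ :=
      (jaA _ (q i i) (hIS i i) (hqS i i)).2.2.2
    rw [e1, hqh, (jbI (Dg x₀ L u i) (Dg x₀ L u i) (hDs i) (hDs i)).2, hDv]
    have e2 : ∀ m, (inner ℝ (jg (Dg x₀ L u i) z₀ m) (jg (Dg x₀ L u i) z₀ m) : ℝ)
        = ‖jg (Dg x₀ L u i) z₀ m‖ ^ 2 := fun m => real_inner_self_eq_norm_sq _
    simp only [e2]
    rw [real_inner_comm (jh (Dg x₀ L u i) z₀) (et T i)]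
    ring
  have hRt : ∀ i j, ContDiffAt ℝ 2 (fun z => GIf x₀ L u i j z * Q i j z) z₀ := fun i j =>
    (hGs i j).mul (hQS i j)
  have hR : RR x₀ L u = fun z => ∑ i, ∑ j, GIf x₀ L u i j z * Q i j z := rfl
  have hRS : ContDiffAt ℝ 2 (RR x₀ L u) z₀ := by
    rw [hR]
    exact ContDiffAt.sum fun i _ => ContDiffAt.sum fun j _ => hRt i j
  have hRv : RR x₀ L u z₀ = eq2 T := by
    rw [hR]
    show ∑ i, ∑ j, GIf x₀ L u i j z₀ * Q i j z₀ = eq2 T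
    unfold eq2
    refine Finset.sum_congr rfl fun i _ => ?_
    rw [Finset.sum_eq_single i]
    · rw [hG0v, if_pos rfl, one_mul, hQv, real_inner_self_eq_norm_sq]
    · intro j _ hj
      rw [hG0v, if_neg (Ne.symm hj), zero_mul]
    · intro h
      exact absurd (Finset.mem_univ _) h
  have hRh : jh (RR x₀ L u) z₀
      = ∑ i, (∑ j, (2 * ∑ k, (inner ℝ (A i k) (A j k) : ℝ)) * inner ℝ (et T i) (et T j)
        + jh (Q i i) z₀) := by
    rw [hR]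
    rw [(jaS n (fun i z => ∑ j, GIf x₀ L u i j z * Q i j z)
        (fun i => ContDiffAt.sum fun j _ => hRt i j)).2]
    refine Finset.sum_congr rfl fun i _ => ?_
    rw [(jaS n (fun j z => GIf x₀ L u i j z * Q i j z) (fun j => hRt i j)).2]
    have e1 : ∀ j, jh (fun z => GIf x₀ L u i j z * Q i j z) z₀
        = (2 * ∑ k, (inner ℝ (A i k) (A j k) : ℝ)) * inner ℝ (et T i) (et T j)
          + (if i = j then 1 else 0) * jh (Q i j) z₀ := by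
      intro j
      rw [jh_mul0 hJB z₀ (GIf x₀ L u i j) (Q i j) (hGs i j) (hQS i j) (hG0g i j)]
      rw [hG0h, hQv, hG0v]
    rw [Finset.sum_congr rfl fun j _ => e1 j, Finset.sum_add_distrib]
    congr 1
    rw [Finset.sum_eq_single i]
    · rw [if_pos rfl, one_mul]
    · intro j _ hj
      rw [if_neg (Ne.symm hj), zero_mul]
    · intro h
      exact absurd (Finset.mem_univ _) h
  refine ⟨hRS.congr_of_eventuallyEq hev, ?_, ?_⟩
  · exact (hev.self_of_nhds).trans hRv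
  · have h1 : jh (fun z : EE n × ℝ => hsq (grf x₀ L u z.2) z.1) z₀ = jh (RR x₀ L u) z₀ :=
      ((hJA n ℝ z₀).1 _ _ hev).2.2.2
    rw [h1, hRh]
    have h2 := est A T symT (fun i => jh (Dg x₀ L u i) z₀) (fun i => (hDJ i).2.2.2)
    refine le_trans ?_ h2
    have h4 := fin_alg (fun i j => ∑ k, (inner ℝ (A i k) (A j k) : ℝ))
      (fun i j => (inner ℝ (et T i) (et T j) : ℝ)) (fun i => jh (Q i i) z₀)
      (fun i => (inner ℝ (jh (Dg x₀ L u i) z₀) (et T i) : ℝ))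
      (fun i => ∑ m, ‖jg (Dg x₀ L u i) z₀ m‖ ^ 2)
      (fun i => ∑ k, ∑ m, (inner ℝ (et T i) (A m k) : ℝ) ^ 2)
      (fun i => Finset.sum_nonneg fun m _ => sq_nonneg _) hQh
    exact h4

end Geo

end Helper82.HC
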