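import Mathlib

/-! Project HC: Hölder continuous second derivatives have a Dini-log modulus. -/

set_option autoImplicit false

namespace Pool.Agent.Helper82.HC

theorem tHOL {ι : Type} (D : ι → ℝ → ℝ)
    (h : ∃ C α : ℝ, 0 < α ∧ ∀ i x y, |D i x - D i y| ≤ C * |x - y| ^ α) :
    ∃ ω : ℝ → ℝ, (∀ s t, 0 ≤ s → s ≤ t → ω s ≤ ω t) ∧
      Summable (fun k : ℕ => ((k : ℝ) + 1) * ω ((1 / 2) ^ k)) ∧
      ∀ i x y, |D i x - D i y| ≤ ω |x - y| := by
  obtain ⟨C, α, hα, h⟩ := h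
  refine ⟨fun t => |C| * t ^ α, ?_, ?_, ?_⟩
  · intro s t hs hst
    exact mul_le_mul_of_nonneg_left (Real.rpow_le_rpow hs hst hα.le) (abs_nonneg _)
  · have hr0 : (0 : ℝ) ≤ (1 / 2 : ℝ) ^ α := by positivity
    have hr1 : (1 / 2 : ℝ) ^ α < 1 := Real.rpow_lt_one (by norm_num) (by norm_num) hα
    have e : (fun k : ℕ => ((k : ℝ) + 1) * (|C| * ((1 / 2 : ℝ) ^ k) ^ α)) =
        fun k : ℕ => |C| * ((k : ℝ) ^ 1 * ((1 / 2 : ℝ) ^ α) ^ k + ((1 / 2 : ℝ) ^ α) ^ k) := by
      funext k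
      have h1 : ((1 / 2 : ℝ) ^ k) ^ α = ((1 / 2 : ℝ) ^ α) ^ k := by
        rw [← Real.rpow_natCast, ← Real.rpow_natCast, ← Real.rpow_mul (by norm_num),
          ← Real.rpow_mul (by norm_num), mul_comm]
      rw [h1]
      ring
    rw [e]
    apply Summable.mul_left
    apply Summable.add
    · exact summable_pow_mul_geometric_of_norm_lt_one 1
        (by rw [Real.norm_eq_abs, abs_of_nonneg hr0]; exact hr1)
    · exact summable_geometric_of_lt_one hr0 hr1
  · intro i x y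
    refine (h i x y).trans ?_
    exact mul_le_mul_of_nonneg_right (le_abs_self _) (by positivity)

end Pool.Agent.Helper82.HC
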