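import Pool.Agent.Helper82.HC.St

/-!
# MP_10ef18_an, project HC, module ACT: image of a pair of gaps
-/

set_option autoImplicit false

namespace Pool.Agent.Helper82.HC

open Set Pool.Agent.Helper82.HG

theorem tACT : StBAS → StLAM → StACT := by
  intro hBAS hLAM K S Λ hG hL g hg P hP
  obtain ⟨_, _, hmon, δ, hδ, hdeg⟩ := hBAS K S hG g hg
  obtain ⟨_, _, _, _, _, _, hgap, _⟩ := hLAM K S Λ hG hL
  obtain ⟨⟨c, a⟩, ⟨b, d⟩⟩ := P
  obtain ⟨h1, h2, h3, h4⟩ := hP
  have hca : c < a := h1.1
  have hbd : b < d := h2.1
  simp only at h3 h4 hca hbd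
  have g1 := hgap c a h1 g hg
  have g2 := hgap b d h2 g hg
  rcases hmon with hm | hm
  · have e1 : g c < g a := hm hca
    have e2 : g b < g d := hm hbd
    have e3 : g a ≤ g b := hm.monotone h3
    have e4 : g d < g c + 1 := by
      have h5 : g d < g (c + 1) := hm h4
      have h6 : g c < g (c + 1) := hm (by linarith)
      rw [hdeg c] at h5 h6
      rcases hδ with h | h
      · rw [h] at h5; exact h5
      · rw [h] at h6; linarith
    have s1 : sact g (c, a) = (g c, g a) := by
      unfold sact
      simp only [min_eq_left e1.le, max_eq_right e1.le]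
    have s2 : sact g (b, d) = (g b, g d) := by
      unfold sact
      simp only [min_eq_left e2.le, max_eq_right e2.le]
    have hp : pact g ((c, a), (b, d)) = ((g c, g a), (g b, g d)) := by
      unfold pact
      rw [if_pos (show g ((c, a), (b, d)).1.1 < g ((c, a), (b, d)).2.1 from lt_of_lt_of_le e1 e3)]
      show (sact g (c, a), sact g (b, d)) = _
      rw [s1, s2]
    rw [min_eq_left e1.le, max_eq_right e1.le] at g1
    rw [min_eq_left e2.le, max_eq_right e2.le] at g2
    rw [hp]
    refine ⟨⟨g1, g2, e3, e4⟩, Or.inl ⟨s1.symm, s2.symm⟩, ?_, ?_, ?_⟩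
    · show g d - g c = |g d - g c|
      rw [abs_of_pos (by linarith)]
    · show g b - g a = |g b - g a|
      rw [abs_of_nonneg (by linarith)]
    · show (g a - g c) * (g d - g b) = |g a - g c| * |g d - g b|
      rw [abs_of_pos (by linarith), abs_of_pos (by linarith)]
  · have e1 : g a < g c := hm hca
    have e2 : g d < g b := hm hbd
    have e3 : g b ≤ g a := hm.antitone h3
    have e4 : g c < g d + 1 := by
      have h5 : g (c + 1) < g d := hm h4
      have h6 : g (c + 1) < g c := hm (by linarith)
      rw [hdeg c] at h5 h6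
      rcases hδ with h | h
      · rw [h] at h6; linarith
      · rw [h] at h5; linarith
    have s1 : sact g (c, a) = (g a, g c) := by
      unfold sact
      simp only [min_eq_right e1.le, max_eq_left e1.le]
    have s2 : sact g (b, d) = (g d, g b) := by
      unfold sact
      simp only [min_eq_right e2.le, max_eq_left e2.le]
    have hp : pact g ((c, a), (b, d)) = ((g d, g b), (g a, g c)) := by
      unfold pact
      rw [if_neg (show ¬ g ((c, a), (b, d)).1.1 < g ((c, a), (b, d)).2.1 from
        not_lt.2 (e3.trans e1.le))]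
      show (sact g (b, d), sact g (c, a)) = _
      rw [s1, s2]
    rw [min_eq_right e1.le, max_eq_left e1.le] at g1
    rw [min_eq_right e2.le, max_eq_left e2.le] at g2
    rw [hp]
    refine ⟨⟨g2, g1, e3, e4⟩, Or.inr ⟨s2.symm, s1.symm⟩, ?_, ?_, ?_⟩
    · show g c - g d = |g d - g c|
      rw [abs_of_neg (by linarith)]; ring
    · show g a - g b = |g b - g a|
      rw [abs_of_nonpos (by linarith)]; ring
    · show (g b - g d) * (g c - g a) = |g a - g c| * |g d - g b|
      rw [abs_of_neg (by linarith), abs_of_neg (by linarith)]; ring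

end Pool.Agent.Helper82.HC
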