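import Pool.Agent.Helper82.HC.St

/-!
# MP_10ef18_an (Hector), project HC, module CLS: number of pairs of gaps in a dyadic class
-/

set_option autoImplicit false

namespace Pool.Agent.Helper82.HC

open Set Pool.Agent.Helper82.HG

private theorem gap_right_CLS {Λ : Set ℝ} {a b b' : ℝ} (h : Gap Λ a b) (h' : Gap Λ a b') :
    b = b' := by
  rcases lt_trichotomy b b' with hb | hb | hb
  · exfalso
    have : b ∈ Ioo a b' ∩ Λ := ⟨⟨h.1, hb⟩, h.2.2.1⟩
    rw [h'.2.2.2] at this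
    exact this
  · exact hb
  · exfalso
    have : b' ∈ Ioo a b ∩ Λ := ⟨⟨h'.1, hb⟩, h'.2.2.1⟩
    rw [h.2.2.2] at this
    exact this

private theorem gap_left_CLS {Λ : Set ℝ} {a a' b : ℝ} (h : Gap Λ a b) (h' : Gap Λ a' b) :
    a = a' := by
  rcases lt_trichotomy a a' with hb | hb | hb
  · exfalso
    have : a' ∈ Ioo a b ∩ Λ := ⟨⟨hb, h'.1⟩, h'.2.1⟩
    rw [h.2.2.2] at this
    exact this
  · exact hb
  · exfalso
    have : a ∈ Ioo a' b ∩ Λ := ⟨⟨hb, h.1⟩, h.2.1⟩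
    rw [h'.2.2.2] at this
    exact this

private theorem gap_lt_CLS {Λ : Set ℝ} {u v : ℝ × ℝ} (h : Gap Λ u.1 u.2) (h' : Gap Λ v.1 v.2)
    (hl : u.1 < v.1) : u.2 ≤ v.1 := by
  by_contra hc
  rw [not_le] at hc
  have : v.1 ∈ Ioo u.1 u.2 ∩ Λ := ⟨⟨hl, hc⟩, h'.2.1⟩
  rw [h.2.2.2] at this
  exact this

private theorem gap_lt2_CLS {Λ : Set ℝ} {u v : ℝ × ℝ} (h : Gap Λ u.1 u.2) (h' : Gap Λ v.1 v.2)
    (hl : u.2 < v.2) : u.2 ≤ v.1 := by
  by_contra hc
  rw [not_le] at hc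
  have : u.2 ∈ Ioo v.1 v.2 ∩ Λ := ⟨⟨hc, hl⟩, h.2.2.1⟩
  rw [h'.2.2.2] at this
  exact this

/-- the separation of two gaps of weight at least `ρ` -/
private theorem sep_CLS {Λ : Set ℝ} {G : Set (ℝ × ℝ)} {w : ℝ × ℝ → ℝ} {F0 ρ : ℝ}
    (hS : Sepd Λ G w F0) (hρ : 0 ≤ ρ) (hρ1 : ρ ≤ 1) (u v : ℝ × ℝ) (hu : u ∈ G) (hv : v ∈ G)
    (hwu : ρ ≤ w u) (hwv : ρ ≤ w v) (huv : u.2 ≤ v.1) : F0 * ρ ≤ v.2 - u.1 := by
  by_cases h : v.2 < u.1 + 1
  · have h1 := hS.sep u hu v hv huv h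
    have h2 : ρ ≤ Real.sqrt (w u * w v) := by
      refine Real.le_sqrt_of_sq_le ?_
      rw [sq]
      exact mul_le_mul hwu hwv hρ (hρ.trans hwu)
    exact (mul_le_mul_of_nonneg_left h2 hS.pos.le).trans h1
  · rw [not_lt] at h
    have h1 : F0 * ρ ≤ 1 := mul_le_one₀ hS.le hρ hρ1
    linarith

/-- number of gaps by left end points -/
private theorem cntL_CLS (hsep : StSEP) {Λ : Set ℝ} {G : Set (ℝ × ℝ)} {w : ℝ × ℝ → ℝ} {F0 ρ : ℝ}
    (hS : Sepd Λ G w F0) (hρ : 0 < ρ) (hρ1 : ρ ≤ 1) (x L : ℝ) (hL : 0 ≤ L)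
    (A : Finset (ℝ × ℝ)) (hA : ∀ u ∈ A, u ∈ G ∧ ρ ≤ w u ∧ x ≤ u.1 ∧ u.1 ≤ x + L) :
    (A.card : ℝ) ≤ 2 * (L / (F0 * ρ) + 1) := by
  have hinj : Set.InjOn Prod.fst (A : Set (ℝ × ℝ)) := by
    intro u hu v hv huv
    have h1 := hS.gap u (hA u hu).1
    have h2 := hS.gap v (hA v hv).1
    rw [← huv] at h2
    exact Prod.ext huv (gap_right_CLS h1 h2)
  rw [← Finset.card_image_of_injOn hinj]
  refine hsep (A.image Prod.fst) x L (F0 * ρ) (mul_pos hS.pos hρ) hL ?_ ?_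
  · intro b hb
    obtain ⟨u, hu, rfl⟩ := Finset.mem_image.1 hb
    exact ⟨(hA u hu).2.2.1, (hA u hu).2.2.2⟩
  · intro b₁ hb₁ b₂ hb₂ b₃ hb₃ h12 h23
    obtain ⟨u₁, hu₁, rfl⟩ := Finset.mem_image.1 hb₁
    obtain ⟨u₂, hu₂, rfl⟩ := Finset.mem_image.1 hb₂
    obtain ⟨u₃, hu₃, rfl⟩ := Finset.mem_image.1 hb₃
    have h1 := gap_lt_CLS (hS.gap _ (hA _ hu₁).1) (hS.gap _ (hA _ hu₂).1) h12
    have h2 := gap_lt_CLS (hS.gap _ (hA _ hu₂).1) (hS.gap _ (hA _ hu₃).1) h23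
    have h3 := sep_CLS hS hρ.le hρ1 u₁ u₂ (hA _ hu₁).1 (hA _ hu₂).1 (hA _ hu₁).2.1
      (hA _ hu₂).2.1 h1
    linarith

/-- number of gaps by right end points -/
private theorem cntR_CLS (hsep : StSEP) {Λ : Set ℝ} {G : Set (ℝ × ℝ)} {w : ℝ × ℝ → ℝ} {F0 ρ : ℝ}
    (hS : Sepd Λ G w F0) (hρ : 0 < ρ) (hρ1 : ρ ≤ 1) (x L : ℝ) (hL : 0 ≤ L)
    (A : Finset (ℝ × ℝ)) (hA : ∀ u ∈ A, u ∈ G ∧ ρ ≤ w u ∧ x ≤ u.2 ∧ u.2 ≤ x + L) :
    (A.card : ℝ) ≤ 2 * (L / (F0 * ρ) + 1) := by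
  have hinj : Set.InjOn Prod.snd (A : Set (ℝ × ℝ)) := by
    intro u hu v hv huv
    have h1 := hS.gap u (hA u hu).1
    have h2 := hS.gap v (hA v hv).1
    rw [← huv] at h2
    exact Prod.ext (gap_left_CLS h1 h2) huv
  rw [← Finset.card_image_of_injOn hinj]
  refine hsep (A.image Prod.snd) x L (F0 * ρ) (mul_pos hS.pos hρ) hL ?_ ?_
  · intro b hb
    obtain ⟨u, hu, rfl⟩ := Finset.mem_image.1 hb
    exact ⟨(hA u hu).2.2.1, (hA u hu).2.2.2⟩
  · intro b₁ hb₁ b₂ hb₂ b₃ hb₃ h12 h23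
    obtain ⟨u₁, hu₁, rfl⟩ := Finset.mem_image.1 hb₁
    obtain ⟨u₂, hu₂, rfl⟩ := Finset.mem_image.1 hb₂
    obtain ⟨u₃, hu₃, rfl⟩ := Finset.mem_image.1 hb₃
    have h1 := gap_lt2_CLS (hS.gap _ (hA _ hu₁).1) (hS.gap _ (hA _ hu₂).1) h12
    have h2 := gap_lt2_CLS (hS.gap _ (hA _ hu₂).1) (hS.gap _ (hA _ hu₃).1) h23
    have h3 := sep_CLS hS hρ.le hρ1 u₂ u₃ (hA _ hu₂).1 (hA _ hu₃).1 (hA _ hu₂).2.1
      (hA _ hu₃).2.1 h2
    linarith

/-- counting by fibres, real bounds -/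
private theorem fib_CLS {α β : Type*} [DecidableEq β] (s : Finset α) (f : α → β) (x y : ℝ)
    (hx : 0 ≤ x) (h1 : ((s.image f).card : ℝ) ≤ y)
    (h2 : ∀ b ∈ s.image f, ((s.filter (fun a => f a = b)).card : ℝ) ≤ x) :
    (s.card : ℝ) ≤ x * y := by
  have h3 := Finset.card_le_mul_card_image_of_maps_to (s := s) (t := s.image f) (f := f)
    (fun a ha => Finset.mem_image_of_mem f ha) ⌊x⌋₊
    (fun b hb => Nat.le_floor (h2 b hb))
  calc (s.card : ℝ) ≤ ((⌊x⌋₊ * (s.image f).card : ℕ) : ℝ) := by exact_mod_cast h3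
    _ = (⌊x⌋₊ : ℝ) * ((s.image f).card : ℝ) := by push_cast; ring
    _ ≤ x * y := mul_le_mul (Nat.floor_le hx) h1 (by positivity) hx

private theorem ratio_CLS (F0 : ℝ) (hF : 0 < F0) (p q : ℕ) :
    3 * (F0 * (1 / 2) ^ (p + q)) / (F0 * (1 / 4) ^ (p + 1)) = 12 * (2 ^ p / 2 ^ q) := by
  have h4 : ((1 : ℝ) / 4) ^ (p + 1) = (1 / 4) * ((1 / 2) ^ p * (1 / 2) ^ p) := by
    rw [pow_succ, ← mul_pow]; norm_num; ring
  rw [h4, pow_add, one_div_pow, one_div_pow]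
  field_simp
  ring

theorem tCLS : StSEP → StCLS := by
  intro hsep Λ G w F0 hS p q s hs
  have hF := hS.pos
  have hF1 := hS.le
  have hpos : ∀ k : ℕ, (0 : ℝ) < (1 / 4) ^ (k + 1) := fun k => by positivity
  have hle : ∀ k : ℕ, ((1 : ℝ) / 4) ^ (k + 1) ≤ 1 := fun k =>
    pow_le_one₀ (by norm_num) (by norm_num)
  have hinv : ∀ k : ℕ, (1 : ℝ) / (F0 * (1 / 4) ^ (k + 1)) = 4 * (4 ^ k / F0) := by
    intro k
    rw [one_div_pow, pow_succ]
    field_simp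
  have h4F : ∀ k : ℕ, (1 : ℝ) ≤ 4 ^ k / F0 := by
    intro k
    rw [le_div_iff₀ hF, one_mul]
    exact hF1.trans (one_le_pow₀ (by norm_num))
  have h42 : ∀ k : ℕ, (4 : ℝ) ^ k = 2 ^ k * 2 ^ k := fun k => by
    rw [← mul_pow]; norm_num
  have ht0 : 0 ≤ 3 * (F0 * (1 / 2) ^ (p + q)) := by positivity
  rcases le_or_gt q p with hqp | hpq
  · -- second gaps
    have hq2 : (1 : ℝ) ≤ 2 ^ p / 2 ^ q := by
      rw [le_div_iff₀ (by positivity), one_mul]
      exact pow_le_pow_right₀ (by norm_num) hqp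
    have h1 : ((s.image (fun P => P.2)).card : ℝ) ≤ 18 * (4 ^ q / F0) := by
      have h2 := cntL_CLS hsep hS (hpos q) (hle q) 0 2 (by norm_num) (s.image (fun P => P.2)) (by
        intro u hu
        obtain ⟨P, hP, rfl⟩ := Finset.mem_image.1 hu
        obtain ⟨_, hG, hpair, h0, h1, _, hw, _⟩ := hs P hP
        refine ⟨hG, hw, ?_, ?_⟩
        · have := hpair.1.1; have := hpair.2.2.1; linarith
        · have := hpair.2.1.1; have := hpair.2.2.2; linarith)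
      have h3 : (2 : ℝ) / (F0 * (1 / 4) ^ (q + 1)) = 8 * (4 ^ q / F0) := by
        have := hinv q
        rw [show (2 : ℝ) / (F0 * (1 / 4) ^ (q + 1)) = 2 * (1 / (F0 * (1 / 4) ^ (q + 1))) by ring,
          this]
        ring
      rw [h3] at h2
      have := h4F q
      linarith
    have h5 := fib_CLS s (fun P => P.2) (26 * (2 ^ p / 2 ^ q)) (18 * (4 ^ q / F0))
      (by positivity) h1 (by
        intro v _
        have hinj : Set.InjOn (fun P : (ℝ × ℝ) × (ℝ × ℝ) => P.1)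
            ((s.filter (fun P => P.2 = v) : Finset _) : Set ((ℝ × ℝ) × (ℝ × ℝ))) := by
          intro P hP Q hQ hPQ
          have hP2 : P.2 = v := (Finset.mem_filter.1 hP).2
          have hQ2 : Q.2 = v := (Finset.mem_filter.1 hQ).2
          exact Prod.ext hPQ (hP2.trans hQ2.symm)
        rw [← Finset.card_image_of_injOn hinj]
        have h2 := cntR_CLS hsep hS (hpos p) (hle p) (v.1 - 3 * (F0 * (1 / 2) ^ (p + q)))
          (3 * (F0 * (1 / 2) ^ (p + q))) ht0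
          ((s.filter (fun P => P.2 = v)).image (fun P => P.1)) (by
            intro u hu
            obtain ⟨P, hP, rfl⟩ := Finset.mem_image.1 hu
            obtain ⟨hPs, rfl⟩ := Finset.mem_filter.1 hP
            obtain ⟨hG, _, hpair, h0, h1, hw, _, hm⟩ := hs P hPs
            have h3 := hpair.2.2.1
            unfold mid at hm
            refine ⟨hG, hw, ?_, ?_⟩ <;> linarith)
        rw [ratio_CLS F0 hF p q] at h2
        linarith)
    refine h5.trans ?_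
    have h6 : 26 * ((2 : ℝ) ^ p / 2 ^ q) * (18 * (4 ^ q / F0)) = 468 * (2 ^ (p + q) / F0) := by
      rw [h42 q, pow_add]
      field_simp
      ring
    rw [h6]
    have : (0 : ℝ) ≤ 2 ^ (p + q) / F0 := by positivity
    linarith
  · -- first gaps
    have hq2 : (1 : ℝ) ≤ 2 ^ q / 2 ^ p := by
      rw [le_div_iff₀ (by positivity), one_mul]
      exact pow_le_pow_right₀ (by norm_num) hpq.le
    have h1 : ((s.image (fun P => P.1)).card : ℝ) ≤ 10 * (4 ^ p / F0) := by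
      have h2 := cntL_CLS hsep hS (hpos p) (hle p) 0 1 (by norm_num) (s.image (fun P => P.1)) (by
        intro u hu
        obtain ⟨P, hP, rfl⟩ := Finset.mem_image.1 hu
        obtain ⟨hG, _, hpair, h0, h1, hw, _, _⟩ := hs P hP
        refine ⟨hG, hw, h0, ?_⟩
        linarith)
      rw [hinv p] at h2
      have := h4F p
      linarith
    have h5 := fib_CLS s (fun P => P.1) (26 * (2 ^ q / 2 ^ p)) (10 * (4 ^ p / F0))
      (by positivity) h1 (by
        intro v _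
        have hinj : Set.InjOn (fun P : (ℝ × ℝ) × (ℝ × ℝ) => P.2)
            ((s.filter (fun P => P.1 = v) : Finset _) : Set ((ℝ × ℝ) × (ℝ × ℝ))) := by
          intro P hP Q hQ hPQ
          have hP2 : P.1 = v := (Finset.mem_filter.1 hP).2
          have hQ2 : Q.1 = v := (Finset.mem_filter.1 hQ).2
          exact Prod.ext (hP2.trans hQ2.symm) hPQ
        rw [← Finset.card_image_of_injOn hinj]
        have h2 := cntL_CLS hsep hS (hpos q) (hle q) v.2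
          (3 * (F0 * (1 / 2) ^ (p + q))) ht0
          ((s.filter (fun P => P.1 = v)).image (fun P => P.2)) (by
            intro u hu
            obtain ⟨P, hP, rfl⟩ := Finset.mem_image.1 hu
            obtain ⟨hPs, rfl⟩ := Finset.mem_filter.1 hP
            obtain ⟨_, hG, hpair, h0, h1, _, hw, hm⟩ := hs P hPs
            have h3 := hpair.2.2.1
            unfold mid at hm
            refine ⟨hG, hw, ?_, ?_⟩ <;> linarith)
        rw [add_comm p q, ratio_CLS F0 hF q p] at h2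
        linarith)
    refine h5.trans ?_
    have h6 : 26 * ((2 : ℝ) ^ q / 2 ^ p) * (10 * (4 ^ p / F0)) = 260 * (2 ^ (p + q) / F0) := by
      rw [h42 p, pow_add]
      field_simp
      ring
    rw [h6]
    have : (0 : ℝ) ≤ 2 ^ (p + q) / F0 := by positivity
    linarith

end Pool.Agent.Helper82.HC
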