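import Pool.Agent.Helper82.HC.St

/-! Project HC, module CTR: all translates of the extremal pair are short. -/

set_option autoImplicit false

namespace Pool.Agent.Helper82.HC

open Set Pool.Agent.Helper82.HG

private theorem T_mem_CTR {S : Set (Equiv.Perm ℝ)} (n : ℤ) : T ^ n ∈ Gr S :=
  Subgroup.zpow_mem (Gr S) (Subgroup.subset_closure (Set.mem_insert _ _)) n

private theorem T_pow_CTR (n : ℤ) (x : ℝ) : (T ^ n) x = x + n := by
  induction n using Int.induction_on generalizing x with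
  | zero => simp
  | succ k ih =>
    rw [zpow_add_one, Equiv.Perm.mul_apply, ih]
    have : T x = x + 1 := rfl
    rw [this]
    push_cast
    ring
  | pred k ih =>
    rw [zpow_sub_one, Equiv.Perm.mul_apply, ih]
    have h : T⁻¹ x = x - 1 := by
      rw [Equiv.Perm.inv_eq_iff_eq]
      show x = x - 1 + 1
      ring
    rw [h]
    push_cast
    ring

private theorem sact_mul_CTR (s g : Equiv.Perm ℝ) (u : ℝ × ℝ) :
    sact s (sact g u) = sact (s * g) u := by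
  unfold sact
  rcases le_total (g u.1) (g u.2) with h | h
  · simp [min_eq_left h, max_eq_right h, Equiv.Perm.mul_apply]
  · simp [min_eq_right h, max_eq_left h, Equiv.Perm.mul_apply, min_comm, max_comm]

private theorem nrm_eq_CTR {P : (ℝ × ℝ) × (ℝ × ℝ)} (h1 : P.1.1 < P.1.2) (h2 : P.1.2 ≤ P.2.1)
    (h3 : P.2.1 < P.2.2) : nrm P = pact (T ^ (-⌊P.1.1⌋)) P := by
  unfold nrm pact sact
  have e : ∀ x : ℝ, (T ^ (-⌊P.1.1⌋)) x = x - ⌊P.1.1⌋ := by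
    intro x
    rw [T_pow_CTR]
    push_cast
    ring
  rw [e, e, e, e, if_pos (by linarith), min_eq_left (by linarith), max_eq_right (by linarith),
    min_eq_left (by linarith), max_eq_right (by linarith)]

/-- the cross ratio -/
private noncomputable def X (Q : (ℝ × ℝ) × (ℝ × ℝ)) : ℝ :=
  mid Q * span Q / ((Q.1.2 - Q.1.1) * (Q.2.2 - Q.2.1))

private theorem X_nrm_CTR (Q : (ℝ × ℝ) × (ℝ × ℝ)) : X (nrm Q) = X Q := by
  unfold X mid span nrm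
  simp only [sub_sub_sub_cancel_right]

theorem tCTR : StBAS → StLAM → StWGT → StMIN → StEST → StSUM → StTAIL → StPTH → StACT →
    StSTP → StCTR := by
  intro hB hL hWG hM hE hS hT hP hA hG K K' om S Λ hK hLam hmod hK0 hD
  set ε : ℝ := Real.log 2 / (18000 * K' + 1) with hε
  have hlog : 0 < Real.log 2 := Real.log_pos (by norm_num)
  have hden : 0 < 18000 * K' + 1 := by positivity
  have hε0 : 0 < ε := div_pos hlog hden
  obtain ⟨δ0, hδ0, hδ1, htail⟩ := hT om hmod ε hε0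
  refine ⟨δ0 / 2, by linarith, ?_⟩
  intro P₁ hP₁ hspan hn1 hn2
  obtain ⟨l1, -, -, -, -, -, l7, -⟩ := hL K S Λ hK hLam
  have wg := hWG K S Λ hK hLam
  obtain ⟨hWu0, -, -, hWuinv, -⟩ := wg P₁.1 hP₁.1
  obtain ⟨hWv0, -, -, hWvinv, -⟩ := wg P₁.2 hP₁.2.1
  have hO : ∀ x ∈ Orb2 S P₁.1 P₁.2, Gap Λ x.1 x.2 ∧ (W S x = W S P₁.1 ∨ W S x = W S P₁.2) := by
    rintro x ⟨g, hg, rfl | rfl⟩
    · exact ⟨l7 _ _ hP₁.1 g hg, Or.inl (hWuinv g hg)⟩
    · exact ⟨l7 _ _ hP₁.2.1 g hg, Or.inr (hWvinv g hg)⟩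
  obtain ⟨F0, hF0, hsep, P, hPp, hP1, hP2, hPs, hPW⟩ := hM S Λ P₁ hP₁ hO hWu0 hWv0
  have hOW : ∀ x ∈ Orb2 S P₁.1 P₁.2, 0 < W S x := by
    intro x hx
    rcases (hO x hx).2 with h | h <;> rw [h] <;> assumption
  have hOl : ∀ x ∈ Orb2 S P₁.1 P₁.2, x.2 - x.1 ≤ W S x := fun x hx => (wg x (hO x hx).1).2.2.1
  have hO2 : ∀ x ∈ Orb2 S P₁.1 P₁.2, W S x ≤ 2 * span P₁ := by
    intro x hx
    have h1 := hP₁.1.1
    have h2 := hP₁.2.1.1
    have h3 := hP₁.2.2.1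
    unfold span
    rcases (hO x hx).2 with h | h <;> rw [h] <;> linarith
  have hOact : ∀ g ∈ Gr S, ∀ x ∈ Orb2 S P₁.1 P₁.2, sact g x ∈ Orb2 S P₁.1 P₁.2 := by
    rintro g hg x ⟨h, hh, rfl | rfl⟩
    · exact ⟨g * h, Subgroup.mul_mem _ hg hh, Or.inl (sact_mul_CTR _ _ _)⟩
    · exact ⟨g * h, Subgroup.mul_mem _ hg hh, Or.inr (sact_mul_CTR _ _ _)⟩
  have one_mem : ∀ u : ℝ × ℝ, u.1 < u.2 → sact 1 u = u := by
    intro u hu
    unfold sact
    simp [hu.le]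
  have hu : P₁.1 ∈ Orb2 S P₁.1 P₁.2 := ⟨1, Subgroup.one_mem _, Or.inl (one_mem _ hP₁.1.1).symm⟩
  have hv : P₁.2 ∈ Orb2 S P₁.1 P₁.2 := ⟨1, Subgroup.one_mem _, Or.inr (one_mem _ hP₁.2.1.1).symm⟩
  have hwt0 : ∀ x ∈ Orb2 S P₁.1 P₁.2, 0 < wt S x := fun x hx =>
    div_pos (by have := (hO x hx).1.1; linarith) (hOW x hx)
  have hwt1 : ∀ x ∈ Orb2 S P₁.1 P₁.2, wt S x ≤ 1 := fun x hx =>
    (div_le_one (hOW x hx)).mpr (hOl x hx)
  -- `F0 ≤ 2 span P₁`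
  have hF1 : F0 ≤ 2 * span P₁ := by
    have h1 : 1 / 2 ≤ wt S P₁.1 := by
      unfold wt
      rw [le_div_iff₀ hWu0]
      linarith
    have h2 : 1 / 2 ≤ wt S P₁.2 := by
      unfold wt
      rw [le_div_iff₀ hWv0]
      linarith
    have h3 : 1 / 2 ≤ Real.sqrt (wt S P₁.1 * wt S P₁.2) := by
      apply Real.le_sqrt_of_sq_le
      nlinarith
    have h4 := hsep P₁ hP₁ hu hv
    nlinarith
  have hF2 : F0 ≤ δ0 := by linarith
  obtain ⟨hsum1, hsum2⟩ := htail F0 hF0 hF2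
  have hSep : Sepd Λ (Orb2 S P₁.1 P₁.2) (wt S) F0 :=
    { pos := hF0
      le := hF2.trans hδ1
      gap := fun u hu => (hO u hu).1
      w0 := hwt0
      w1 := hwt1
      sep := fun u hu v hv h1 h2 => by
        have := hsep (u, v) ⟨(hO u hu).1, (hO v hv).1, h1, h2⟩ hu hv
        exact this }
  -- the class of pairs
  let V0 : (ℝ × ℝ) × (ℝ × ℝ) → Prop := fun Q => IsPair Λ Q ∧ Q.1 ∈ Orb2 S P₁.1 P₁.2 ∧
    Q.2 ∈ Orb2 S P₁.1 P₁.2 ∧ W S Q.1 * W S Q.2 = W S P.1 * W S P.2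
  have hV0 : ∀ g ∈ Gr S, ∀ Q, V0 Q → V0 (pact g Q) := by
    rintro g hg Q ⟨h1, h2, h3, h4⟩
    obtain ⟨a1, a2, -, -, -⟩ := hA K S Λ hK hLam g hg Q h1
    have i1 := (wg Q.1 h1.1).2.2.2.1 g hg
    have i2 := (wg Q.2 h1.2.1).2.2.2.1 g hg
    rcases a2 with ⟨e1, e2⟩ | ⟨e1, e2⟩
    · refine ⟨a1, ?_, ?_, ?_⟩
      · rw [e1]; exact hOact g hg _ h2
      · rw [e2]; exact hOact g hg _ h3
      · rw [e1, e2, i1, i2, h4]
    · refine ⟨a1, ?_, ?_, ?_⟩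
      · rw [e1]; exact hOact g hg _ h3
      · rw [e2]; exact hOact g hg _ h2
      · rw [e1, e2, i1, i2, mul_comm, h4]
  have hnrm : ∀ Q, IsPair Λ Q → nrm Q = pact (T ^ (-⌊Q.1.1⌋)) Q := fun Q hQ =>
    nrm_eq_CTR hQ.1.1 hQ.2.2.1 hQ.2.1.1
  let V : (ℝ × ℝ) × (ℝ × ℝ) → Prop := fun Q => V0 Q ∧ 0 ≤ Q.1.1 ∧ Q.1.1 < 1
  have hVn : ∀ Q, V0 Q → V (nrm Q) := by
    intro Q hQ
    refine ⟨?_, ?_, ?_⟩
    · rw [hnrm Q hQ.1]
      exact hV0 _ (T_mem_CTR _) Q hQ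
    · show 0 ≤ Q.1.1 - ⌊Q.1.1⌋
      linarith [Int.floor_le Q.1.1]
    · show Q.1.1 - ⌊Q.1.1⌋ < 1
      linarith [Int.lt_floor_add_one Q.1.1]
  have hSG : ∀ s ∈ S, s ∈ Gr S := fun s hs => Subgroup.subset_closure (Or.inr hs)
  have hVP : V0 P := ⟨hPp, hP1, hP2, rfl⟩
  -- bound of `X P`
  have hXP : X P * (W S P.1 * W S P.2) ≤ 4 * F0 ^ 2 := by
    have l1 : 0 < P.1.2 - P.1.1 := by have := hPp.1.1; linarith
    have l2 : 0 < P.2.2 - P.2.1 := by have := hPp.2.1.1; linarith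
    have w1 := hOW _ hP1
    have w2 := hOW _ hP2
    have hs : mid P ≤ span P := by unfold mid span; linarith
    have hs0 : 0 ≤ mid P := by unfold mid; have := hPp.2.2.1; linarith
    have h1 : span P ^ 2 ≤ 4 * F0 ^ 2 * (wt S P.1 * wt S P.2) := by
      have h2 := pow_le_pow_left₀ (hs0.trans hs) hPs 2
      rw [mul_pow, Real.sq_sqrt (mul_pos (hwt0 _ hP1) (hwt0 _ hP2)).le] at h2
      linarith
    have h2 : mid P * span P ≤ 4 * F0 ^ 2 * (wt S P.1 * wt S P.2) := by nlinarith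
    unfold X
    rw [div_mul_eq_mul_div, div_le_iff₀ (mul_pos l1 l2)]
    have e : wt S P.1 * wt S P.2 * (W S P.1 * W S P.2) = (P.1.2 - P.1.1) * (P.2.2 - P.2.1) := by
      unfold wt
      field_simp
    calc mid P * span P * (W S P.1 * W S P.2)
        ≤ 4 * F0 ^ 2 * (wt S P.1 * wt S P.2) * (W S P.1 * W S P.2) :=
          mul_le_mul_of_nonneg_right h2 (mul_pos w1 w2).le
      _ = 4 * F0 ^ 2 * (wt S P.1 * wt S P.2 * (W S P.1 * W S P.2)) := by ring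
      _ = _ := by rw [e]
  -- consequences of a bounded cross ratio
  have hgood : ∀ Q, V0 Q → X Q ≤ 2 * X P →
      mid Q ≤ 3 * (F0 * Real.sqrt (wt S Q.1 * wt S Q.2)) ∧
      (mid Q + min (Q.1.2 - Q.1.1) (Q.2.2 - Q.2.1)) * span Q ≤
        18 * (F0 * Real.sqrt (wt S Q.1 * wt S Q.2)) ^ 2 := by
    rintro Q ⟨h1, h2, h3, h4⟩ hX
    have l1 : 0 < Q.1.2 - Q.1.1 := by have := h1.1.1; linarith
    have l2 : 0 < Q.2.2 - Q.2.1 := by have := h1.2.1.1; linarith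
    have w1 := hOW _ h2
    have w2 := hOW _ h3
    have hww : 0 < W S Q.1 * W S Q.2 := mul_pos w1 w2
    have h5 : mid Q * span Q * (W S Q.1 * W S Q.2) ≤
        8 * F0 ^ 2 * ((Q.1.2 - Q.1.1) * (Q.2.2 - Q.2.1)) := by
      have h6 : X Q * (W S Q.1 * W S Q.2) ≤ 8 * F0 ^ 2 := by
        rw [h4] at hww ⊢
        nlinarith [mul_le_mul_of_nonneg_right hX hww.le]
      have h7 : mid Q * span Q = X Q * ((Q.1.2 - Q.1.1) * (Q.2.2 - Q.2.1)) := by
        unfold X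
        field_simp
      rw [h7]
      calc X Q * ((Q.1.2 - Q.1.1) * (Q.2.2 - Q.2.1)) * (W S Q.1 * W S Q.2)
          = X Q * (W S Q.1 * W S Q.2) * ((Q.1.2 - Q.1.1) * (Q.2.2 - Q.2.1)) := by ring
        _ ≤ _ := mul_le_mul_of_nonneg_right h6 (mul_pos l1 l2).le
    exact hE Q.1.1 Q.1.2 Q.2.1 Q.2.2 (W S Q.1) (W S Q.2) F0 h1.1.1 h1.2.2.1 h1.2.1.1 w1 w2 hF0
      (by rw [h4]; exact hPW) h5
  have hX0 : ∀ Q, IsPair Λ Q → 0 ≤ X Q := by
    intro Q hQ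
    have l1 : 0 < Q.1.2 - Q.1.1 := by have := hQ.1.1; linarith
    have l2 : 0 < Q.2.2 - Q.2.1 := by have := hQ.2.1.1; linarith
    have l3 := hQ.2.2.1
    unfold X mid span
    apply div_nonneg _ (mul_pos l1 l2).le
    apply mul_nonneg <;> linarith
  have hctl : ∀ g ∈ Gr S, X (pact g P) ≤ 2 * X P := by
    intro g hg
    have hreach := hG K S Λ hK hLam P hPp g hg
    have := hP ((ℝ × ℝ) × (ℝ × ℝ)) (Stp S) X
      (fun Q => K' * eps om Q.1.1 Q.1.2 Q.2.1 Q.2.2) V (nrm P)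
      (by rw [X_nrm_CTR]; exact hX0 P hPp) (hVn P hVP) ?_ ?_ ?_ ?_ (nrm (pact g P)) hreach
    · rwa [X_nrm_CTR, X_nrm_CTR] at this
    · rintro x y hx ⟨s, hs, rfl⟩
      exact hVn _ (hV0 s (hSG s hs) x hx.1)
    · rintro x ⟨⟨hx, -⟩, -⟩
      have l0 := hx.1.1
      have l1 := hx.2.1.1
      have l2 := hx.2.2.1
      have h1 : 0 < x.2.2 - x.1.1 := by linarith
      have h2 := hmod.lin _ h1
      have h3 : 0 ≤ min (x.1.2 - x.1.1) (x.2.2 - x.2.1) :=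
        le_min (by linarith) (by linarith)
      unfold eps
      apply mul_nonneg hK0
      apply mul_nonneg (by linarith)
      linarith
    · rintro x y ⟨⟨hx, -⟩, -⟩ ⟨s, hs, rfl⟩
      rw [X_nrm_CTR]
      obtain ⟨a1, -, a3, a4, a5⟩ := hA K S Λ hK hLam s (hSG s hs) x hx
      have l0 := hx.1.1
      have l1 := hx.2.1.1
      have l2 := hx.2.2.1
      have l3 := hx.2.2.2
      have hd := hD s hs x.1.1 x.1.2 x.2.1 x.2.2 l0 l2 l1 l3.le
      unfold X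
      rw [a3, a4, a5]
      have q1 : 0 < |s x.1.2 - s x.1.1| := abs_pos.mpr (sub_ne_zero.mpr (by
        intro h; have := s.injective h; linarith))
      have q2 : 0 < |s x.2.2 - s x.2.1| := abs_pos.mpr (sub_ne_zero.mpr (by
        intro h; have := s.injective h; linarith))
      rw [div_le_iff₀ (mul_pos q1 q2), mul_div_assoc', div_mul_eq_mul_div, le_div_iff₀ (by
        apply mul_pos <;> linarith)]
      unfold mid span
      calc |s x.2.1 - s x.1.2| * |s x.2.2 - s x.1.1| * ((x.1.2 - x.1.1) * (x.2.2 - x.2.1)) ≤ _ := hd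
        _ = _ := by ring
    · intro s hs
      have h1 := hS Λ (Orb2 S P₁.1 P₁.2) (wt S) F0 K' om hSep hmod hK0 hsum1 s (by
        intro Q hQ
        obtain ⟨⟨hQ0, q0, q1⟩, hQX⟩ := hs Q hQ
        rw [X_nrm_CTR] at hQX
        obtain ⟨g1, g2⟩ := hgood Q hQ0 hQX
        exact ⟨hQ0.2.1, hQ0.2.2.1, hQ0.1, q0, q1, g1, g2⟩)
      refine h1.trans ?_
      calc 18000 * K' * ∑' k : ℕ, ((k : ℝ) + 1) * om (F0 * (1 / 2) ^ k)
          ≤ 18000 * K' * ε := mul_le_mul_of_nonneg_left hsum2 (by positivity)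
        _ ≤ Real.log 2 := by
          rw [hε, mul_div_assoc', div_le_iff₀ hden]
          nlinarith
  refine ⟨P, hPp, ?_⟩
  intro g hg
  have hV1 := hV0 g hg P hVP
  obtain ⟨g1, -⟩ := hgood _ hV1 (hctl g hg)
  obtain ⟨h1, h2, h3, -⟩ := hV1
  have h4 : Real.sqrt (wt S (pact g P).1 * wt S (pact g P).2) ≤ 1 := by
    rw [Real.sqrt_le_one]
    nlinarith [hwt0 _ h2, hwt0 _ h3, hwt1 _ h2, hwt1 _ h3]
  have h5 : mid (pact g P) ≤ 3 * F0 := by nlinarith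
  have h6 := (hOl _ h2).trans (hO2 _ h2)
  have h7 := (hOl _ h3).trans (hO2 _ h3)
  have h8 : span (pact g P) = ((pact g P).1.2 - (pact g P).1.1) + mid (pact g P) +
      ((pact g P).2.2 - (pact g P).2.1) := by
    unfold span mid
    ring
  rw [h8]
  linarith

end Pool.Agent.Helper82.HC
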