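import Pool.Agent.Helper82.HC.St

/-!
# MP_10ef18_an, project HC, module DIS: cross ratio distortion of a `C²` function
-/

set_option autoImplicit false

namespace Pool.Agent.Helper82.HC

open Set Pool.Agent.Helper82.HG

/-- the remainder of second order at `a` -/
private noncomputable def R_DIS (f : ℝ → ℝ) (a x : ℝ) : ℝ :=
  f x - f a - deriv f a * (x - a) - deriv (deriv f) a * (x - a) ^ 2 / 2

private theorem R_self_DIS (f : ℝ → ℝ) (a : ℝ) : R_DIS f a a = 0 := by
  unfold R_DIS
  ring

private theorem R_deriv_DIS (f : ℝ → ℝ) (hf : Differentiable ℝ f) (a x : ℝ) :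
    HasDerivAt (R_DIS f a) (deriv f x - deriv f a - deriv (deriv f) a * (x - a)) x := by
  have h1 : HasDerivAt f (deriv f x) x := (hf x).hasDerivAt
  have h2 : HasDerivAt (fun y : ℝ => y - a) 1 x := (hasDerivAt_id x).sub_const a
  have h3 : HasDerivAt (fun y : ℝ => (y - a) ^ 2) (2 * (x - a)) x := by
    have h := h2.pow 2
    have e : ((2 : ℕ) : ℝ) * (x - a) ^ (2 - 1) * 1 = 2 * (x - a) := by norm_num
    rw [e] at h
    exact h
  have h4 := ((h1.sub_const (f a)).sub (h2.const_mul (deriv f a))).sub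
    ((h3.const_mul (deriv (deriv f) a)).div_const 2)
  have e : deriv f x - deriv f a * 1 - deriv (deriv f) a * (2 * (x - a)) / 2 =
      deriv f x - deriv f a - deriv (deriv f) a * (x - a) := by ring
  rw [e] at h4
  exact h4

private theorem R_bound_DIS (f om : ℝ → ℝ) (hf : Differentiable ℝ f)
    (hf2 : Differentiable ℝ (deriv f)) (hlin : ∀ t, 0 < t → t ≤ om t)
    (hmono : ∀ s t, 0 < s → s ≤ t → om s ≤ om t)
    (hom : ∀ x y, x ≠ y → |deriv (deriv f) x - deriv (deriv f) y| ≤ om |x - y|)
    (a r : ℝ) (hr : 0 < r) (x y : ℝ) (hx : |x - a| ≤ r) (hy : |y - a| ≤ r) :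
    |R_DIS f a y - R_DIS f a x| ≤ r * om r * |y - x| := by
  have hpos : 0 < om r := lt_of_lt_of_le hr (hlin r hr)
  have hbd : ∀ z, |z - a| ≤ r →
      |deriv f z - deriv f a - deriv (deriv f) a * (z - a)| ≤ r * om r := by
    intro z hz
    by_cases hza : z = a
    · subst hza
      have e : deriv f z - deriv f z - deriv (deriv f) z * (z - z) = 0 := by ring
      rw [e, abs_zero]
      positivity
    · have key : ∃ ξ, |ξ - a| ≤ |z - a| ∧ ξ ≠ a ∧
          deriv f z - deriv f a = deriv (deriv f) ξ * (z - a) := by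
        rcases lt_or_gt_of_ne hza with h | h
        · obtain ⟨ξ, hξ, he⟩ := exists_deriv_eq_slope (deriv f) h
            hf2.continuous.continuousOn hf2.differentiableOn
          refine ⟨ξ, ?_, hξ.2.ne, ?_⟩
          · rw [abs_of_neg (by linarith [hξ.2]), abs_of_neg (by linarith)]
            linarith [hξ.1]
          · have h0 : a - z ≠ 0 := by linarith
            rw [he]
            field_simp
            ring
        · obtain ⟨ξ, hξ, he⟩ := exists_deriv_eq_slope (deriv f) h
            hf2.continuous.continuousOn hf2.differentiableOn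
          refine ⟨ξ, ?_, hξ.1.ne', ?_⟩
          · rw [abs_of_pos (by linarith [hξ.1]), abs_of_pos (by linarith)]
            linarith [hξ.2]
          · have h0 : z - a ≠ 0 := by linarith
            rw [he]
            field_simp
      obtain ⟨ξ, h1, h2, h3⟩ := key
      have e : deriv f z - deriv f a - deriv (deriv f) a * (z - a) =
          (deriv (deriv f) ξ - deriv (deriv f) a) * (z - a) := by
        rw [h3]
        ring
      rw [e, abs_mul]
      have h4 : |deriv (deriv f) ξ - deriv (deriv f) a| ≤ om r := by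
        refine (hom ξ a h2).trans (hmono _ _ (abs_pos.2 (sub_ne_zero.2 h2)) (h1.trans hz))
      calc |deriv (deriv f) ξ - deriv (deriv f) a| * |z - a| ≤ om r * r :=
            mul_le_mul h4 hz (abs_nonneg _) hpos.le
        _ = r * om r := mul_comm _ _
  have hmem : ∀ z, |z - a| ≤ r → z ∈ Icc (a - r) (a + r) := by
    intro z hz
    rw [abs_le] at hz
    exact ⟨by linarith [hz.1], by linarith [hz.2]⟩
  have h := Convex.norm_image_sub_le_of_norm_hasDerivWithin_le (f := R_DIS f a)
    (f' := fun z => deriv f z - deriv f a - deriv (deriv f) a * (z - a)) (C := r * om r)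
    (s := Icc (a - r) (a + r)) (x := x) (y := y)
    (fun z _ => (R_deriv_DIS f hf a z).hasDerivWithinAt)
    (fun z hz => by
      rw [Real.norm_eq_abs]
      refine hbd z ?_
      rw [abs_le]
      exact ⟨by linarith [hz.1], by linarith [hz.2]⟩)
    (convex_Icc _ _) (hmem x hx) (hmem y hy)
  rw [Real.norm_eq_abs, Real.norm_eq_abs] at h
  exact h

private theorem slope_DIS (f : ℝ → ℝ) (m M : ℝ) (hf : Differentiable ℝ f)
    (h1 : ∀ x, m ≤ deriv f x) (h2 : ∀ x, deriv f x ≤ M) (x y : ℝ) (hxy : x < y) :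
    ∃ s ξ : ℝ, f y - f x = s * (y - x) ∧ m ≤ s ∧ s ≤ M ∧ x < ξ ∧ ξ < y ∧ s = deriv f ξ := by
  obtain ⟨ξ, hξ, he⟩ := exists_deriv_eq_slope f hxy hf.continuous.continuousOn
    hf.differentiableOn
  refine ⟨deriv f ξ, ξ, ?_, h1 ξ, h2 ξ, hξ.1, hξ.2, rfl⟩
  have h0 : y - x ≠ 0 := by linarith
  rw [he]
  field_simp

/-- the main estimate: slopes -/
private theorem main_DIS (f om : ℝ → ℝ) (m M : ℝ) (hf : Differentiable ℝ f)
    (hf2 : Differentiable ℝ (deriv f)) (hm : 0 < m)
    (h1 : ∀ x, m ≤ deriv f x) (h2 : ∀ x, deriv f x ≤ M) (h3 : ∀ x, |deriv (deriv f) x| ≤ M)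
    (hlin : ∀ t, 0 < t → t ≤ om t)
    (hmono : ∀ s t, 0 < s → s ≤ t → om s ≤ om t)
    (hom : ∀ x y, x ≠ y → |deriv (deriv f) x - deriv (deriv f) y| ≤ om |x - y|)
    (c a b d : ℝ) (hca : c < a) (hab : a < b) (hbd : b < d) (_hmin : d - b ≤ a - c) :
    ∃ sab scd sca sbd : ℝ, f b - f a = sab * (b - a) ∧ f d - f c = scd * (d - c) ∧
      f a - f c = sca * (a - c) ∧ f d - f b = sbd * (d - b) ∧ m ≤ sab ∧ m ≤ scd ∧ m ≤ sca ∧
      m ≤ sbd ∧ |sab * scd - sca * sbd| ≤ (M ^ 2 / 2 + 4 * M) * (om (d - c) * (d - a)) := by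
  obtain ⟨sab, ξab, eab, lab, uab, x1, x2, x3⟩ := slope_DIS f m M hf h1 h2 a b hab
  obtain ⟨scd, ξcd, ecd, lcd, ucd, _, _, _⟩ := slope_DIS f m M hf h1 h2 c d (by linarith)
  obtain ⟨sca, ξca, eca, lca, uca, y1, y2, y3⟩ := slope_DIS f m M hf h1 h2 c a hca
  obtain ⟨sbd, ξbd, ebd, lbd, ubd, _, _, _⟩ := slope_DIS f m M hf h1 h2 b d hbd
  refine ⟨sab, scd, sca, sbd, eab, ecd, eca, ebd, lab, lcd, lca, lbd, ?_⟩
  have hM : 0 < M := lt_of_lt_of_le hm (lab.trans uab)
  set A := a - c with hA
  set B := b - a with hB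
  set D := d - b with hD
  set l := d - a with hl
  set t := d - c with ht
  have hA0 : 0 < A := by rw [hA]; linarith
  have hB0 : 0 < B := by rw [hB]; linarith
  have hD0 : 0 < D := by rw [hD]; linarith
  have hl0 : 0 < l := by rw [hl]; linarith
  have ht0 : 0 < t := by rw [ht]; linarith
  have hlBD : l = B + D := by rw [hl, hB, hD]; ring
  have htA : t = A + l := by rw [ht, hA, hl]; ring
  have hlt : l ≤ t := by linarith
  have hAt : A ≤ t := by linarith
  have hBl : B ≤ l := by linarith
  have hot : 0 < om t := lt_of_lt_of_le ht0 (hlin t ht0)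
  have holt : om l ≤ om t := hmono l t hl0 hlt
  have hoAt : om A ≤ om t := hmono A t hA0 hAt
  have hoBt : om B ≤ om t := hmono B t hB0 (by linarith)
  have hol0 : 0 < om l := lt_of_lt_of_le hl0 (hlin l hl0)
  have hoA0 : 0 < om A := lt_of_lt_of_le hA0 (hlin A hA0)
  have hoB0 : 0 < om B := lt_of_lt_of_le hB0 (hlin B hB0)
  have hR := R_bound_DIS f om hf hf2 hlin hmono hom a
  -- bounds on the remainder
  have rb : |R_DIS f a b| ≤ B * om B * B := by
    have h := hR B hB0 a b (by rw [sub_self, abs_zero]; exact hB0.le)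
      (by rw [← hB, abs_of_pos hB0])
    rw [R_self_DIS, sub_zero, ← hB, abs_of_pos hB0] at h
    exact h
  have rd : |R_DIS f a d| ≤ l * om l * l := by
    have h := hR l hl0 a d (by rw [sub_self, abs_zero]; exact hl0.le)
      (by rw [← hl, abs_of_pos hl0])
    rw [R_self_DIS, sub_zero, ← hl, abs_of_pos hl0] at h
    exact h
  have rbd : |R_DIS f a d - R_DIS f a b| ≤ l * om l * D := by
    have h := hR l hl0 b d (by rw [← hB, abs_of_pos hB0]; exact hBl)
      (by rw [← hl, abs_of_pos hl0])
    rw [← hD, abs_of_pos hD0] at h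
    exact h
  have rc : |R_DIS f a c| ≤ A * om A * A := by
    have hc : |c - a| = A := by rw [abs_sub_comm, ← hA, abs_of_pos hA0]
    have h := hR A hA0 a c (by rw [sub_self, abs_zero]; exact hA0.le) (by rw [hc])
    rw [R_self_DIS, sub_zero, hc] at h
    exact h
  -- the expansions
  have Eb : f b - f a = deriv f a * B + deriv (deriv f) a * B ^ 2 / 2 + R_DIS f a b := by
    unfold R_DIS; rw [hB]; ring
  have Ed : f d - f a = deriv f a * l + deriv (deriv f) a * l ^ 2 / 2 + R_DIS f a d := by
    unfold R_DIS; rw [hl]; ring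
  have Ec : f c - f a = -(deriv f a * A) + deriv (deriv f) a * A ^ 2 / 2 + R_DIS f a c := by
    unfold R_DIS; rw [hA]; ring
  set p := deriv f a with hp
  set q := deriv (deriv f) a with hq
  have hq1 : |q| ≤ M := h3 a
  -- slope differences
  have E1 : scd - sca = q * l / 2 + (R_DIS f a d / t + R_DIS f a c * l / (t * A)) := by
    have e1 : scd = (p * t + q * (l ^ 2 - A ^ 2) / 2 + R_DIS f a d - R_DIS f a c) / t := by
      rw [eq_div_iff ht0.ne', ← ecd]
      have : f d - f c = (f d - f a) - (f c - f a) := by ring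
      rw [this, Ed, Ec, htA]; ring
    have e2 : sca = (p * A - q * A ^ 2 / 2 - R_DIS f a c) / A := by
      rw [eq_div_iff hA0.ne', ← eca]
      have : f a - f c = -(f c - f a) := by ring
      rw [this, Ec]; ring
    rw [e1, e2]
    have : t ≠ 0 := ht0.ne'
    have : A ≠ 0 := hA0.ne'
    field_simp
    rw [htA]
    ring
  have E2 : sbd - sab = q * l / 2 + ((R_DIS f a d - R_DIS f a b) / D - R_DIS f a b / B) := by
    have e1 : sbd = (p * D + q * (l ^ 2 - B ^ 2) / 2 + (R_DIS f a d - R_DIS f a b)) / D := by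
      rw [eq_div_iff hD0.ne', ← ebd]
      have : f d - f b = (f d - f a) - (f b - f a) := by ring
      rw [this, Ed, Eb, hlBD]; ring
    have e2 : sab = (p * B + q * B ^ 2 / 2 + R_DIS f a b) / B := by
      rw [eq_div_iff hB0.ne', ← eab, Eb]
    rw [e1, e2]
    have : D ≠ 0 := hD0.ne'
    have : B ≠ 0 := hB0.ne'
    field_simp
    rw [hlBD]
    ring
  have b1 : |R_DIS f a d / t + R_DIS f a c * l / (t * A)| ≤ 2 * (l * om t) := by
    have h4 : |R_DIS f a d / t| ≤ l * om t := by
      rw [abs_div, abs_of_pos ht0, div_le_iff₀ ht0]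
      calc |R_DIS f a d| ≤ l * om l * l := rd
        _ ≤ l * om t * t := by
            refine mul_le_mul (mul_le_mul_of_nonneg_left holt hl0.le) hlt hl0.le ?_
            positivity
    have h5 : |R_DIS f a c * l / (t * A)| ≤ l * om t := by
      rw [abs_div, abs_of_pos (mul_pos ht0 hA0), div_le_iff₀ (mul_pos ht0 hA0), abs_mul,
        abs_of_pos hl0]
      calc |R_DIS f a c| * l ≤ A * om A * A * l := mul_le_mul_of_nonneg_right rc hl0.le
        _ ≤ t * om t * A * l := by
            refine mul_le_mul_of_nonneg_right ?_ hl0.le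
            refine mul_le_mul_of_nonneg_right ?_ hA0.le
            exact mul_le_mul hAt hoAt hoA0.le ht0.le
        _ = l * om t * (t * A) := by ring
    calc _ ≤ |R_DIS f a d / t| + |R_DIS f a c * l / (t * A)| := abs_add_le _ _
      _ ≤ 2 * (l * om t) := by linarith
  have b2 : |(R_DIS f a d - R_DIS f a b) / D - R_DIS f a b / B| ≤ 2 * (l * om t) := by
    have h4 : |(R_DIS f a d - R_DIS f a b) / D| ≤ l * om t := by
      rw [abs_div, abs_of_pos hD0, div_le_iff₀ hD0]
      calc |R_DIS f a d - R_DIS f a b| ≤ l * om l * D := rbd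
        _ ≤ l * om t * D := by
            refine mul_le_mul_of_nonneg_right (mul_le_mul_of_nonneg_left holt hl0.le) hD0.le
    have h5 : |R_DIS f a b / B| ≤ l * om t := by
      rw [abs_div, abs_of_pos hB0, div_le_iff₀ hB0]
      calc |R_DIS f a b| ≤ B * om B * B := rb
        _ ≤ l * om t * B := by
            refine mul_le_mul_of_nonneg_right ?_ hB0.le
            exact mul_le_mul hBl hoBt hoB0.le hl0.le
    calc _ ≤ |(R_DIS f a d - R_DIS f a b) / D| + |R_DIS f a b / B| := abs_sub _ _
      _ ≤ 2 * (l * om t) := by linarith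
  have b3 : |sab - sca| ≤ M * t := by
    have h := Convex.norm_image_sub_le_of_norm_deriv_le (f := deriv f) (C := M) (s := univ)
      (x := ξca) (y := ξab) (fun z _ => hf2 z) (fun z _ => by
        rw [Real.norm_eq_abs]; exact h3 z) convex_univ (mem_univ _) (mem_univ _)
    rw [Real.norm_eq_abs, Real.norm_eq_abs, ← x3, ← y3] at h
    refine h.trans (mul_le_mul_of_nonneg_left ?_ hM.le)
    rw [abs_of_pos (by linarith)]
    rw [ht]
    linarith
  set e1 := R_DIS f a d / t + R_DIS f a c * l / (t * A) with he1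
  set e2 := (R_DIS f a d - R_DIS f a b) / D - R_DIS f a b / B with he2
  have E3 : sab * scd - sca * sbd = q * l / 2 * (sab - sca) + (sab * e1 - sca * e2) := by
    have i1 : scd = sca + (q * l / 2 + e1) := by linarith
    have i2 : sbd = sab + (q * l / 2 + e2) := by linarith
    rw [i1, i2]
    ring
  rw [E3]
  have c1 : |q * l / 2 * (sab - sca)| ≤ M * l / 2 * (M * t) := by
    rw [abs_mul]
    refine mul_le_mul ?_ b3 (abs_nonneg _) (by positivity)
    rw [abs_div, abs_mul, abs_of_pos hl0, abs_of_pos (by norm_num : (0 : ℝ) < 2)]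
    refine div_le_div_of_nonneg_right ?_ (by norm_num)
    exact mul_le_mul_of_nonneg_right hq1 hl0.le
  have c2 : |sab * e1| ≤ M * (2 * (l * om t)) := by
    rw [abs_mul, abs_of_pos (lt_of_lt_of_le hm lab)]
    exact mul_le_mul uab b1 (abs_nonneg _) hM.le
  have c3 : |sca * e2| ≤ M * (2 * (l * om t)) := by
    rw [abs_mul, abs_of_pos (lt_of_lt_of_le hm lca)]
    exact mul_le_mul uca b2 (abs_nonneg _) hM.le
  have c4 : |sab * e1 - sca * e2| ≤ |sab * e1| + |sca * e2| := abs_sub _ _
  have c5 : |q * l / 2 * (sab - sca) + (sab * e1 - sca * e2)| ≤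
      |q * l / 2 * (sab - sca)| + |sab * e1 - sca * e2| := abs_add_le _ _
  have c6 : M * l / 2 * (M * t) ≤ M * l / 2 * (M * om t) := by
    refine mul_le_mul_of_nonneg_left ?_ (by positivity)
    exact mul_le_mul_of_nonneg_left (hlin t ht0) hM.le
  calc _ ≤ M * l / 2 * (M * om t) + (M * (2 * (l * om t)) + M * (2 * (l * om t))) := by linarith
    _ = (M ^ 2 / 2 + 4 * M) * (om t * l) := by ring

/-- the two inequalities from the estimate of the slopes -/
private theorem exp_DIS (C m e X Y : ℝ) (hm : 0 < m) (hC : 0 ≤ C) (he : 0 ≤ e)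
    (hY : m ^ 2 ≤ Y) (h : |X - Y| ≤ C * e) : X ≤ Real.exp (C / m ^ 2 * e) * Y := by
  have h1 : X ≤ Y + C * e := by
    have := (abs_le.1 h).2
    linarith
  have hm2 : 0 < m ^ 2 := by positivity
  have h2 : C * e ≤ C / m ^ 2 * e * Y := by
    have h3 : C * e = C / m ^ 2 * e * m ^ 2 := by
      field_simp
    rw [h3]
    exact mul_le_mul_of_nonneg_left hY (by positivity)
  have h4 : C / m ^ 2 * e + 1 ≤ Real.exp (C / m ^ 2 * e) := Real.add_one_le_exp _
  have hY0 : 0 ≤ Y := hm2.le.trans hY
  calc X ≤ Y + C / m ^ 2 * e * Y := by linarith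
    _ = (C / m ^ 2 * e + 1) * Y := by ring
    _ ≤ Real.exp (C / m ^ 2 * e) * Y := mul_le_mul_of_nonneg_right h4 hY0

private theorem case_DIS (f om : ℝ → ℝ) (m M : ℝ) (hf : Differentiable ℝ f)
    (hf2 : Differentiable ℝ (deriv f)) (hm : 0 < m)
    (h1 : ∀ x, m ≤ deriv f x) (h2 : ∀ x, deriv f x ≤ M) (h3 : ∀ x, |deriv (deriv f) x| ≤ M)
    (hlin : ∀ t, 0 < t → t ≤ om t)
    (hmono : ∀ s t, 0 < s → s ≤ t → om s ≤ om t)
    (hom : ∀ x y, x ≠ y → |deriv (deriv f) x - deriv (deriv f) y| ≤ om |x - y|)
    (c a b d : ℝ) (hca : c < a) (hab : a < b) (hbd : b < d) (hmin : d - b ≤ a - c) :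
    |f b - f a| * |f d - f c| * ((a - c) * (d - b)) ≤
      Real.exp ((M ^ 2 / 2 + 4 * M) / m ^ 2 * eps om c a b d) *
        (|f a - f c| * |f d - f b| * ((b - a) * (d - c))) ∧
    |f a - f c| * |f d - f b| * ((b - a) * (d - c)) ≤
      Real.exp ((M ^ 2 / 2 + 4 * M) / m ^ 2 * eps om c a b d) *
        (|f b - f a| * |f d - f c| * ((a - c) * (d - b))) := by
  obtain ⟨sab, scd, sca, sbd, eab, ecd, eca, ebd, lab, lcd, lca, lbd, hh⟩ :=
    main_DIS f om m M hf hf2 hm h1 h2 h3 hlin hmono hom c a b d hca hab hbd hmin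
  have he : eps om c a b d = om (d - c) * (d - a) := by
    unfold eps
    rw [min_eq_right hmin]
    ring
  have hM : 0 < M := lt_of_lt_of_le hm ((h1 0).trans (h2 0))
  have hA0 : 0 < a - c := by linarith
  have hB0 : 0 < b - a := by linarith
  have hD0 : 0 < d - b := by linarith
  have ht0 : 0 < d - c := by linarith
  have hl0 : 0 < d - a := by linarith
  have hot : 0 < om (d - c) := lt_of_lt_of_le ht0 (hlin _ ht0)
  have p1 : 0 < sab := lt_of_lt_of_le hm lab
  have p2 : 0 < scd := lt_of_lt_of_le hm lcd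
  have p3 : 0 < sca := lt_of_lt_of_le hm lca
  have p4 : 0 < sbd := lt_of_lt_of_le hm lbd
  have q1 : m ^ 2 ≤ sab * scd := by
    rw [sq]
    exact mul_le_mul lab lcd hm.le p1.le
  have q2 : m ^ 2 ≤ sca * sbd := by
    rw [sq]
    exact mul_le_mul lca lbd hm.le p3.le
  have hC : 0 ≤ M ^ 2 / 2 + 4 * M := by positivity
  have hE : 0 ≤ om (d - c) * (d - a) := by positivity
  have r1 := exp_DIS (M ^ 2 / 2 + 4 * M) m (om (d - c) * (d - a)) (sab * scd) (sca * sbd) hm hC
    hE q2 hh
  have r2 := exp_DIS (M ^ 2 / 2 + 4 * M) m (om (d - c) * (d - a)) (sca * sbd) (sab * scd) hm hC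
    hE q1 (by rw [abs_sub_comm]; exact hh)
  rw [he, eab, ecd, eca, ebd, abs_of_pos (mul_pos p1 hB0), abs_of_pos (mul_pos p2 ht0),
    abs_of_pos (mul_pos p3 hA0), abs_of_pos (mul_pos p4 hD0)]
  set E := Real.exp ((M ^ 2 / 2 + 4 * M) / m ^ 2 * (om (d - c) * (d - a))) with hEdef
  have hP : 0 ≤ (b - a) * (d - c) * ((a - c) * (d - b)) := by positivity
  constructor
  · calc sab * (b - a) * (scd * (d - c)) * ((a - c) * (d - b))
        = sab * scd * ((b - a) * (d - c) * ((a - c) * (d - b))) := by ring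
      _ ≤ E * (sca * sbd) * ((b - a) * (d - c) * ((a - c) * (d - b))) :=
          mul_le_mul_of_nonneg_right r1 hP
      _ = E * (sca * (a - c) * (sbd * (d - b)) * ((b - a) * (d - c))) := by ring
  · calc sca * (a - c) * (sbd * (d - b)) * ((b - a) * (d - c))
        = sca * sbd * ((b - a) * (d - c) * ((a - c) * (d - b))) := by ring
      _ ≤ E * (sab * scd) * ((b - a) * (d - c) * ((a - c) * (d - b))) :=
          mul_le_mul_of_nonneg_right r2 hP
      _ = E * (sab * (b - a) * (scd * (d - c)) * ((a - c) * (d - b))) := by ring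

private theorem refl_deriv_DIS (f : ℝ → ℝ) (hf : Differentiable ℝ f) (x : ℝ) :
    HasDerivAt (fun y => -f (-y)) (deriv f (-x)) x := by
  have h1 : HasDerivAt f (deriv f (-x)) (-x) := (hf (-x)).hasDerivAt
  have h2 := (HasDerivAt.scomp x h1 (hasDerivAt_neg x)).neg
  have e : -((-1 : ℝ) • deriv f (-x)) = deriv f (-x) := by
    rw [smul_eq_mul]; ring
  rw [e] at h2
  exact h2

private theorem refl_deriv2_DIS (g : ℝ → ℝ) (hg : Differentiable ℝ g) (x : ℝ) :
    HasDerivAt (fun y => g (-y)) (-deriv g (-x)) x := by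
  have h1 : HasDerivAt g (deriv g (-x)) (-x) := (hg (-x)).hasDerivAt
  have h2 := HasDerivAt.scomp x h1 (hasDerivAt_neg x)
  have e : (-1 : ℝ) • deriv g (-x) = -deriv g (-x) := by
    rw [smul_eq_mul]; ring
  rw [e] at h2
  exact h2

/-- increasing functions -/
private theorem pos_DIS (f om : ℝ → ℝ) (m M : ℝ) (hf : Differentiable ℝ f)
    (hf2 : Differentiable ℝ (deriv f)) (hm : 0 < m)
    (h1 : ∀ x, m ≤ deriv f x) (h2 : ∀ x, deriv f x ≤ M) (h3 : ∀ x, |deriv (deriv f) x| ≤ M)
    (hlin : ∀ t, 0 < t → t ≤ om t)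
    (hmono : ∀ s t, 0 < s → s ≤ t → om s ≤ om t)
    (hom : ∀ x y, x ≠ y → |deriv (deriv f) x - deriv (deriv f) y| ≤ om |x - y|) :
    Dist ((M ^ 2 / 2 + 4 * M) / m ^ 2) om f ∧ DistR ((M ^ 2 / 2 + 4 * M) / m ^ 2) om f := by
  have key : ∀ c a b d : ℝ, c < a → a < b → b < d →
      |f b - f a| * |f d - f c| * ((a - c) * (d - b)) ≤
      Real.exp ((M ^ 2 / 2 + 4 * M) / m ^ 2 * eps om c a b d) *
        (|f a - f c| * |f d - f b| * ((b - a) * (d - c))) ∧
    |f a - f c| * |f d - f b| * ((b - a) * (d - c)) ≤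
      Real.exp ((M ^ 2 / 2 + 4 * M) / m ^ 2 * eps om c a b d) *
        (|f b - f a| * |f d - f c| * ((a - c) * (d - b))) := by
    intro c a b d hca hab hbd
    by_cases hmin : d - b ≤ a - c
    · exact case_DIS f om m M hf hf2 hm h1 h2 h3 hlin hmono hom c a b d hca hab hbd hmin
    · push Not at hmin
      have hg : Differentiable ℝ (fun y => -f (-y)) := fun x =>
        (refl_deriv_DIS f hf x).differentiableAt
      have hg' : deriv (fun y => -f (-y)) = fun x => deriv f (-x) := by
        funext x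
        exact (refl_deriv_DIS f hf x).deriv
      have hg'' : deriv (deriv (fun y => -f (-y))) = fun x => -deriv (deriv f) (-x) := by
        rw [hg']
        funext x
        exact (refl_deriv2_DIS (deriv f) hf2 x).deriv
      have hg2 : Differentiable ℝ (deriv (fun y => -f (-y))) := by
        rw [hg']
        exact fun x => (refl_deriv2_DIS (deriv f) hf2 x).differentiableAt
      have h := case_DIS (fun y => -f (-y)) om m M hg hg2 hm
        (by rw [hg']; exact fun x => h1 (-x)) (by rw [hg']; exact fun x => h2 (-x))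
        (by
          rw [hg'']
          intro x
          rw [abs_neg]
          exact h3 (-x)) hlin hmono
        (by
          rw [hg'']
          intro x y hxy
          have h5 := hom (-y) (-x) (fun h => hxy (neg_injective h).symm)
          have e1 : -deriv (deriv f) (-x) - -deriv (deriv f) (-y) =
            deriv (deriv f) (-y) - deriv (deriv f) (-x) := by ring
          have e2 : -y - -x = x - y := by ring
          rw [e2] at h5
          show |-deriv (deriv f) (-x) - -deriv (deriv f) (-y)| ≤ om |x - y|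
          rw [e1]
          exact h5)
        (-d) (-b) (-a) (-c) (by linarith) (by linarith) (by linarith) (by linarith)
      have e0 : eps om (-d) (-b) (-a) (-c) = eps om c a b d := by
        unfold eps
        have i1 : -c - -d = d - c := by ring
        have i2 : -a - -b = b - a := by ring
        have i3 : -b - -d = d - b := by ring
        have i4 : -c - -a = a - c := by ring
        rw [i1, i2, i3, i4, min_comm]
      simp only [neg_neg] at h
      rw [e0] at h
      have j1 : -f a - -f b = f b - f a := by ring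
      have j2 : -f c - -f d = f d - f c := by ring
      have j3 : -f b - -f d = f d - f b := by ring
      have j4 : -f c - -f a = f a - f c := by ring
      have k1 : (-b - -d) * (-c - -a) = (a - c) * (d - b) := by ring
      have k2 : (-a - -b) * (-c - -d) = (b - a) * (d - c) := by ring
      rw [j1, j2, j3, j4, k1, k2] at h
      have l1 : |f d - f b| * |f a - f c| = |f a - f c| * |f d - f b| := mul_comm _ _
      rw [l1] at h
      exact h
  have zer : ∀ c a b d : ℝ, a = b →
      |f b - f a| * |f d - f c| * ((a - c) * (d - b)) = 0 ∧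
      |f a - f c| * |f d - f b| * ((b - a) * (d - c)) = 0 := by
    intro c a b d hab
    subst hab
    constructor
    · rw [sub_self, abs_zero, zero_mul, zero_mul]
    · rw [sub_self, zero_mul, mul_zero]
  constructor
  · intro c a b d hca hab hbd _
    rcases eq_or_lt_of_le hab with h | h
    · rw [(zer c a b d h).1, (zer c a b d h).2, mul_zero]
    · exact (key c a b d hca h hbd).1
  · intro c a b d hca hab hbd _
    rcases eq_or_lt_of_le hab with h | h
    · rw [(zer c a b d h).1, (zer c a b d h).2, mul_zero]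
    · exact (key c a b d hca h hbd).2

theorem tDIS : StDIS := by
  intro f om m M hf hf2 hm h1 h2 h3 hlin hmono hom
  have hcont : Continuous (deriv f) := hf2.continuous
  have hM : 0 < M := lt_of_lt_of_le hm ((h1 0).trans (h2 0))
  refine ⟨(M ^ 2 / 2 + 4 * M) / m ^ 2, by positivity, ?_⟩
  have hsign : (∀ x, m ≤ deriv f x) ∨ (∀ x, deriv f x ≤ -m) := by
    by_contra hcon
    rw [not_or] at hcon
    push Not at hcon
    obtain ⟨⟨x, hx⟩, ⟨y, hy⟩⟩ := hcon
    have hx' : deriv f x ≤ -m := by
      have := h1 x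
      rcases le_abs.1 this with h | h
      · linarith
      · linarith
    have hy' : m ≤ deriv f y := by
      have := h1 y
      rcases le_abs.1 this with h | h
      · exact h
      · linarith
    have h0 : (0 : ℝ) ∈ Icc (deriv f x) (deriv f y) := ⟨by linarith, by linarith⟩
    obtain ⟨z, hz⟩ := mem_range_of_exists_le_of_exists_ge hcont ⟨x, h0.1⟩ ⟨y, h0.2⟩
    have := h1 z
    rw [hz, abs_zero] at this
    linarith
  rcases hsign with hs | hs
  · exact pos_DIS f om m M hf hf2 hm hs (fun x => (le_abs_self _).trans (h2 x)) h3 hlin hmono hom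
  · have hg' : deriv (fun y => -f y) = fun x => -deriv f x := by
      funext x
      exact (hf x).hasDerivAt.neg.deriv
    have hg'' : deriv (deriv (fun y => -f y)) = fun x => -deriv (deriv f) x := by
      rw [hg']
      funext x
      exact (hf2 x).hasDerivAt.neg.deriv
    have h := pos_DIS (fun y => -f y) om m M hf.neg (by rw [hg']; exact hf2.neg) hm
      (by rw [hg']; intro x; linarith [hs x])
      (by rw [hg']; intro x; exact (neg_le_abs _).trans (h2 x))
      (by rw [hg'']; intro x; rw [abs_neg]; exact h3 x) hlin hmono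
      (by
        rw [hg'']
        intro x y hxy
        have e1 : -deriv (deriv f) x - -deriv (deriv f) y =
          -(deriv (deriv f) x - deriv (deriv f) y) := by ring
        show |-deriv (deriv f) x - -deriv (deriv f) y| ≤ om |x - y|
        rw [e1, abs_neg]
        exact hom x y hxy)
    have e : ∀ x y, |-f x - -f y| = |f x - f y| := by
      intro x y
      have e1 : -f x - -f y = -(f x - f y) := by ring
      rw [e1, abs_neg]
    unfold Dist DistR at h
    simp only [e] at h
    exact h

end Pool.Agent.Helper82.HC
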