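import Pool.Agent.Helper82.HC.St

/-! Project HC, module EST: real inequalities. -/

set_option autoImplicit false

namespace Pool.Agent.Helper82.HC

open Set Pool.Agent.Helper82.HG

theorem tEST : StEST := by
  intro c a b d W₁ W₂ F0 hca hab hbd hW1 hW2 hF0 hWW hX
  have hp : 0 < (a - c) / W₁ * ((d - b) / W₂) := mul_pos (div_pos (by linarith) hW1)
    (div_pos (by linarith) hW2)
  set t := F0 * Real.sqrt ((a - c) / W₁ * ((d - b) / W₂)) with ht
  have ht0 : 0 < t := mul_pos hF0 (Real.sqrt_pos.mpr hp)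
  have ht2 : t ^ 2 * (W₁ * W₂) = F0 ^ 2 * ((a - c) * (d - b)) := by
    rw [ht, mul_pow, Real.sq_sqrt hp.le]
    field_simp
  have hWp : 0 < W₁ * W₂ := mul_pos hW1 hW2
  have h1 : (b - a) * (d - c) ≤ 8 * t ^ 2 := by
    have : (b - a) * (d - c) * (W₁ * W₂) ≤ 8 * t ^ 2 * (W₁ * W₂) := by
      calc _ ≤ _ := hX
        _ = 8 * (F0 ^ 2 * ((a - c) * (d - b))) := by ring
        _ = 8 * (t ^ 2 * (W₁ * W₂)) := by rw [ht2]
        _ = _ := by ring
    exact le_of_mul_le_mul_right this hWp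
  have h2 : (a - c) * (d - b) ≤ t ^ 2 := by
    have hl : 0 < (a - c) * (d - b) := mul_pos (by linarith) (by linarith)
    have : (a - c) * (d - b) * (W₁ * W₂) ≤ t ^ 2 * (W₁ * W₂) := by
      rw [ht2]
      nlinarith
    exact le_of_mul_le_mul_right this hWp
  constructor
  · have h3 : (b - a) ^ 2 ≤ 8 * t ^ 2 := by nlinarith
    nlinarith
  · rcases le_total (a - c) (d - b) with h | h
    · rw [min_eq_left h]
      nlinarith [mul_nonneg (sub_nonneg.mpr hab) (sub_nonneg.mpr h), mul_nonneg (sub_nonneg.mpr hca.le) (sub_nonneg.mpr h), mul_nonneg (sub_nonneg.mpr hab) (sub_nonneg.mpr hbd.le), sq_nonneg (b - a)]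
    · rw [min_eq_right h]
      nlinarith [mul_nonneg (sub_nonneg.mpr hab) (sub_nonneg.mpr h), mul_nonneg (sub_nonneg.mpr hbd.le) (sub_nonneg.mpr h), mul_nonneg (sub_nonneg.mpr hab) (sub_nonneg.mpr hca.le), sq_nonneg (b - a)]

end Pool.Agent.Helper82.HC
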