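import Pool.Agent.Helper82.HC.St

set_option autoImplicit false

namespace Pool.Agent.Helper82.HC

open Set Pool.Agent.Helper82.HG

theorem tFAR : StBAS → StLAM → StACT → StFAR := by
  intro hB hL hA K S Λ hG hLam
  obtain ⟨hinv, -, -, hdense, hgap, -, -, -⟩ := hL K S Λ hG hLam
  obtain ⟨z, hz⟩ := (Set.ne_univ_iff_exists_notMem Λ).1 hLam.neuniv
  obtain ⟨l, r, hlr, -, -⟩ := hgap z hz
  obtain ⟨hlt, hl, hr, hemp⟩ := hlr
  -- every point of `Λ` which is greater than `l` is at least `r`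
  have hnext : ∀ x ∈ Λ, l < x → r ≤ x := by
    intro x hx hlx
    by_contra hxr
    push Not at hxr
    have : x ∈ Set.Ioo l r ∩ Λ := ⟨⟨hlx, hxr⟩, hx⟩
    rw [hemp] at this
    exact this
  refine ⟨r - l, sub_pos.2 hlt, fun P hP => ?_⟩
  obtain ⟨h1, h2, h3, h4⟩ := hP
  have hc : P.1.1 ∈ Λ := h1.2.1
  have ha : P.1.2 ∈ Λ := h1.2.2.1
  have hd : P.2.2 ∈ Λ := h2.2.2.1
  have hca : P.1.1 < P.1.2 := h1.1
  have hbd : P.2.1 < P.2.2 := h2.1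
  obtain ⟨g, hg, hgl⟩ := hdense l hl (Set.Ioo P.1.1 P.2.2) isOpen_Ioo
    ⟨P.1.2, ⟨hca, lt_of_le_of_lt h3 hbd⟩, ha⟩
  have hgi : g⁻¹ ∈ Gr S := inv_mem hg
  refine ⟨g⁻¹, hgi, ?_⟩
  rw [(hA K S Λ hG hLam g⁻¹ hgi P ⟨h1, h2, h3, h4⟩).2.2.1]
  have hcΛ : g⁻¹ P.1.1 ∈ Λ := (hinv g⁻¹ hgi _).2 hc
  have hdΛ : g⁻¹ P.2.2 ∈ Λ := (hinv g⁻¹ hgi _).2 hd
  have hgg : g⁻¹ (g l) = l := by simp
  obtain ⟨-, -, hmono, -⟩ := hB K S hG g⁻¹ hgi
  rcases hmono with hm | hm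
  · have e1 : g⁻¹ P.1.1 < l := by
      have := hm hgl.1
      rwa [hgg] at this
    have e2 : l < g⁻¹ P.2.2 := by
      have := hm hgl.2
      rwa [hgg] at this
    have e3 := hnext _ hdΛ e2
    have e4 := le_abs_self (g⁻¹ P.2.2 - g⁻¹ P.1.1)
    linarith
  · have e1 : l < g⁻¹ P.1.1 := by
      have := hm hgl.1
      rwa [hgg] at this
    have e2 : g⁻¹ P.2.2 < l := by
      have := hm hgl.2
      rwa [hgg] at this
    have e3 := hnext _ hcΛ e1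
    have e4 := neg_abs_le (g⁻¹ P.2.2 - g⁻¹ P.1.1)
    linarith

end Pool.Agent.Helper82.HC
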