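import Pool.Agent.Helper82.HC.St

set_option autoImplicit false

namespace Pool.Agent.Helper82.HC

open Set Pool.Agent.Helper82.HG

private lemma T_zpow_FIN (k : ℤ) (x : ℝ) : (T ^ k : Equiv.Perm ℝ) x = x + k := by
  induction k using Int.induction_on generalizing x with
  | zero => simp
  | succ k ih =>
    rw [zpow_add_one, Equiv.Perm.mul_apply, ih]
    simp only [T, Equiv.coe_addRight]
    push_cast
    ring
  | pred k ih =>
    rw [zpow_sub_one, Equiv.Perm.mul_apply, ih]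
    have : (T⁻¹ : Equiv.Perm ℝ) x = x - 1 := by
      rw [Equiv.Perm.inv_eq_iff_eq]
      simp [T]
    rw [this]
    push_cast
    ring

private lemma T_mem_FIN (S : Set (Equiv.Perm ℝ)) (m : ℤ) : T ^ m ∈ Gr S := by
  apply Subgroup.zpow_mem
  exact Subgroup.subset_closure (mem_insert _ _)

private lemma image_FIN (k : Equiv.Perm ℝ) (hk : StrictMono k ∨ StrictAnti k) (v : ℝ × ℝ)
    (hv : v.1 < v.2) : ⇑k '' Ioo v.1 v.2 = Ioo (sact k v).1 (sact k v).2 := by
  ext y
  obtain ⟨x, rfl⟩ := k.surjective y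
  rw [k.injective.mem_set_image]
  unfold sact
  rcases hk with hk | hk
  · rw [min_eq_left (hk.monotone hv.le), max_eq_right (hk.monotone hv.le)]
    simp only [mem_Ioo, hk.lt_iff_lt]
  · rw [min_eq_right (hk.antitone hv.le), max_eq_left (hk.antitone hv.le)]
    simp only [mem_Ioo, hk.lt_iff_gt]
    tauto

private lemma three_FIN {Λ : Set ℝ} {S : Set (Equiv.Perm ℝ)} {η : ℝ}
    (h8 : ∀ a b a' b', Gap Λ a b → Gap Λ a' b' → (a, b) ≠ (a', b') → b < a' ∨ b' < a)
    (hη : ∀ P : (ℝ × ℝ) × (ℝ × ℝ), IsPair Λ P → W S P.1 ≤ 2 * (P.1.2 - P.1.1) →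
      W S P.2 ≤ 2 * (P.2.2 - P.2.1) → η ≤ span P)
    {u v w : ℝ × ℝ} (hu : Gap Λ u.1 u.2 ∧ W S u ≤ 2 * (u.2 - u.1))
    (hv : Gap Λ v.1 v.2 ∧ W S v ≤ 2 * (v.2 - v.1)) (hw : Gap Λ w.1 w.2)
    (huv : u.1 < v.1) (hvw : v.1 < w.1) : min η 1 ≤ w.1 - u.1 := by
  have h1 : u.2 < v.1 := by
    rcases h8 _ _ _ _ hu.1 hv.1 (by intro h; simp only [Prod.mk.injEq] at h; linarith [h.1]) with h | h
    · exact h
    · have := hv.1.1; linarith
  have h2 : v.2 < w.1 := by
    rcases h8 _ _ _ _ hv.1 hw (by intro h; simp only [Prod.mk.injEq] at h; linarith [h.1]) with h | h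
    · exact h
    · have := hw.1; linarith
  by_cases h3 : v.2 < u.1 + 1
  · have := hη (u, v) ⟨hu.1, hv.1, h1.le, h3⟩ hu.2 hv.2
    unfold span at this
    simp only at this
    have h4 := min_le_left η 1
    linarith
  · have h4 := min_le_right η 1
    linarith [not_lt.mp h3]

theorem tFIN : StBAS → StLAM → StWGT → StFIN := by
  intro hBAS hLAM hWGT K S Λ hG hL hη
  obtain ⟨η, hη0, hη⟩ := hη
  obtain ⟨-, -, -, -, -, -, h7, h8⟩ := hLAM K S Λ hG hL
  have hσ : 0 < min η 1 := lt_min hη0 one_pos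
  set σ := min η 1 with hσdef
  set B : Set (ℝ × ℝ) := {u | Gap Λ u.1 u.2 ∧ W S u ≤ 2 * (u.2 - u.1) ∧ 0 ≤ u.1 ∧ u.1 < 1} with hB
  have hfl : ∀ u v : ℝ × ℝ, ⌊u.1 / σ⌋ = ⌊v.1 / σ⌋ → v.1 - u.1 < σ := by
    intro u v h
    have h1 := Int.abs_sub_lt_one_of_floor_eq_floor h
    rw [abs_sub_comm, ← sub_div, abs_div, abs_of_pos hσ, div_lt_one hσ] at h1
    exact lt_of_le_of_lt (le_abs_self _) h1
  have hBfin : B.Finite := by
    apply Set.Finite.of_finite_fibers (fun u : ℝ × ℝ => ⌊u.1 / σ⌋)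
    · apply (Set.finite_Icc (0 : ℤ) ⌊1 / σ⌋).subset
      rintro k ⟨u, hu, rfl⟩
      refine ⟨Int.floor_nonneg.mpr (div_nonneg hu.2.2.1 hσ.le), ?_⟩
      apply Int.floor_le_floor
      exact div_le_div_of_nonneg_right hu.2.2.2.le hσ.le
    · intro k _
      by_contra hinf
      obtain ⟨t, ht, htc⟩ := Set.Infinite.exists_subset_card_eq hinf 3
      obtain ⟨x, y, z, hxy, hxz, hyz, rfl⟩ := Finset.card_eq_three.mp htc
      have hx := ht (show x ∈ (({x, y, z} : Finset (ℝ × ℝ)) : Set (ℝ × ℝ)) by simp)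
      have hy := ht (show y ∈ (({x, y, z} : Finset (ℝ × ℝ)) : Set (ℝ × ℝ)) by simp)
      have hz := ht (show z ∈ (({x, y, z} : Finset (ℝ × ℝ)) : Set (ℝ × ℝ)) by simp)
      have hne : ∀ u v : ℝ × ℝ, Gap Λ u.1 u.2 → Gap Λ v.1 v.2 → u ≠ v → u.1 ≠ v.1 := by
        intro u v hu hv huv h
        rcases h8 _ _ _ _ hu hv (by
          intro h'
          apply huv
          simp only [Prod.mk.injEq] at h'
          exact Prod.ext h'.1 h'.2) with h1 | h1
        · have := hu.1; linarith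
        · have := hv.1; linarith
      have key : ∀ u v w : ℝ × ℝ, u ∈ B ∩ (fun u : ℝ × ℝ => ⌊u.1 / σ⌋) ⁻¹' {k} →
          v ∈ B ∩ (fun u : ℝ × ℝ => ⌊u.1 / σ⌋) ⁻¹' {k} →
          w ∈ B ∩ (fun u : ℝ × ℝ => ⌊u.1 / σ⌋) ⁻¹' {k} → u.1 < v.1 → v.1 < w.1 → False := by
        intro u v w hu hv hw huv hvw
        have h1 := three_FIN h8 hη (u := u) (v := v) (w := w) ⟨hu.1.1, hu.1.2.1⟩
          ⟨hv.1.1, hv.1.2.1⟩ hw.1.1 huv hvw
        have h2 := hfl u w (by
          have e1 : ⌊u.1 / σ⌋ = k := hu.2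
          have e2 : ⌊w.1 / σ⌋ = k := hw.2
          rw [e1, e2])
        linarith
      have hxy' := hne x y hx.1.1 hy.1.1 hxy
      have hxz' := hne x z hx.1.1 hz.1.1 hxz
      have hyz' := hne y z hy.1.1 hz.1.1 hyz
      rcases lt_or_gt_of_ne hxy' with h1 | h1 <;> rcases lt_or_gt_of_ne hxz' with h2 | h2 <;>
        rcases lt_or_gt_of_ne hyz' with h3 | h3
      · exact key x y z hx hy hz h1 h3
      · exact key x z y hx hz hy h2 h3
      · linarith
      · exact key z x y hz hx hy h2 h1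
      · exact key y x z hy hx hz h1 h2
      · linarith
      · exact key y z x hy hz hx h3 h2
      · exact key z y x hz hy hx h3 h1
  refine ⟨hBfin.toFinset, ?_⟩
  intro a b hab
  obtain ⟨_, _, _, hinv, g, hg, hgW⟩ := hWGT K S Λ hG hL (a, b) hab
  set u := sact g (a, b) with hu
  have huG : Gap Λ u.1 u.2 := h7 a b hab g hg
  set n := ⌊u.1⌋ with hn
  set k : Equiv.Perm ℝ := T ^ (-n) * g with hk
  have hkG : k ∈ Gr S := Subgroup.mul_mem _ (T_mem_FIN S _) hg
  have hku : sact k (a, b) = (u.1 - n, u.2 - n) := by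
    unfold sact
    rw [hk]
    simp only [Equiv.Perm.coe_mul, Function.comp_apply, T_zpow_FIN]
    rw [hu]
    unfold sact
    simp only [Prod.mk.injEq]
    push_cast
    constructor
    · rw [min_add_add_right]; ring
    · rw [max_add_add_right]; ring
  have hmem : sact k (a, b) ∈ B := by
    refine ⟨h7 a b hab k hkG, ?_, ?_, ?_⟩
    · rw [hinv k hkG, hku]
      simp only
      linarith
    · rw [hku]
      simp only
      have := Int.floor_le u.1
      linarith
    · rw [hku]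
      simp only
      have := Int.lt_floor_add_one u.1
      linarith
  refine ⟨sact k (a, b), by simpa using hmem, k⁻¹, Subgroup.inv_mem _ hkG, ?_⟩
  have h9 := image_FIN k (hBAS K S hG k hkG).2.2.1 (a, b) hab.1
  rw [← h9, ← Set.image_comp]
  have : (⇑k⁻¹ ∘ ⇑k) = id := by
    funext x
    simp
  rw [this, Set.image_id]

end Pool.Agent.Helper82.HC
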