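import Pool.Agent.Helper82.HC.St
import Pool.Agent.Helper82.HG.M_BAS

/-!
# MP_10ef18_an, project HC, module GEN
-/

set_option autoImplicit false

namespace Pool.Agent.Helper82.HC

open Set Pool.Agent.Helper82.HG

/-- a continuous function of period one is bounded -/
private theorem bdd_GEN {h : ℝ → ℝ} (hc : Continuous h) (hp : Function.Periodic h 1) :
    ∃ B : ℝ, ∀ x, |h x| ≤ B := by
  obtain ⟨B, hB⟩ := (isCompact_Icc (a := (0 : ℝ)) (b := 1)).exists_bound_of_continuousOn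
    hc.continuousOn
  refine ⟨B, fun x => ?_⟩
  obtain ⟨y, hy, hxy⟩ := hp.exists_mem_Ico₀ one_pos x
  rw [hxy]
  exact hB y ⟨hy.1, hy.2.le⟩

private theorem lip_GEN {f : ℝ → ℝ} (hf : Differentiable ℝ f) {B : ℝ}
    (hB : ∀ x, |deriv f x| ≤ B) (x y : ℝ) : |f x - f y| ≤ B * |x - y| := by
  have := Convex.norm_image_sub_le_of_norm_deriv_le (f := f) (s := univ) (x := y) (y := x)
    (fun z _ => hf z) (fun z _ => hB z) convex_univ (mem_univ _) (mem_univ _)
  simpa [Real.norm_eq_abs] using this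

/-- all bounds for one map -/
private theorem one_GEN (F : Equiv.Perm ℝ) (h2 : ContDiff ℝ 2 (⇑F))
    (h0 : ∀ x, deriv (⇑F) x ≠ 0) (hd : ∃ d : ℝ, (d = 1 ∨ d = -1) ∧ ∀ x : ℝ, F (x + 1) = F x + d) :
    Differentiable ℝ (⇑F) ∧ Differentiable ℝ (deriv (⇑F)) ∧
    ∃ B : ℝ, 1 ≤ B ∧ (∀ x y, |Real.log (|deriv (⇑F) x|) - Real.log (|deriv (⇑F) y|)| ≤ B * |x - y|) ∧
      (∀ x, |(deriv (⇑F) x)⁻¹| ≤ B) ∧ (∀ x, |deriv (⇑F) x| ≤ B) ∧
      ∀ x, |deriv (deriv (⇑F)) x| ≤ B := by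
  obtain ⟨d, -, hd⟩ := hd
  have hdiff : Differentiable ℝ (⇑F) := h2.differentiable (by norm_num)
  have h1 : ContDiff ℝ 1 (deriv (⇑F)) := by
    have : ContDiff ℝ (1 + 1) (⇑F) := by
      rw [one_add_one_eq_two]
      exact h2
    exact (contDiff_succ_iff_deriv.mp this).2.2
  have hgdiff : Differentiable ℝ (deriv (⇑F)) := h1.differentiable (by norm_num)
  have hgc : Continuous (deriv (⇑F)) := hgdiff.continuous
  have hg'c : Continuous (deriv (deriv (⇑F))) := h1.continuous_deriv (by norm_num)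
  have hper : Function.Periodic (deriv (⇑F)) 1 := by
    intro x
    have e : (fun x => F (x + 1)) = fun x => F x + d := funext hd
    have e1 : deriv (fun x => F (x + 1)) x = deriv (fun x => F x + d) x := by rw [e]
    rw [deriv_comp_add_const, deriv_add_const] at e1
    exact e1
  have hper' : Function.Periodic (deriv (deriv (⇑F))) 1 := by
    intro x
    have e : (fun x => deriv (⇑F) (x + 1)) = deriv (⇑F) := funext hper
    have e1 : deriv (fun x => deriv (⇑F) (x + 1)) x = deriv (deriv (⇑F)) x := by rw [e]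
    rw [deriv_comp_add_const] at e1
    exact e1
  obtain ⟨B1, hB1⟩ := bdd_GEN (h := fun x => (deriv (⇑F) x)⁻¹) (hgc.inv₀ h0)
    (fun x => by show (deriv (⇑F) (x + 1))⁻¹ = _; rw [hper x])
  obtain ⟨B2, hB2⟩ := bdd_GEN (h := fun x => deriv (deriv (⇑F)) x / deriv (⇑F) x)
    (hg'c.div hgc h0)
    (fun x => by
      show deriv (deriv (⇑F)) (x + 1) / deriv (⇑F) (x + 1) = _
      rw [hper x, hper' x])
  obtain ⟨B3, hB3⟩ := bdd_GEN hgc hper
  obtain ⟨B4, hB4⟩ := bdd_GEN hg'c hper'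
  have hB1' : 0 ≤ B1 := (abs_nonneg _).trans (hB1 0)
  have hB2' : 0 ≤ B2 := (abs_nonneg _).trans (hB2 0)
  have hB3' : 0 ≤ B3 := (abs_nonneg _).trans (hB3 0)
  have hB4' : 0 ≤ B4 := (abs_nonneg _).trans (hB4 0)
  refine ⟨hdiff, hgdiff, 1 + B1 + B2 + B3 + B4, by linarith, fun x y => ?_,
    fun x => (hB1 x).trans (by linarith), fun x => (hB3 x).trans (by linarith),
    fun x => (hB4 x).trans (by linarith)⟩
  have hL : Differentiable ℝ (fun x => Real.log (deriv (⇑F) x)) := fun x =>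
    (hgdiff x).log (h0 x)
  have hL' : ∀ x, deriv (fun x => Real.log (deriv (⇑F) x)) x
      = deriv (deriv (⇑F)) x / deriv (⇑F) x := by
    intro x
    exact ((hgdiff x).hasDerivAt.log (h0 x)).deriv
  have h3 := lip_GEN hL (B := B2) (fun x => by rw [hL' x]; exact hB2 x) x y
  rw [Real.log_abs, Real.log_abs]
  refine h3.trans ?_
  apply mul_le_mul_of_nonneg_right _ (abs_nonneg _)
  linarith

private theorem ap_inv_GEN (F : Equiv.Perm ℝ) (x : ℝ) : F (F⁻¹ x) = x := F.apply_symm_apply x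

private theorem nice_GEN (F : Equiv.Perm ℝ) (h2 : ContDiff ℝ 2 (⇑F))
    (h0 : ∀ x, deriv (⇑F) x ≠ 0) (hd : ∃ d : ℝ, (d = 1 ∨ d = -1) ∧ ∀ x : ℝ, F (x + 1) = F x + d)
    (B : ℝ) (hB1 : 1 ≤ B)
    (hB : ∀ x y, |Real.log (|deriv (⇑F) x|) - Real.log (|deriv (⇑F) y|)| ≤ B * |x - y|)
    (hBi : ∀ x, |(deriv (⇑F) x)⁻¹| ≤ B) :
    (∀ x y, |F⁻¹ x - F⁻¹ y| ≤ B * |x - y|) ∧
      ∀ K' : ℝ, B + B * B ≤ K' → Nice K' F ∧ Nice K' F⁻¹ := by
  have hB0 : 0 ≤ B := by linarith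
  have hdiff : Differentiable ℝ (⇑F) := h2.differentiable (by norm_num)
  have hstr : ∀ x, HasStrictDerivAt (⇑F) (deriv (⇑F) x) x := fun x =>
    h2.contDiffAt.hasStrictDerivAt (by norm_num)
  have hopen : IsOpenMap (⇑F) := isOpenMap_of_hasStrictDerivAt hstr h0
  have hcont : Continuous (⇑F⁻¹) := F.continuous_symm_iff.mpr hopen
  have hinv : ∀ x, HasDerivAt (⇑F⁻¹) (deriv (⇑F) (F⁻¹ x))⁻¹ x := by
    intro x
    apply HasDerivAt.of_local_left_inverse hcont.continuousAt (hdiff _).hasDerivAt (h0 _)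
    filter_upwards with y
    exact F.apply_symm_apply y
  have hinvd : ∀ x, deriv (⇑F⁻¹) x = (deriv (⇑F) (F⁻¹ x))⁻¹ := fun x => (hinv x).deriv
  have hLi := lip_GEN (f := ⇑F⁻¹) (fun x => (hinv x).differentiableAt) (B := B)
    (fun x => by rw [hinvd x]; exact hBi _)
  refine ⟨hLi, fun K' hK' => ⟨⟨hdiff, h0, ?_, hd⟩,
    ⟨fun x => (hinv x).differentiableAt, ?_, ?_, ?_⟩⟩⟩
  · intro x y
    refine (hB x y).trans (mul_le_mul_of_nonneg_right ?_ (abs_nonneg _))
    nlinarith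
  · intro x
    rw [hinvd x]
    exact inv_ne_zero (h0 _)
  · intro x y
    rw [hinvd x, hinvd y, abs_inv, abs_inv, Real.log_inv, Real.log_inv]
    have h1 : ∀ a b : ℝ, |-a - -b| = |a - b| := by
      intro a b
      rw [← abs_neg]
      congr 1
      ring
    rw [h1]
    refine (hB _ _).trans ?_
    calc B * |F⁻¹ x - F⁻¹ y| ≤ B * (B * |x - y|) := mul_le_mul_of_nonneg_left (hLi x y) hB0
      _ = (B * B) * |x - y| := by ring
      _ ≤ K' * |x - y| := mul_le_mul_of_nonneg_right (by linarith) (abs_nonneg _)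
  · obtain ⟨d, hd1, hd⟩ := hd
    refine ⟨d, hd1, fun x => ?_⟩
    rcases hd1 with rfl | rfl
    · apply F.injective
      rw [hd, ap_inv_GEN, ap_inv_GEN]
    · have h3 := hd (F⁻¹ x - 1)
      rw [sub_add_cancel, ap_inv_GEN] at h3
      apply F.injective
      rw [ap_inv_GEN, ← sub_eq_add_neg]
      linarith

private theorem eps_nonneg_GEN {om : ℝ → ℝ} (hm : Modulus om) {c a b d : ℝ} (h1 : c < a)
    (h2 : a ≤ b) (h3 : b < d) : 0 ≤ eps om c a b d := by
  unfold eps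
  have h4 : 0 < d - c := by linarith
  have h5 := hm.lin (d - c) h4
  have h6 : 0 ≤ min (a - c) (d - b) := le_min (by linarith) (by linarith)
  exact mul_nonneg (by linarith) (by linarith)

private theorem dist_mono_GEN {om : ℝ → ℝ} (hm : Modulus om) {K K' : ℝ} (h : K ≤ K') {s : ℝ → ℝ}
    (hs : Dist K om s) : Dist K' om s := by
  intro c a b d h1 h2 h3 h4
  refine (hs c a b d h1 h2 h3 h4).trans ?_
  apply mul_le_mul_of_nonneg_right
  · apply Real.exp_le_exp.mpr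
    exact mul_le_mul_of_nonneg_right h (eps_nonneg_GEN hm h1 h2 h3)
  · have : 0 ≤ (b - a) * (d - c) := mul_nonneg (by linarith) (by linarith)
    positivity

/-- comparison of the sizes -/
private theorem eps_le_GEN {om : ℝ → ℝ} (hm : Modulus om) {L : ℝ} (hL : 1 ≤ L)
    {c a b d t u v w : ℝ} (h1 : c < a) (h2 : a ≤ b) (h3 : b < d)
    (ht : 0 < t) (htL : t ≤ L * (d - c)) (hu : 0 ≤ u) (huL : u ≤ L * (b - a))
    (hv : 0 ≤ v) (hvL : v ≤ L * (a - c)) (hw : 0 ≤ w) (hwL : w ≤ L * (d - b)) :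
    om t * (u + min v w) ≤ 2 * L ^ 2 * eps om c a b d := by
  unfold eps
  have h4 : 0 < d - c := by linarith
  have h5 : om t ≤ om (L * (d - c)) := hm.mono _ _ ht htL
  have h6 : om (L * (d - c)) ≤ 2 * L * om (d - c) := by
    have h7 := hm.quot (d - c) (L * (d - c)) h4 (by nlinarith)
    have h8 : om (L * (d - c)) * (d - c) ≤ (2 * L * om (d - c)) * (d - c) := by
      calc om (L * (d - c)) * (d - c) ≤ 2 * (om (d - c) * (L * (d - c))) := h7
        _ = (2 * L * om (d - c)) * (d - c) := by ring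
    exact le_of_mul_le_mul_right h8 h4
  have h9 : u + min v w ≤ L * ((b - a) + min (a - c) (d - b)) := by
    have h10 : min v w ≤ L * min (a - c) (d - b) := by
      rcases le_total (a - c) (d - b) with h | h
      · rw [min_eq_left h]
        exact (min_le_left _ _).trans hvL
      · rw [min_eq_right h]
        exact (min_le_right _ _).trans hwL
    rw [mul_add]
    exact add_le_add huL h10
  have h11 : 0 ≤ u + min v w := add_nonneg hu (le_min hv hw)
  have h12 : 0 < om (d - c) := lt_of_lt_of_le h4 (hm.lin _ h4)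
  calc om t * (u + min v w) ≤ (2 * L * om (d - c)) * (u + min v w) :=
        mul_le_mul_of_nonneg_right (h5.trans h6) h11
    _ ≤ (2 * L * om (d - c)) * (L * ((b - a) + min (a - c) (d - b))) :=
        mul_le_mul_of_nonneg_left h9 (by positivity)
    _ = 2 * L ^ 2 * (om (d - c) * ((b - a) + min (a - c) (d - b))) := by ring

private theorem inv_dist_GEN (F : Equiv.Perm ℝ) {K L : ℝ} {om : ℝ → ℝ} (hK : 0 ≤ K) (hL : 1 ≤ L)
    (hm : Modulus om) (hmo : StrictMono (⇑F⁻¹) ∨ StrictAnti (⇑F⁻¹))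
    (hlip : ∀ x y, |F⁻¹ x - F⁻¹ y| ≤ L * |x - y|)
    (hd : ∃ d : ℝ, (d = 1 ∨ d = -1) ∧ ∀ x : ℝ, F⁻¹ (x + 1) = F⁻¹ x + d)
    (hD : DistR K om F) : Dist (K * (2 * L ^ 2)) om (⇑F⁻¹) := by
  intro c a b d h1 h2 h3 h4
  obtain ⟨e, he, hE⟩ := hd
  rcases hmo with hmo | hmo
  · have g1 : F⁻¹ c < F⁻¹ a := hmo h1
    have g2 : F⁻¹ a ≤ F⁻¹ b := hmo.monotone h2
    have g3 : F⁻¹ b < F⁻¹ d := hmo h3
    have he1 : e = 1 := by
      rcases he with h | h
      · exact h
      · have := hmo (show c < c + 1 by linarith)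
        rw [hE, h] at this
        linarith
    have g4 : F⁻¹ d ≤ F⁻¹ c + 1 := by
      have := hmo.monotone h4
      rw [hE, he1] at this
      exact this
    have key := hD _ _ _ _ g1 g2 g3 g4
    simp only [ap_inv_GEN] at key
    have l1 := hlip b a
    have l2 := hlip d c
    have l3 := hlip a c
    have l4 := hlip d b
    rw [abs_of_nonneg (show (0 : ℝ) ≤ F⁻¹ b - F⁻¹ a by linarith),
      abs_of_nonneg (show (0 : ℝ) ≤ b - a by linarith)] at l1
    rw [abs_of_nonneg (show (0 : ℝ) ≤ F⁻¹ d - F⁻¹ c by linarith),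
      abs_of_nonneg (show (0 : ℝ) ≤ d - c by linarith)] at l2
    rw [abs_of_nonneg (show (0 : ℝ) ≤ F⁻¹ a - F⁻¹ c by linarith),
      abs_of_nonneg (show (0 : ℝ) ≤ a - c by linarith)] at l3
    rw [abs_of_nonneg (show (0 : ℝ) ≤ F⁻¹ d - F⁻¹ b by linarith),
      abs_of_nonneg (show (0 : ℝ) ≤ d - b by linarith)] at l4
    have he2 : K * eps om (F⁻¹ c) (F⁻¹ a) (F⁻¹ b) (F⁻¹ d) ≤ K * (2 * L ^ 2) * eps om c a b d := by
      rw [mul_assoc]
      apply mul_le_mul_of_nonneg_left _ hK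
      exact eps_le_GEN hm hL h1 h2 h3 (by linarith) l2 (by linarith) l1 (by linarith) l3
        (by linarith) l4
    rw [abs_of_nonneg (show (0 : ℝ) ≤ b - a by linarith),
      abs_of_nonneg (show (0 : ℝ) ≤ d - c by linarith),
      abs_of_nonneg (show (0 : ℝ) ≤ a - c by linarith),
      abs_of_nonneg (show (0 : ℝ) ≤ d - b by linarith)] at key
    rw [abs_of_nonneg (show (0 : ℝ) ≤ F⁻¹ b - F⁻¹ a by linarith),
      abs_of_nonneg (show (0 : ℝ) ≤ F⁻¹ d - F⁻¹ c by linarith),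
      abs_of_nonneg (show (0 : ℝ) ≤ F⁻¹ a - F⁻¹ c by linarith),
      abs_of_nonneg (show (0 : ℝ) ≤ F⁻¹ d - F⁻¹ b by linarith)]
    have hnn : 0 ≤ (F⁻¹ a - F⁻¹ c) * (F⁻¹ d - F⁻¹ b) * ((b - a) * (d - c)) := by
      have i1 : (0 : ℝ) ≤ F⁻¹ a - F⁻¹ c := by linarith
      have i2 : (0 : ℝ) ≤ F⁻¹ d - F⁻¹ b := by linarith
      have i3 : (0 : ℝ) ≤ b - a := by linarith
      have i4 : (0 : ℝ) ≤ d - c := by linarith
      positivity
    calc (F⁻¹ b - F⁻¹ a) * (F⁻¹ d - F⁻¹ c) * ((a - c) * (d - b))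
        = (a - c) * (d - b) * ((F⁻¹ b - F⁻¹ a) * (F⁻¹ d - F⁻¹ c)) := by ring
      _ ≤ Real.exp (K * eps om (F⁻¹ c) (F⁻¹ a) (F⁻¹ b) (F⁻¹ d)) *
          ((b - a) * (d - c) * ((F⁻¹ a - F⁻¹ c) * (F⁻¹ d - F⁻¹ b))) := key
      _ = Real.exp (K * eps om (F⁻¹ c) (F⁻¹ a) (F⁻¹ b) (F⁻¹ d)) *
          ((F⁻¹ a - F⁻¹ c) * (F⁻¹ d - F⁻¹ b) * ((b - a) * (d - c))) := by ring
      _ ≤ _ := mul_le_mul_of_nonneg_right (Real.exp_le_exp.mpr he2) hnn
  · have g1 : F⁻¹ d < F⁻¹ b := hmo h3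
    have g2 : F⁻¹ b ≤ F⁻¹ a := hmo.antitone h2
    have g3 : F⁻¹ a < F⁻¹ c := hmo h1
    have he1 : e = -1 := by
      rcases he with h | h
      · have := hmo (show c < c + 1 by linarith)
        rw [hE, h] at this
        linarith
      · exact h
    have g4 : F⁻¹ c ≤ F⁻¹ d + 1 := by
      have := hmo.antitone h4
      rw [hE, he1] at this
      linarith
    have key := hD _ _ _ _ g1 g2 g3 g4
    simp only [ap_inv_GEN] at key
    have l1 := hlip a b
    have l2 := hlip c d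
    have l3 := hlip b d
    have l4 := hlip c a
    rw [abs_of_nonneg (show (0 : ℝ) ≤ F⁻¹ a - F⁻¹ b by linarith), abs_sub_comm a b,
      abs_of_nonneg (show (0 : ℝ) ≤ b - a by linarith)] at l1
    rw [abs_of_nonneg (show (0 : ℝ) ≤ F⁻¹ c - F⁻¹ d by linarith), abs_sub_comm c d,
      abs_of_nonneg (show (0 : ℝ) ≤ d - c by linarith)] at l2
    rw [abs_of_nonneg (show (0 : ℝ) ≤ F⁻¹ b - F⁻¹ d by linarith), abs_sub_comm b d,
      abs_of_nonneg (show (0 : ℝ) ≤ d - b by linarith)] at l3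
    rw [abs_of_nonneg (show (0 : ℝ) ≤ F⁻¹ c - F⁻¹ a by linarith), abs_sub_comm c a,
      abs_of_nonneg (show (0 : ℝ) ≤ a - c by linarith)] at l4
    have he2 : K * eps om (F⁻¹ d) (F⁻¹ b) (F⁻¹ a) (F⁻¹ c) ≤ K * (2 * L ^ 2) * eps om c a b d := by
      rw [mul_assoc]
      apply mul_le_mul_of_nonneg_left _ hK
      unfold eps
      rw [min_comm (F⁻¹ b - F⁻¹ d)]
      exact eps_le_GEN hm hL h1 h2 h3 (by linarith) l2 (by linarith) l1 (by linarith) l4
        (by linarith) l3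
    rw [abs_sub_comm b d, abs_sub_comm c a, abs_sub_comm a b, abs_sub_comm c d,
      abs_of_nonneg (show (0 : ℝ) ≤ b - a by linarith),
      abs_of_nonneg (show (0 : ℝ) ≤ d - c by linarith),
      abs_of_nonneg (show (0 : ℝ) ≤ a - c by linarith),
      abs_of_nonneg (show (0 : ℝ) ≤ d - b by linarith)] at key
    rw [abs_sub_comm (F⁻¹ b), abs_sub_comm (F⁻¹ d) (F⁻¹ c), abs_sub_comm (F⁻¹ a) (F⁻¹ c),
      abs_sub_comm (F⁻¹ d) (F⁻¹ b),
      abs_of_nonneg (show (0 : ℝ) ≤ F⁻¹ a - F⁻¹ b by linarith),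
      abs_of_nonneg (show (0 : ℝ) ≤ F⁻¹ c - F⁻¹ d by linarith),
      abs_of_nonneg (show (0 : ℝ) ≤ F⁻¹ c - F⁻¹ a by linarith),
      abs_of_nonneg (show (0 : ℝ) ≤ F⁻¹ b - F⁻¹ d by linarith)]
    have hnn : 0 ≤ (F⁻¹ c - F⁻¹ a) * (F⁻¹ b - F⁻¹ d) * ((b - a) * (d - c)) := by
      have i1 : (0 : ℝ) ≤ F⁻¹ c - F⁻¹ a := by linarith
      have i2 : (0 : ℝ) ≤ F⁻¹ b - F⁻¹ d := by linarith
      have i3 : (0 : ℝ) ≤ b - a := by linarith
      have i4 : (0 : ℝ) ≤ d - c := by linarith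
      positivity
    calc (F⁻¹ a - F⁻¹ b) * (F⁻¹ c - F⁻¹ d) * ((a - c) * (d - b))
        = (d - b) * (a - c) * ((F⁻¹ a - F⁻¹ b) * (F⁻¹ c - F⁻¹ d)) := by ring
      _ ≤ Real.exp (K * eps om (F⁻¹ d) (F⁻¹ b) (F⁻¹ a) (F⁻¹ c)) *
          ((b - a) * (d - c) * ((F⁻¹ b - F⁻¹ d) * (F⁻¹ c - F⁻¹ a))) := key
      _ = Real.exp (K * eps om (F⁻¹ d) (F⁻¹ b) (F⁻¹ a) (F⁻¹ c)) *
          ((F⁻¹ c - F⁻¹ a) * (F⁻¹ b - F⁻¹ d) * ((b - a) * (d - c))) := by ring
      _ ≤ _ := mul_le_mul_of_nonneg_right (Real.exp_le_exp.mpr he2) hnn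

/-- the set of the differences of the second derivatives at distance at most `t` -/
private def A_GEN {n : ℕ} (D : Fin n → ℝ → ℝ) (t : ℝ) : Set ℝ :=
  {r | r = 0 ∨ ∃ i x y, |x - y| ≤ t ∧ r = |D i x - D i y|}

private theorem mod_GEN {n : ℕ} (D : Fin n → ℝ → ℝ) (ω : ℝ → ℝ)
    (hω : ∀ s t, 0 ≤ s → s ≤ t → ω s ≤ ω t)
    (hs : Summable (fun k : ℕ => ((k : ℝ) + 1) * ω ((1 / 2) ^ k)))
    (hD : ∀ i x y, |D i x - D i y| ≤ ω |x - y|) :
    ∃ om : ℝ → ℝ, Modulus om ∧ ∀ i x y, |D i x - D i y| ≤ om |x - y| := by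
  have hb : ∀ t, ∀ r ∈ A_GEN D t, r ≤ max 0 (ω t) := by
    rintro t r (rfl | ⟨i, x, y, hxy, rfl⟩)
    · exact le_max_left _ _
    · exact (hD i x y).trans ((hω _ _ (abs_nonneg _) hxy).trans (le_max_right _ _))
  have hbdd : ∀ t, BddAbove (A_GEN D t) := fun t => ⟨_, fun r hr => hb t r hr⟩
  have h0 : ∀ t, (0 : ℝ) ∈ A_GEN D t := fun t => Or.inl rfl
  have hpos : ∀ t, 0 ≤ sSup (A_GEN D t) := fun t => le_csSup (hbdd t) (h0 t)
  have hle : ∀ t, sSup (A_GEN D t) ≤ max 0 (ω t) := fun t =>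
    csSup_le ⟨0, h0 t⟩ (fun r hr => hb t r hr)
  have hmem : ∀ t i x y, |x - y| ≤ t → |D i x - D i y| ≤ sSup (A_GEN D t) := fun t i x y h =>
    le_csSup (hbdd t) (Or.inr ⟨i, x, y, h, rfl⟩)
  have hmono : ∀ s t, s ≤ t → sSup (A_GEN D s) ≤ sSup (A_GEN D t) := by
    intro s t hst
    apply csSup_le ⟨0, h0 s⟩
    rintro r (rfl | ⟨i, x, y, hxy, rfl⟩)
    · exact hpos t
    · exact hmem t i x y (hxy.trans hst)
  have hsub : ∀ (N : ℕ) (s t : ℝ), 0 < N → t ≤ N * s → sSup (A_GEN D t) ≤ N * sSup (A_GEN D s) := by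
    intro N s t hN hts
    have hN' : (0 : ℝ) < N := by exact_mod_cast hN
    apply csSup_le ⟨0, h0 t⟩
    rintro r (rfl | ⟨i, x, y, hxy, rfl⟩)
    · exact mul_nonneg hN'.le (hpos s)
    · have hsum : D i x - D i y = ∑ j ∈ Finset.range N,
          (D i (y + ((j + 1 : ℕ) : ℝ) * ((x - y) / N)) - D i (y + ((j : ℕ) : ℝ) * ((x - y) / N))) := by
        rw [Finset.sum_range_sub (fun j : ℕ => D i (y + (j : ℝ) * ((x - y) / N))) N]
        have e1 : y + (N : ℝ) * ((x - y) / N) = x := by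
          field_simp
          ring
        rw [e1]
        simp
      rw [hsum]
      refine (Finset.abs_sum_le_sum_abs _ _).trans ?_
      calc ∑ j ∈ Finset.range N, |D i (y + ((j + 1 : ℕ) : ℝ) * ((x - y) / N))
            - D i (y + ((j : ℕ) : ℝ) * ((x - y) / N))|
          ≤ ∑ j ∈ Finset.range N, sSup (A_GEN D s) := by
            apply Finset.sum_le_sum
            intro j _
            apply hmem
            have e2 : y + ((j + 1 : ℕ) : ℝ) * ((x - y) / N) - (y + ((j : ℕ) : ℝ) * ((x - y) / N))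
                = (x - y) / N := by
              push_cast
              ring
            rw [e2, abs_div, abs_of_pos hN', div_le_iff₀ hN']
            linarith
        _ = N * sSup (A_GEN D s) := by
            rw [Finset.sum_const, Finset.card_range, nsmul_eq_mul]
  refine ⟨fun t => sSup (A_GEN D t) + t, ⟨?_, ?_, ?_, ?_⟩, ?_⟩
  · intro t _
    have := hpos t
    show t ≤ sSup (A_GEN D t) + t
    linarith
  · intro s t _ hst
    exact add_le_add (hmono s t hst) hst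
  · intro s t hs0 hst
    show (sSup (A_GEN D t) + t) * s ≤ 2 * ((sSup (A_GEN D s) + s) * t)
    have ht0 : 0 < t := lt_of_lt_of_le hs0 hst
    set N := ⌈t / s⌉₊ with hNdef
    have hts : 1 ≤ t / s := by rw [le_div_iff₀ hs0]; linarith
    have hN1 : t / s ≤ N := Nat.le_ceil _
    have hN2 : (N : ℝ) < t / s + 1 := Nat.ceil_lt_add_one (by positivity)
    have hNpos : 0 < N := by
      have : (0 : ℝ) < N := by linarith
      exact_mod_cast this
    have hN3 : t ≤ N * s := by rwa [div_le_iff₀ hs0] at hN1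
    have hN4 : (N : ℝ) * s ≤ 2 * t := by
      have h5 : (N : ℝ) * s ≤ (t / s + 1) * s := mul_le_mul_of_nonneg_right hN2.le hs0.le
      have h6 : (t / s + 1) * s = t + s := by field_simp
      linarith
    have h7 : sSup (A_GEN D t) + t ≤ N * (sSup (A_GEN D s) + s) := by
      have := hsub N s t hNpos hN3
      rw [mul_add]
      linarith
    have h8 : 0 ≤ sSup (A_GEN D s) + s := add_nonneg (hpos s) hs0.le
    calc (sSup (A_GEN D t) + t) * s ≤ (N * (sSup (A_GEN D s) + s)) * s :=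
          mul_le_mul_of_nonneg_right h7 hs0.le
      _ = (N * s) * (sSup (A_GEN D s) + s) := by ring
      _ ≤ (2 * t) * (sSup (A_GEN D s) + s) := mul_le_mul_of_nonneg_right hN4 h8
      _ = 2 * ((sSup (A_GEN D s) + s) * t) := by ring
  · have hg : Summable (fun k : ℕ => ((k : ℝ) + 1) * (1 / 2) ^ k) := by
      have g1 : Summable (fun k : ℕ => ((k : ℝ)) ^ 1 * (1 / 2 : ℝ) ^ k) :=
        summable_pow_mul_geometric_of_norm_lt_one 1 (by norm_num)
      have g2 : Summable (fun k : ℕ => (1 / 2 : ℝ) ^ k) := summable_geometric_two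
      refine (g1.add g2).congr (fun k => ?_)
      ring
    have h1 : Summable (fun k : ℕ => |((k : ℝ) + 1) * ω ((1 / 2) ^ k)|) := hs.abs
    refine Summable.of_nonneg_of_le (fun k => ?_) (fun k => ?_) (h1.add hg)
    · have := hpos ((1 / 2) ^ k)
      positivity
    · have h2 : sSup (A_GEN D ((1 / 2) ^ k)) ≤ |ω ((1 / 2) ^ k)| :=
        (hle _).trans (max_le (abs_nonneg _) (le_abs_self _))
      have h3 : (0 : ℝ) ≤ (k : ℝ) + 1 := by positivity
      rw [abs_mul, abs_of_nonneg h3]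
      show ((k : ℝ) + 1) * (sSup (A_GEN D ((1 / 2) ^ k)) + (1 / 2) ^ k) ≤ _
      rw [mul_add]
      exact add_le_add (mul_le_mul_of_nonneg_left h2 h3) le_rfl
  · intro i x y
    have := hmem |x - y| i x y le_rfl
    show |D i x - D i y| ≤ sSup (A_GEN D |x - y|) + |x - y|
    have h2 := abs_nonneg (x - y)
    linarith

theorem tGEN : StDIS → StGEN := by
  rintro hDIS n F h2 h0 hd ⟨ω, hω, hsum, hω2⟩
  choose hdiff hdiff2 B hB1 hBlog hBi hBd hBdd using fun i => one_GEN (F i) (h2 i) (h0 i) (hd i)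
  have hnice := fun i => nice_GEN (F i) (h2 i) (h0 i) (hd i) (B i) (hB1 i) (hBlog i) (hBi i)
  have hit : ∀ i x, iteratedDeriv 2 (⇑(F i)) x = deriv (deriv (⇑(F i))) x := by
    intro i x
    rw [iteratedDeriv_succ, iteratedDeriv_one]
  obtain ⟨om, hm, hom⟩ := mod_GEN (fun i x => deriv (deriv (⇑(F i))) x) ω hω hsum
    (fun i x y => by
      have := hω2 i x y
      rwa [hit, hit] at this)
  have hdis : ∀ i, ∃ K : ℝ, 0 ≤ K ∧ Dist K om (F i) ∧ DistR K om (F i) := by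
    intro i
    have hBp : 0 < B i := by have := hB1 i; linarith
    refine hDIS (F i) om (B i)⁻¹ (B i) (hdiff i) (hdiff2 i) (by positivity) (fun x => ?_) (hBd i)
      (hBdd i) hm.lin hm.mono (fun x y _ => hom i x y)
    have h3 := hBi i x
    rw [abs_inv] at h3
    have h4 : 0 < |deriv (⇑(F i)) x| := abs_pos.mpr (h0 i x)
    exact (inv_le_comm₀ hBp h4).mpr h3
  choose Kd hKd hDist hDistR using hdis
  have hle : ∀ i, B i + B i * B i ≤ 1 + ∑ i, (B i + B i * B i) := by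
    intro i
    have := Finset.single_le_sum (f := fun i => B i + B i * B i)
      (fun i _ => by have := hB1 i; positivity) (Finset.mem_univ i)
    linarith
  have hle2 : ∀ i, Kd i + Kd i * (2 * (B i) ^ 2) ≤ ∑ i, (Kd i + Kd i * (2 * (B i) ^ 2)) := by
    intro i
    exact Finset.single_le_sum (f := fun i => Kd i + Kd i * (2 * (B i) ^ 2))
      (fun i _ => by have := hKd i; positivity) (Finset.mem_univ i)
  set S : Set (Equiv.Perm ℝ) := {s | ∃ i, s = F i ∨ s = (F i)⁻¹} with hS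
  have hGens : Gens (1 + ∑ i, (B i + B i * B i)) S := by
    refine ⟨?_, ?_⟩
    · rintro s ⟨i, rfl | rfl⟩
      · exact ((hnice i).2 _ (hle i)).1
      · exact ((hnice i).2 _ (hle i)).2
    · rintro s ⟨i, rfl | rfl⟩
      · exact ⟨i, Or.inr rfl⟩
      · exact ⟨i, Or.inl (inv_inv _)⟩
  refine ⟨1 + ∑ i, (B i + B i * B i), ∑ i, (Kd i + Kd i * (2 * (B i) ^ 2)), om, S, ?_, hGens, hm,
    ?_, ?_, ?_⟩
  · have := Finset.sum_nonneg (s := Finset.univ) (f := fun i => B i + B i * B i)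
      (fun i _ => by have := hB1 i; positivity)
    linarith
  · exact Finset.sum_nonneg (fun i _ => by have := hKd i; positivity)
  · rintro s ⟨i, rfl | rfl⟩
    · refine dist_mono_GEN hm ?_ (hDist i)
      have h5 := hle2 i
      have h6 : 0 ≤ Kd i * (2 * (B i) ^ 2) := by have := hKd i; positivity
      linarith
    · have hbas := tBAS _ S hGens (F i)⁻¹ (Subgroup.subset_closure (Or.inr ⟨i, Or.inr rfl⟩))
      refine dist_mono_GEN hm ?_ (inv_dist_GEN (F i) (hKd i) (hB1 i) hm hbas.2.2.1 (hnice i).1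
        hbas.2.2.2 (hDistR i))
      have h5 := hle2 i
      have h6 := hKd i
      linarith
  · apply le_antisymm
    · unfold Gr
      rw [Subgroup.closure_le]
      rintro s (rfl | ⟨i, rfl | rfl⟩)
      · exact Subgroup.subset_closure (Or.inl rfl)
      · exact Subgroup.subset_closure (Or.inr ⟨i, rfl⟩)
      · exact Subgroup.inv_mem _ (Subgroup.subset_closure (Or.inr ⟨i, rfl⟩))
    · rw [Subgroup.closure_le]
      rintro s (rfl | ⟨i, rfl⟩)
      · exact Subgroup.subset_closure (Or.inl rfl)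
      · exact Subgroup.subset_closure (Or.inr ⟨i, Or.inl rfl⟩)

end Pool.Agent.Helper82.HC
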