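import Pool.Agent.Helper82.HC.St

/-! Project HC, module MIN: the extremal pair. -/

set_option autoImplicit false

namespace Pool.Agent.Helper82.HC

open Set Pool.Agent.Helper82.HG

private theorem two_sqrt_MIN {x y : ℝ} (hx : 0 ≤ x) (hy : 0 ≤ y) : 2 * Real.sqrt (x * y) ≤ x + y := by
  have h1 := Real.sq_sqrt (mul_nonneg hx hy)
  have h2 := Real.sqrt_nonneg (x * y)
  nlinarith [sq_nonneg (x - y), sq_nonneg (x + y)]

private theorem sact_one_MIN {u : ℝ × ℝ} (h : u.1 ≤ u.2) : sact 1 u = u := by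
  unfold sact
  simp [h]

theorem tMIN : StMIN := by
  intro S Λ P₁ hP₁ hO hW1 hW2
  set u := P₁.1 with hu
  set v := P₁.2 with hv
  set m : ℝ := min (W S u) (W S v) with hm
  have hm0 : 0 < m := lt_min hW1 hW2
  have hWm : ∀ x ∈ Orb2 S u v, m ≤ W S x := by
    intro x hx
    rcases (hO x hx).2 with h | h
    · rw [h]; exact min_le_left _ _
    · rw [h]; exact min_le_right _ _
  have hwt : ∀ x ∈ Orb2 S u v, 0 < wt S x := by
    intro x hx
    exact div_pos (by have := (hO x hx).1.1; linarith) (hm0.trans_le (hWm x hx))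
  -- basic estimate
  have key : ∀ P, IsPair Λ P → P.1 ∈ Orb2 S u v → P.2 ∈ Orb2 S u v →
      2 * Real.sqrt (W S P.1 * W S P.2) * Real.sqrt (wt S P.1 * wt S P.2) ≤ span P := by
    intro P hP h1 h2
    have hW1 := hm0.trans_le (hWm _ h1)
    have hW2 := hm0.trans_le (hWm _ h2)
    have e : Real.sqrt (W S P.1 * W S P.2) * Real.sqrt (wt S P.1 * wt S P.2)
        = Real.sqrt ((P.1.2 - P.1.1) * (P.2.2 - P.2.1)) := by
      rw [← Real.sqrt_mul (by positivity)]
      congr 1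
      unfold wt
      field_simp
    have h3 := two_sqrt_MIN (x := P.1.2 - P.1.1) (y := P.2.2 - P.2.1)
      (by have := hP.1.1; linarith) (by have := hP.2.1.1; linarith)
    have h4 := hP.2.2.1
    unfold span
    calc 2 * Real.sqrt (W S P.1 * W S P.2) * Real.sqrt (wt S P.1 * wt S P.2)
        = 2 * (Real.sqrt (W S P.1 * W S P.2) * Real.sqrt (wt S P.1 * wt S P.2)) := by ring
      _ = 2 * Real.sqrt ((P.1.2 - P.1.1) * (P.2.2 - P.2.1)) := by rw [e]
      _ ≤ _ := by linarith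
  let A : Set ℝ := {r | ∃ P, IsPair Λ P ∧ P.1 ∈ Orb2 S u v ∧ P.2 ∈ Orb2 S u v ∧
    r = span P / Real.sqrt (wt S P.1 * wt S P.2)}
  have hlow : ∀ r ∈ A, 2 * m ≤ r := by
    rintro r ⟨P, hP, h1, h2, rfl⟩
    have hs : 0 < Real.sqrt (wt S P.1 * wt S P.2) :=
      Real.sqrt_pos.mpr (mul_pos (hwt _ h1) (hwt _ h2))
    rw [le_div_iff₀ hs]
    refine le_trans ?_ (key P hP h1 h2)
    apply mul_le_mul_of_nonneg_right _ hs.le
    have : m ≤ Real.sqrt (W S P.1 * W S P.2) := by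
      apply Real.le_sqrt_of_sq_le
      nlinarith [hWm _ h1, hWm _ h2]
    linarith
  have huO : u ∈ Orb2 S u v := by
    refine ⟨1, Subgroup.one_mem _, Or.inl ?_⟩
    rw [sact_one_MIN hP₁.1.1.le]
  have hvO : v ∈ Orb2 S u v := by
    refine ⟨1, Subgroup.one_mem _, Or.inr ?_⟩
    rw [sact_one_MIN hP₁.2.1.1.le]
  have hne : A.Nonempty := ⟨_, P₁, hP₁, huO, hvO, rfl⟩
  have hbdd : BddBelow A := ⟨2 * m, hlow⟩
  have hF0 : 0 < sInf A := lt_of_lt_of_le (by linarith) (le_csInf hne hlow)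
  refine ⟨sInf A, hF0, ?_, ?_⟩
  · intro P hP h1 h2
    have hs : 0 < Real.sqrt (wt S P.1 * wt S P.2) :=
      Real.sqrt_pos.mpr (mul_pos (hwt _ h1) (hwt _ h2))
    have := csInf_le hbdd (show span P / Real.sqrt (wt S P.1 * wt S P.2) ∈ A from
      ⟨P, hP, h1, h2, rfl⟩)
    exact (le_div_iff₀ hs).mp this
  · obtain ⟨r, hr, hr2⟩ := exists_lt_of_csInf_lt hne (show sInf A < 2 * sInf A by linarith)
    obtain ⟨P, hP, h1, h2, rfl⟩ := hr
    have hs : 0 < Real.sqrt (wt S P.1 * wt S P.2) :=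
      Real.sqrt_pos.mpr (mul_pos (hwt _ h1) (hwt _ h2))
    have h3 : span P ≤ 2 * sInf A * Real.sqrt (wt S P.1 * wt S P.2) :=
      ((div_lt_iff₀ hs).mp hr2).le
    refine ⟨P, hP, h1, h2, h3, ?_⟩
    have h4 := (key P hP h1 h2).trans h3
    have h5 : 2 * Real.sqrt (W S P.1 * W S P.2) ≤ 2 * sInf A := le_of_mul_le_mul_right h4 hs
    have h6 : Real.sqrt (W S P.1 * W S P.2) ≤ sInf A := by linarith
    have h7 := (Real.sqrt_le_left hF0.le).mp h6
    exact h7

end Pool.Agent.Helper82.HC
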