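import Pool.Agent.Helper82.HC.St

/-!
# Project HC, module PTH: control along simple paths
-/

set_option autoImplicit false

namespace Pool.Agent.Helper82.HC

open Set Pool.Agent.Helper82.HG

open scoped Classical in
/-- simple paths from `x₀`: the finset of the visited points before the end, and the end -/
inductive SP_PTH {α : Type} (r : α → α → Prop) (x₀ : α) : Finset α → α → Prop
  | nil : SP_PTH r x₀ ∅ x₀
  | step {s : Finset α} {y z : α} : SP_PTH r x₀ s y → r y z → z ∉ insert y s →
      SP_PTH r x₀ (insert y s) z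

open scoped Classical in
private theorem sub_PTH {α : Type} {r : α → α → Prop} {x₀ : α} {s : Finset α} {y : α}
    (h : SP_PTH r x₀ s y) : ∀ z ∈ s, ∃ s', SP_PTH r x₀ s' z := by
  induction h with
  | nil => intro z hz; simp at hz
  | step h _ _ ih =>
    intro w hw
    rcases Finset.mem_insert.1 hw with rfl | hw
    · exact ⟨_, h⟩
    · exact ih w hw

open scoped Classical in
private theorem ex_PTH {α : Type} {r : α → α → Prop} {x₀ y : α}
    (h : Relation.ReflTransGen r x₀ y) : ∃ s, SP_PTH r x₀ s y := by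
  induction h with
  | refl => exact ⟨∅, SP_PTH.nil⟩
  | @tail b c _ hbc ih =>
    obtain ⟨s, hs⟩ := ih
    by_cases hc : c ∈ insert b s
    · rcases Finset.mem_insert.1 hc with rfl | hc
      · exact ⟨s, hs⟩
      · exact sub_PTH hs c hc
    · exact ⟨_, SP_PTH.step hs hbc hc⟩

open scoped Classical in
/-- control along simple paths -/
theorem tPTH : StPTH := by
  intro α r X cost V x₀ h0 hV0 hV hc hX hs y hy
  have bd : ∀ (s : Finset α), (∀ x ∈ s, V x ∧ X x ≤ 2 * X x₀) →
      Real.exp (∑ x ∈ s, cost x) * X x₀ ≤ 2 * X x₀ := by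
    intro s h
    refine mul_le_mul_of_nonneg_right ?_ h0
    calc Real.exp (∑ x ∈ s, cost x) ≤ Real.exp (Real.log 2) := Real.exp_le_exp.2 (hs s h)
      _ = 2 := Real.exp_log (by norm_num)
  have key : ∀ (s : Finset α) (z : α), SP_PTH r x₀ s z →
      z ∉ s ∧ V z ∧ (∀ x ∈ s, V x ∧ X x ≤ 2 * X x₀) ∧
        X z ≤ Real.exp (∑ x ∈ s, cost x) * X x₀ := by
    intro s z h
    induction h with
    | nil => simp [hV0]
    | @step s y z _ hr hz ih =>
      obtain ⟨i1, i2, i3, i4⟩ := ih
      refine ⟨hz, hV _ _ i2 hr, ?_, ?_⟩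
      · intro x hx
        rcases Finset.mem_insert.1 hx with rfl | hx
        · exact ⟨i2, i4.trans (bd s i3)⟩
        · exact i3 x hx
      · rw [Finset.sum_insert i1, Real.exp_add, mul_assoc]
        exact (hX _ _ i2 hr).trans (mul_le_mul_of_nonneg_left i4 (Real.exp_pos _).le)
  obtain ⟨s, hsy⟩ := ex_PTH hy
  obtain ⟨_, _, k3, k4⟩ := key s y hsy
  exact k4.trans (bd s k3)

end Pool.Agent.Helper82.HC
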