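import Pool.Agent.Helper82.HC.St

set_option autoImplicit false

namespace Pool.Agent.Helper82.HC

open Set Pool.Agent.Helper82.HG

theorem tSEP : StSEP := by
  intro B u L σ hσ hL hB hsep
  have hmap : ∀ x ∈ B, ⌊(x - u) / σ⌋₊ ∈ Finset.range (⌊L / σ⌋₊ + 1) := by
    intro x hx
    rw [Finset.mem_range, Nat.lt_succ_iff]
    apply Nat.floor_le_floor
    apply div_le_div_of_nonneg_right _ hσ.le
    linarith [(hB x hx).2]
  have hno : ∀ b : ℕ, ∀ x ∈ B, ∀ y ∈ B, ∀ z ∈ B, ⌊(x - u) / σ⌋₊ = b → ⌊(z - u) / σ⌋₊ = b →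
      x < y → y < z → False := by
    intro b x hx y hy z hz hxb hzb hxy hyz
    have h1 := hsep x hx y hy z hz hxy hyz
    have h2 : (b : ℝ) ≤ (x - u) / σ := by
      rw [← hxb]
      apply Nat.floor_le
      apply div_nonneg _ hσ.le
      linarith [(hB x hx).1]
    have h3 : (z - u) / σ < b + 1 := by
      rw [← hzb]
      exact Nat.lt_floor_add_one _
    have h4 : (z - x) / σ < 1 := by
      have : (z - x) / σ = (z - u) / σ - (x - u) / σ := by ring
      linarith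
    rw [div_lt_one hσ] at h4
    linarith
  have hfib : ∀ b ∈ Finset.range (⌊L / σ⌋₊ + 1), (B.filter (fun x => ⌊(x - u) / σ⌋₊ = b)).card ≤ 2 := by
    intro b _
    by_contra hcon
    rw [not_le, Finset.two_lt_card] at hcon
    obtain ⟨x, hx, y, hy, z, hz, hxy, hxz, hyz⟩ := hcon
    rw [Finset.mem_filter] at hx hy hz
    rcases lt_or_gt_of_ne hxy with h1 | h1 <;> rcases lt_or_gt_of_ne hxz with h2 | h2 <;>
      rcases lt_or_gt_of_ne hyz with h3 | h3
    · exact hno b x hx.1 y hy.1 z hz.1 hx.2 hz.2 h1 h3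
    · exact hno b x hx.1 z hz.1 y hy.1 hx.2 hy.2 h2 h3
    · linarith
    · exact hno b z hz.1 x hx.1 y hy.1 hz.2 hy.2 h2 h1
    · exact hno b y hy.1 x hx.1 z hz.1 hy.2 hz.2 h1 h2
    · linarith
    · exact hno b y hy.1 z hz.1 x hx.1 hy.2 hx.2 h3 h2
    · exact hno b z hz.1 y hy.1 x hx.1 hz.2 hx.2 h3 h1
  have h1 := Finset.card_le_mul_card_image_of_maps_to hmap 2 hfib
  rw [Finset.card_range] at h1
  have h2 : (B.card : ℝ) ≤ 2 * ((⌊L / σ⌋₊ : ℝ) + 1) := by exact_mod_cast h1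
  have h3 : (⌊L / σ⌋₊ : ℝ) ≤ L / σ := Nat.floor_le (div_nonneg hL hσ.le)
  linarith

end Pool.Agent.Helper82.HC
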