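import Pool.Agent.Helper82.HC.St

/-! Project HC, module STP: all translates are reached by steps. -/

set_option autoImplicit false

namespace Pool.Agent.Helper82.HC

open Set Pool.Agent.Helper82.HG

private def Ord_STP (P : (ℝ × ℝ) × (ℝ × ℝ)) : Prop :=
  P.1.1 < P.1.2 ∧ P.1.2 ≤ P.2.1 ∧ P.2.1 < P.2.2

private noncomputable def sh_STP (n : ℤ) (P : (ℝ × ℝ) × (ℝ × ℝ)) : (ℝ × ℝ) × (ℝ × ℝ) :=
  ((P.1.1 + n, P.1.2 + n), (P.2.1 + n, P.2.2 + n))

private theorem nrm_eq_STP (P : (ℝ × ℝ) × (ℝ × ℝ)) : nrm P = sh_STP (-⌊P.1.1⌋) P := by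
  unfold nrm sh_STP
  push_cast
  simp only [sub_eq_add_neg]

private theorem nrm_sh_STP (n : ℤ) (P : (ℝ × ℝ) × (ℝ × ℝ)) : nrm (sh_STP n P) = nrm P := by
  unfold nrm sh_STP
  simp only [Int.floor_add_intCast]
  push_cast
  ext <;> simp only <;> ring

private theorem pact_mono_STP {g : Equiv.Perm ℝ} (hg : StrictMono g) {P : (ℝ × ℝ) × (ℝ × ℝ)}
    (hP : Ord_STP P) : pact g P = ((g P.1.1, g P.1.2), (g P.2.1, g P.2.2)) := by
  obtain ⟨h1, h2, h3⟩ := hP
  unfold pact sact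
  rw [if_pos (hg (lt_of_lt_of_le h1 h2)), min_eq_left (hg h1).le, max_eq_right (hg h1).le,
    min_eq_left (hg h3).le, max_eq_right (hg h3).le]

private theorem pact_anti_STP {g : Equiv.Perm ℝ} (hg : StrictAnti g) {P : (ℝ × ℝ) × (ℝ × ℝ)}
    (hP : Ord_STP P) : pact g P = ((g P.2.2, g P.2.1), (g P.1.2, g P.1.1)) := by
  obtain ⟨h1, h2, h3⟩ := hP
  unfold pact sact
  rw [if_neg (not_lt.2 (hg (lt_of_lt_of_le h1 h2)).le), min_eq_right (hg h1).le,
    max_eq_left (hg h1).le, min_eq_right (hg h3).le, max_eq_left (hg h3).le]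

private theorem ord_pact_STP {g : Equiv.Perm ℝ} (hg : StrictMono g ∨ StrictAnti g)
    {P : (ℝ × ℝ) × (ℝ × ℝ)} (hP : Ord_STP P) : Ord_STP (pact g P) := by
  rcases hg with hg | hg
  · rw [pact_mono_STP hg hP]
    exact ⟨hg hP.1, hg.monotone hP.2.1, hg hP.2.2⟩
  · rw [pact_anti_STP hg hP]
    exact ⟨hg hP.2.2, hg.antitone hP.2.1, hg hP.1⟩

private theorem pact_mul_STP {g h : Equiv.Perm ℝ} (hg : StrictMono g ∨ StrictAnti g)
    (hh : StrictMono h ∨ StrictAnti h) {P : (ℝ × ℝ) × (ℝ × ℝ)} (hP : Ord_STP P) :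
    pact (g * h) P = pact g (pact h P) := by
  have hQ := ord_pact_STP hh hP
  rcases hg with hg | hg
  · rw [pact_mono_STP hg hQ]
    rcases hh with hh | hh
    · have h1 : StrictMono (⇑(g * h)) := fun x y hxy => hg (hh hxy)
      rw [pact_mono_STP h1 hP, pact_mono_STP hh hP]
      rfl
    · have h1 : StrictAnti (⇑(g * h)) := fun x y hxy => hg (hh hxy)
      rw [pact_anti_STP h1 hP, pact_anti_STP hh hP]
      rfl
  · rw [pact_anti_STP hg hQ]
    rcases hh with hh | hh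
    · have h1 : StrictAnti (⇑(g * h)) := fun x y hxy => hg (hh hxy)
      rw [pact_anti_STP h1 hP, pact_mono_STP hh hP]
      rfl
    · have h1 : StrictMono (⇑(g * h)) := fun x y hxy => hg (hh hxy)
      rw [pact_mono_STP h1 hP, pact_anti_STP hh hP]
      rfl

private theorem int_STP {g : Equiv.Perm ℝ} {d : ℝ} (hd : d = 1 ∨ d = -1)
    (hg : ∀ x, g (x + 1) = g x + d) (n : ℤ) : ∃ m : ℤ, ∀ x, g (x + n) = g x + m := by
  obtain ⟨e, he⟩ : ∃ e : ℤ, d = e := by
    rcases hd with hd | hd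
    · exact ⟨1, by rw [hd]; simp⟩
    · exact ⟨-1, by rw [hd]; simp⟩
  refine ⟨n * e, ?_⟩
  induction n using Int.induction_on with
  | zero => intro x; simp
  | succ n ih =>
    intro x
    have h1 := ih x
    have h2 := hg (x + ((n : ℤ) : ℝ))
    rw [he] at h2
    push_cast at h1 h2 ⊢
    rw [← add_assoc, h2, h1]
    ring
  | pred n ih =>
    intro x
    have h1 := ih x
    have h2 := hg (x + ((-(n : ℤ) - 1 : ℤ) : ℝ))
    rw [he] at h2
    push_cast at h1 h2 ⊢
    have h3 : x + (-(n : ℝ) - 1) + 1 = x + -(n : ℝ) := by ring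
    rw [h3, h1] at h2
    linarith

private theorem pact_sh_STP {g : Equiv.Perm ℝ} (hg : StrictMono g ∨ StrictAnti g) {d : ℝ}
    (hd : d = 1 ∨ d = -1) (hg1 : ∀ x, g (x + 1) = g x + d) (n : ℤ)
    {P : (ℝ × ℝ) × (ℝ × ℝ)} (hP : Ord_STP P) :
    ∃ m : ℤ, pact g (sh_STP n P) = sh_STP m (pact g P) := by
  obtain ⟨m, hm⟩ := int_STP hd hg1 n
  refine ⟨m, ?_⟩
  have hQ : Ord_STP (sh_STP n P) := by
    obtain ⟨h1, h2, h3⟩ := hP
    exact ⟨by simpa [sh_STP] using h1, by simpa [sh_STP] using h2, by simpa [sh_STP] using h3⟩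
  rcases hg with hg | hg
  · rw [pact_mono_STP hg hQ, pact_mono_STP hg hP]
    unfold sh_STP
    simp only [hm]
  · rw [pact_anti_STP hg hQ, pact_anti_STP hg hP]
    unfold sh_STP
    simp only [hm]

private theorem T_app_STP (x : ℝ) : T x = x + 1 := rfl

private theorem Tinv_app_STP (x : ℝ) : T⁻¹ x = x - 1 := by
  have h : T (x - 1) = x := by rw [T_app_STP]; ring
  calc T⁻¹ x = T⁻¹ (T (x - 1)) := by rw [h]
    _ = x - 1 := Equiv.symm_apply_apply T (x - 1)

theorem tSTP : StBAS → StACT → StSTP := by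
  intro hB _ K S Λ hS _ P hPP g hg
  have hP : Ord_STP P := ⟨hPP.1.1, hPP.2.2.1, hPP.2.1.1⟩
  have hm : ∀ h ∈ Gr S, StrictMono h ∨ StrictAnti h := fun h hh => (hB K S hS h hh).2.2.1
  have hstep : ∀ y ∈ Gr S, ∀ s ∈ S, Relation.ReflTransGen (Stp S) (nrm P) (nrm (pact y P)) →
      Relation.ReflTransGen (Stp S) (nrm P) (nrm (pact (s * y) P)) := by
    intro y hy s hs h
    refine h.tail ⟨s, hs, ?_⟩
    have hsG : s ∈ Gr S := Subgroup.subset_closure (Set.mem_insert_of_mem _ hs)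
    obtain ⟨-, -, hsm, d, hd, hsd⟩ := hB K S hS s hsG
    rw [pact_mul_STP hsm (hm y hy) hP, nrm_eq_STP (pact y P)]
    obtain ⟨m, e⟩ := pact_sh_STP hsm hd hsd (-⌊(pact y P).1.1⌋) (ord_pact_STP (hm y hy) hP)
    rw [e, nrm_sh_STP]
  have hT : StrictMono T := fun x y hxy => by rw [T_app_STP, T_app_STP]; linarith
  have hT' : StrictMono (⇑(T⁻¹ : Equiv.Perm ℝ)) := fun x y hxy => by rw [Tinv_app_STP, Tinv_app_STP]; linarith
  unfold Gr at hg
  induction hg using Subgroup.closure_induction_left with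
  | one =>
    have h1 : StrictMono (⇑(1 : Equiv.Perm ℝ)) := fun x y hxy => hxy
    rw [pact_mono_STP h1 hP]
    exact Relation.ReflTransGen.refl
  | mul_left x hx y hy ih =>
    rcases Set.mem_insert_iff.1 hx with rfl | hx
    · have e : nrm (pact (T * y) P) = nrm (pact y P) := by
        rw [pact_mul_STP (Or.inl hT) (hm y hy) hP,
          pact_mono_STP hT (ord_pact_STP (hm y hy) hP)]
        have h2 := nrm_sh_STP 1 (pact y P)
        unfold sh_STP at h2
        simp only [Int.cast_one] at h2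
        exact h2
      rw [e]
      exact ih
    · exact hstep y hy x hx ih
  | inv_mul_cancel x hx y hy ih =>
    rcases Set.mem_insert_iff.1 hx with rfl | hx
    · have e : nrm (pact (T⁻¹ * y) P) = nrm (pact y P) := by
        rw [pact_mul_STP (Or.inl hT') (hm y hy) hP,
          pact_mono_STP hT' (ord_pact_STP (hm y hy) hP)]
        have h2 := nrm_sh_STP (-1) (pact y P)
        unfold sh_STP at h2
        simp only [Int.cast_neg, Int.cast_one, ← sub_eq_add_neg] at h2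
        simp only [Tinv_app_STP]
        exact h2
      rw [e]
      exact ih
    · exact hstep y hy x⁻¹ (hS.inv x hx) ih

end Pool.Agent.Helper82.HC
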