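import Pool.Agent.Helper82.HC.St

/-!
# MP_10ef18_an, project HC, module SUM (helper28)
-/

set_option autoImplicit false

namespace Pool.Agent.Helper82.HC

open Set Pool.Agent.Helper82.HG

private lemma cost_SUM (Λ : Set ℝ) (G : Set (ℝ × ℝ)) (w : ℝ × ℝ → ℝ) (F0 : ℝ) (om : ℝ → ℝ)
    (hS : Sepd Λ G w F0) (hM : Modulus om) (P : (ℝ × ℝ) × (ℝ × ℝ)) (h1 : P.1 ∈ G) (h2 : P.2 ∈ G)
    (hP : IsPair Λ P)
    (hmin : (mid P + min (P.1.2 - P.1.1) (P.2.2 - P.2.1)) * span P ≤
        18 * (F0 * Real.sqrt (w P.1 * w P.2)) ^ 2) :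
    eps om P.1.1 P.1.2 P.2.1 P.2.2 ≤
      36 * (om (F0 * Real.sqrt (w P.1 * w P.2)) * (F0 * Real.sqrt (w P.1 * w P.2))) := by
  set t := F0 * Real.sqrt (w P.1 * w P.2) with ht
  have hF := hS.pos
  have hw1 := hS.w0 P.1 h1
  have hw2 := hS.w0 P.2 h2
  have htpos : 0 < t := mul_pos hF (Real.sqrt_pos.mpr (mul_pos hw1 hw2))
  obtain ⟨g1, g2, hab, hd⟩ := hP
  have hca := g1.1
  have hbd := g2.1
  have hspan : 0 < span P := by unfold span; linarith
  have htle : t ≤ span P := hS.sep P.1 h1 P.2 h2 hab hd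
  have hq := hM.quot t (span P) htpos htle
  have homt : 0 < om t := lt_of_lt_of_le htpos (hM.lin t htpos)
  have homs : 0 < om (span P) := lt_of_lt_of_le hspan (hM.lin _ hspan)
  set X := mid P + min (P.1.2 - P.1.1) (P.2.2 - P.2.1) with hX
  have hX0 : 0 ≤ X := by
    have : 0 ≤ mid P := by unfold mid; linarith
    have h3 : 0 ≤ min (P.1.2 - P.1.1) (P.2.2 - P.2.1) := le_min (by linarith) (by linarith)
    linarith
  have heps : eps om P.1.1 P.1.2 P.2.1 P.2.2 = om (span P) * X := rfl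
  rw [heps]
  have hpos : 0 < t * span P := mul_pos htpos hspan
  have key : (om (span P) * X) * (t * span P) ≤ (36 * (om t * t)) * (t * span P) := by
    calc (om (span P) * X) * (t * span P) = (om (span P) * t) * (X * span P) := by ring
      _ ≤ (2 * (om t * span P)) * (18 * t ^ 2) := by
          apply mul_le_mul hq hmin
          · exact mul_nonneg hX0 hspan.le
          · positivity
      _ = (36 * (om t * t)) * (t * span P) := by ring
  exact le_of_mul_le_mul_right key hpos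

theorem tSUM : StCLS → StSUM := by
  intro hCLS Λ G w F0 K om hS hM hK hsum s hs
  classical
  have hpq : ∀ u ∈ G, ∃ p : ℕ, (1 / 4 : ℝ) ^ (p + 1) < w u ∧ w u ≤ (1 / 4) ^ p := fun u hu =>
    exists_nat_pow_near_of_lt_one (hS.w0 u hu) (hS.w1 u hu) (by norm_num) (by norm_num)
  choose! pp hpp using hpq
  have hF := hS.pos
  have hFk : ∀ k : ℕ, 0 < F0 * (1 / 2 : ℝ) ^ k := fun k => by positivity
  have hg0 : ∀ k : ℕ, 0 < om (F0 * (1 / 2 : ℝ) ^ k) := fun k =>
    lt_of_lt_of_le (hFk k) (hM.lin _ (hFk k))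
  -- the bound of `t`
  have htb : ∀ P ∈ s, F0 * Real.sqrt (w P.1 * w P.2) ≤ F0 * (1 / 2) ^ (pp P.1 + pp P.2) := by
    intro P hP
    obtain ⟨h1, h2, -⟩ := hs P hP
    apply mul_le_mul_of_nonneg_left _ hF.le
    rw [Real.sqrt_le_left (by positivity)]
    calc w P.1 * w P.2 ≤ (1 / 4) ^ pp P.1 * (1 / 4) ^ pp P.2 :=
          mul_le_mul (hpp _ h1).2 (hpp _ h2).2 (hS.w0 _ h2).le (by positivity)
      _ = ((1 / 2) ^ (pp P.1 + pp P.2)) ^ 2 := by
          rw [← pow_add, ← pow_mul, mul_comm, pow_mul]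
          norm_num
  -- the cost of a member
  set f : (ℝ × ℝ) × (ℝ × ℝ) → ℕ × ℕ := fun P => (pp P.1, pp P.2) with hf
  set c : ℕ × ℕ → ℝ := fun x =>
    K * (36 * (om (F0 * (1 / 2) ^ (x.1 + x.2)) * (F0 * (1 / 2) ^ (x.1 + x.2)))) with hc
  have hcost : ∀ P ∈ s, K * eps om P.1.1 P.1.2 P.2.1 P.2.2 ≤ c (f P) := by
    intro P hP
    obtain ⟨h1, h2, h3, h4, h5, h6, h7⟩ := hs P hP
    apply mul_le_mul_of_nonneg_left _ hK
    refine (cost_SUM Λ G w F0 om hS hM P h1 h2 h3 h7).trans ?_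
    have htpos : 0 < F0 * Real.sqrt (w P.1 * w P.2) :=
      mul_pos hF (Real.sqrt_pos.mpr (mul_pos (hS.w0 _ h1) (hS.w0 _ h2)))
    have hle := htb P hP
    apply mul_le_mul_of_nonneg_left _ (by norm_num)
    exact mul_le_mul (hM.mono _ _ htpos hle) hle htpos.le (hg0 _).le
  -- the number of members in a class
  have hcard : ∀ x : ℕ × ℕ, ((s.filter (fun P => f P = x)).card : ℝ) ≤
      500 * (2 ^ (x.1 + x.2) / F0) := by
    intro x
    apply hCLS Λ G w F0 hS x.1 x.2
    intro P hP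
    rw [Finset.mem_filter] at hP
    obtain ⟨hPs, hfP⟩ := hP
    obtain ⟨h1, h2, h3, h4, h5, h6, h7⟩ := hs P hPs
    have e1 : pp P.1 = x.1 := congrArg Prod.fst hfP
    have e2 : pp P.2 = x.2 := congrArg Prod.snd hfP
    refine ⟨h1, h2, h3, h4, h5, ?_, ?_, ?_⟩
    · rw [← e1]; exact (hpp _ h1).1.le
    · rw [← e2]; exact (hpp _ h2).1.le
    · rw [← e1, ← e2]
      have := htb P hPs
      linarith
  have hclass : ∀ x : ℕ × ℕ, ((s.filter (fun P => f P = x)).card : ℝ) * c x ≤
      18000 * K * om (F0 * (1 / 2) ^ (x.1 + x.2)) := by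
    intro x
    have hcx : 0 ≤ c x := by
      have := (hg0 (x.1 + x.2)).le
      have := (hFk (x.1 + x.2)).le
      positivity
    calc ((s.filter (fun P => f P = x)).card : ℝ) * c x
        ≤ (500 * (2 ^ (x.1 + x.2) / F0)) * c x := mul_le_mul_of_nonneg_right (hcard x) hcx
      _ = 18000 * K * om (F0 * (1 / 2) ^ (x.1 + x.2)) * (2 ^ (x.1 + x.2) * (1 / 2) ^ (x.1 + x.2)) := by
          simp only [hc]
          field_simp
          ring
      _ = 18000 * K * om (F0 * (1 / 2) ^ (x.1 + x.2)) := by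
          rw [← mul_pow]; norm_num
  set I := s.image f with hI
  set J := I.image (fun x : ℕ × ℕ => x.1 + x.2) with hJ
  calc ∑ P ∈ s, K * eps om P.1.1 P.1.2 P.2.1 P.2.2 ≤ ∑ P ∈ s, c (f P) := Finset.sum_le_sum hcost
    _ = ∑ x ∈ I, ∑ P ∈ s.filter (fun P => f P = x), c (f P) :=
        (Finset.sum_fiberwise_of_maps_to (fun P hP => Finset.mem_image_of_mem f hP) _).symm
    _ = ∑ x ∈ I, ((s.filter (fun P => f P = x)).card : ℝ) * c x := by
        apply Finset.sum_congr rfl
        intro x _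
        rw [← nsmul_eq_mul]
        apply Finset.sum_eq_card_nsmul
        intro P hP
        rw [(Finset.mem_filter.mp hP).2]
    _ ≤ ∑ x ∈ I, 18000 * K * om (F0 * (1 / 2) ^ (x.1 + x.2)) :=
        Finset.sum_le_sum fun x _ => hclass x
    _ = ∑ k ∈ J, ∑ x ∈ I.filter (fun x => x.1 + x.2 = k),
          18000 * K * om (F0 * (1 / 2) ^ (x.1 + x.2)) :=
        (Finset.sum_fiberwise_of_maps_to (fun x hx => Finset.mem_image_of_mem _ hx) _).symm
    _ ≤ ∑ k ∈ J, 18000 * K * (((k : ℝ) + 1) * om (F0 * (1 / 2) ^ k)) := by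
        apply Finset.sum_le_sum
        intro k _
        have e : ∑ x ∈ I.filter (fun x => x.1 + x.2 = k),
            18000 * K * om (F0 * (1 / 2) ^ (x.1 + x.2)) =
            ((I.filter (fun x => x.1 + x.2 = k)).card : ℝ) * (18000 * K * om (F0 * (1 / 2) ^ k)) := by
          rw [← nsmul_eq_mul]
          apply Finset.sum_eq_card_nsmul
          intro x hx
          rw [(Finset.mem_filter.mp hx).2]
        rw [e]
        have hsub : I.filter (fun x => x.1 + x.2 = k) ⊆ Finset.HasAntidiagonal.antidiagonal k := by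
          intro x hx
          exact Finset.HasAntidiagonal.mem_antidiagonal.mpr (Finset.mem_filter.mp hx).2
        have hcd : ((I.filter (fun x => x.1 + x.2 = k)).card : ℝ) ≤ (k : ℝ) + 1 := by
          have := Finset.card_le_card hsub
          rw [Finset.Nat.card_antidiagonal] at this
          exact_mod_cast this
        have h0 : 0 ≤ 18000 * K * om (F0 * (1 / 2) ^ k) := by
          have := (hg0 k).le
          positivity
        calc _ ≤ ((k : ℝ) + 1) * (18000 * K * om (F0 * (1 / 2) ^ k)) :=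
              mul_le_mul_of_nonneg_right hcd h0
          _ = _ := by ring
    _ = 18000 * K * ∑ k ∈ J, ((k : ℝ) + 1) * om (F0 * (1 / 2) ^ k) := by
        rw [Finset.mul_sum]
    _ ≤ 18000 * K * ∑' k : ℕ, ((k : ℝ) + 1) * om (F0 * (1 / 2) ^ k) := by
        apply mul_le_mul_of_nonneg_left _ (by positivity)
        apply hsum.sum_le_tsum
        intro k _
        have := (hg0 k).le
        positivity

end Pool.Agent.Helper82.HC
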