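import Pool.Agent.Helper82.HC.St

/-!
# Project HC, module TAIL: tail of a summable series
-/

set_option autoImplicit false

namespace Pool.Agent.Helper82.HC

open Set Pool.Agent.Helper82.HG

theorem tTAIL : StTAIL := by
  intro om hom ε hε
  set f : ℕ → ℝ := fun k => ((k : ℝ) + 1) * om ((1 / 2) ^ k) with hf
  have hlim : Filter.Tendsto (fun i => ∑' k, f (k + i)) Filter.atTop (nhds 0) :=
    tendsto_sum_nat_add f
  obtain ⟨k₀, hk₀⟩ := ((hlim.eventually (ge_mem_nhds hε)).exists)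
  have hshift : Summable (fun k => f (k + k₀)) := (summable_nat_add_iff k₀).2 hom.sum
  refine ⟨(1 / 2) ^ k₀, by positivity, pow_le_one₀ (by norm_num) (by norm_num), ?_⟩
  intro F0 hF0 hF0'
  have hnonneg : ∀ t : ℝ, 0 < t → 0 ≤ om t := fun t ht => ht.le.trans (hom.lin t ht)
  have hle : ∀ k : ℕ, ((k : ℝ) + 1) * om (F0 * (1 / 2) ^ k) ≤ f (k + k₀) := by
    intro k
    have h1 : F0 * (1 / 2 : ℝ) ^ k ≤ (1 / 2) ^ (k + k₀) := by
      rw [pow_add, mul_comm ((1 / 2 : ℝ) ^ k)]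
      exact mul_le_mul_of_nonneg_right hF0' (by positivity)
    have h2 : 0 < F0 * (1 / 2 : ℝ) ^ k := by positivity
    have h3 := hom.mono _ _ h2 h1
    have h4 : ((k : ℝ) + 1) ≤ (((k + k₀ : ℕ) : ℝ) + 1) := by
      push_cast
      have : (0 : ℝ) ≤ (k₀ : ℝ) := Nat.cast_nonneg _
      linarith
    rw [hf]
    exact mul_le_mul h4 h3 (hnonneg _ h2) (by positivity)
  have h0 : ∀ k : ℕ, 0 ≤ ((k : ℝ) + 1) * om (F0 * (1 / 2) ^ k) := by
    intro k
    exact mul_nonneg (by positivity) (hnonneg _ (by positivity))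
  have hs : Summable fun k : ℕ => ((k : ℝ) + 1) * om (F0 * (1 / 2) ^ k) :=
    Summable.of_nonneg_of_le h0 hle hshift
  refine ⟨hs, ?_⟩
  exact (hs.tsum_le_tsum hle hshift).trans hk₀

end Pool.Agent.Helper82.HC
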