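import Pool.Agent.Helper82.HC.St

/-!
# MP_10ef18_an (Hector), project HC, module WGT: supremum of lengths over an orbit
-/

set_option autoImplicit false

namespace Pool.Agent.Helper82.HC

open Set Pool.Agent.Helper82.HG

private theorem sact_len_WGT (g : Equiv.Perm ℝ) (u : ℝ × ℝ) :
    (sact g u).2 - (sact g u).1 = len (act g u) := by
  simp only [sact, len, act]
  rw [abs_sub_comm]
  exact max_sub_min_eq_abs' (g u.1) (g u.2) |>.trans (abs_sub_comm _ _)

private theorem len_sact_WGT (h g : Equiv.Perm ℝ) (u : ℝ × ℝ) :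
    len (act h (sact g u)) = len (act (h * g) u) := by
  simp only [sact, len, act, Equiv.Perm.mul_apply]
  rcases le_total (g u.1) (g u.2) with hle | hle
  · rw [min_eq_left hle, max_eq_right hle]
  · rw [min_eq_right hle, max_eq_left hle, abs_sub_comm]

theorem tWGT : StBAS → StLAM → StWGT := by
  intro _ hlam K S Λ hG hL u hu
  obtain ⟨-, -, -, -, -, hf, hg, -⟩ := hlam K S Λ hG hL
  have hle1 : ∀ g ∈ Gr S, len (act g u) ≤ 1 := by
    intro g hgS
    have := hf _ _ (hg u.1 u.2 hu g hgS)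
    rw [← sact_len_WGT]
    exact this
  have hbdd : BddAbove {t | ∃ g ∈ Gr S, t = len (act g u)} := by
    refine ⟨1, ?_⟩
    rintro t ⟨g, hgS, rfl⟩
    exact hle1 g hgS
  have hone : len (act 1 u) = u.2 - u.1 := by
    simp only [len, act, Equiv.Perm.one_apply]
    rw [abs_sub_comm, abs_of_pos (sub_pos.mpr hu.1)]
  have hmem : u.2 - u.1 ∈ {t | ∃ g ∈ Gr S, t = len (act g u)} :=
    ⟨1, Subgroup.one_mem _, hone.symm⟩
  have hge : u.2 - u.1 ≤ W S u := le_csSup hbdd hmem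
  have hpos : 0 < W S u := lt_of_lt_of_le (sub_pos.mpr hu.1) hge
  refine ⟨hpos, ?_, hge, ?_, ?_⟩
  · refine csSup_le ⟨_, hmem⟩ ?_
    rintro t ⟨g, hgS, rfl⟩
    exact hle1 g hgS
  · intro g hgS
    unfold W
    congr 1
    ext t
    constructor
    · rintro ⟨h, hh, rfl⟩
      exact ⟨h * g, Subgroup.mul_mem _ hh hgS, len_sact_WGT h g u⟩
    · rintro ⟨h, hh, rfl⟩
      refine ⟨h * g⁻¹, Subgroup.mul_mem _ hh (Subgroup.inv_mem _ hgS), ?_⟩
      rw [len_sact_WGT, inv_mul_cancel_right]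
  · have hlt : W S u / 2 < W S u := by linarith
    obtain ⟨t, ⟨g, hgS, rfl⟩, ht⟩ := exists_lt_of_lt_csSup ⟨_, hmem⟩ hlt
    refine ⟨g, hgS, ?_⟩
    rw [sact_len_WGT]
    linarith

end Pool.Agent.Helper82.HC
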