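import Pool.Agent.Helper82.HG.St2

/-!
# MP_10ef18_an (Hector), project HC: the conjecture for `C²` with a Dini-log modulus (`C^{2+α}`)

Paper proof: /team-store/MP_10ef18-C2alpha-proof82.md. Each `StXX : Prop` is proved in the module
`Pool/Agent/Helper82/HC/M_XX.lean` as `theorem tXX : StXX` (or `theorem tXX : StYY → StXX`, see the
docstring). Definitions `T`, `Nice`, `Gr`, `Gens`, `Lam`, `Gap`, `len`, `act` are those of
`Pool.Agent.Helper82.HG.Defs`; the statements `StBAS`, `StLAM` of `Pool.Agent.Helper82.HG.St` are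
proved (`tBAS`, `tLAM` in `HG/M_BAS`, `HG/M_LAM`) and may be used.
-/

set_option autoImplicit false

namespace Pool.Agent.Helper82.HC

open Set Pool.Agent.Helper82.HG

/-- a modulus `om` (in the application `om t = ω₀ t + t`, `ω₀` the modulus of continuity of the second
derivatives of the generators) -/
structure Modulus (om : ℝ → ℝ) : Prop where
  lin : ∀ t, 0 < t → t ≤ om t
  mono : ∀ s t, 0 < s → s ≤ t → om s ≤ om t
  quot : ∀ s t, 0 < s → s ≤ t → om t * s ≤ 2 * (om s * t)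
  sum : Summable fun k : ℕ => ((k : ℝ) + 1) * om ((1 / 2) ^ k)

/-- the size of the distortion of a quadruple -/
noncomputable def eps (om : ℝ → ℝ) (c a b d : ℝ) : ℝ :=
  om (d - c) * ((b - a) + min (a - c) (d - b))

/-- cross ratio distortion of one map -/
def Dist (K : ℝ) (om : ℝ → ℝ) (s : ℝ → ℝ) : Prop :=
  ∀ c a b d : ℝ, c < a → a ≤ b → b < d → d ≤ c + 1 →
    |s b - s a| * |s d - s c| * ((a - c) * (d - b)) ≤
      Real.exp (K * eps om c a b d) * (|s a - s c| * |s d - s b| * ((b - a) * (d - c)))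

/-- the reverse inequality -/
def DistR (K : ℝ) (om : ℝ → ℝ) (s : ℝ → ℝ) : Prop :=
  ∀ c a b d : ℝ, c < a → a ≤ b → b < d → d ≤ c + 1 →
    |s a - s c| * |s d - s b| * ((b - a) * (d - c)) ≤
      Real.exp (K * eps om c a b d) * (|s b - s a| * |s d - s c| * ((a - c) * (d - b)))

/-- MODULE DIS (`theorem tDIS : StDIS`). Cross ratio distortion of a `C²` function.
PROOF. If `a = b` both sides of both inequalities are `0`. Let `a < b`. The derivative does not vanish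
and is continuous, so `f` is strictly monotone; replacing `f` by `-f` (same hypotheses, same
inequalities) `deriv f ≥ m`. By the symmetry `x ↦ -x`, `(c,a,b,d) ↦ (-d,-b,-a,-c)` (or by an analogous
computation) we may assume `d - b ≤ a - c`; let `l = d - a = (b-a) + min`, `t = d - c ≤ 1`, so
`eps = om t * l`. Put `R x = f x - f a - f' a (x-a) - f'' a (x-a)^2/2`,
`|R' x| = |f' x - f' a - f'' a (x-a)| ≤ |x-a| om |x-a|` (mean value theorem for `f'` and the hypothesis,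
`mono`), hence for `x, y` with `|x-a|, |y-a| ≤ r` : `|R x - R y| ≤ r om r |x-y|`. Slopes
`m_xy = (f x - f y)/(x-y) = f' a + f'' a ((x-a)+(y-a))/2 + r_xy`. Then
`|m_bd - m_ab - f'' a l/2| ≤ 2 l om l`, and
`m_cd - m_ca = f'' a l/2 + r_cd - r_ca`, `r_cd - r_ca = R d/(d-c) + R c l/((d-c)(a-c))`, so
`|m_cd - m_ca - f'' a l/2| ≤ 2 l om t`. Also `|m_ab - m_ca| ≤ M t ≤ M om t`, all `m_xy ∈ [m, M]`. So
`|m_ab m_cd - m_ca m_bd| ≤ (M²/2 + 4 M) l om t`, and dividing by `m_ca m_bd ≥ m²` (respectively by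
`m_ab m_cd ≥ m²`) and `1 + x ≤ exp x` one gets both inequalities with `K = (M² + 4 M)/m²`. -/
def StDIS : Prop :=
  ∀ (f om : ℝ → ℝ) (m M : ℝ), Differentiable ℝ f → Differentiable ℝ (deriv f) → 0 < m →
    (∀ x, m ≤ |deriv f x|) → (∀ x, |deriv f x| ≤ M) → (∀ x, |deriv (deriv f) x| ≤ M) →
    (∀ t, 0 < t → t ≤ om t) → (∀ s t, 0 < s → s ≤ t → om s ≤ om t) →
    (∀ x y, x ≠ y → |deriv (deriv f) x - deriv (deriv f) y| ≤ om |x - y|) →
    ∃ K : ℝ, 0 ≤ K ∧ Dist K om f ∧ DistR K om f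

/-- MODULE GEN (`theorem tGEN : StDIS → StGEN`). The generating set.
PROOF. `S = {F i} ∪ {(F i)⁻¹}` as in `HG/M_LIP.lean` (copy `nice_map`, the group equality). Let
`D i x = deriv (deriv (F i)) x = iteratedDeriv 2 (F i) x`, continuous of period one (`F i (x+1) = F i x + d`),
hence bounded by `M`. `ω₀ t = sSup ({0} ∪ {|D i x - D i y| : i, |x - y| ≤ t})`, `om t = ω₀ t + t`.
`ω₀` is monotone, `0 ≤ ω₀ ≤ 2M`, `ω₀ t ≤ max 0 (ω t)` (if `0 ≤ t`), and `ω₀ (n s) ≤ n ω₀ s` (subdivide the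
segment between `x` and `y` into `n` equal pieces), so for `s ≤ t`, with `n = ⌈t/s⌉ ≤ 2 t/s`,
`om t ≤ om (n s) ≤ n om s`: `quot`. `sum`: compare with `ω` and the geometric series. DIS gives the
constants `K_i` for `F i` (maximum over `i`). For `s = (F i)⁻¹` and a quadruple `(c,a,b,d)` apply
`DistR` for `F i` to the quadruple of the `s`-images (in increasing order: for decreasing `s` it is
`(s d, s b, s a, s c)`; its length is `≤ 1` because `s (c+1) = s c ± 1`): it gives `Dist` for `s` with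
`eps` of the image quadruple, which is at most `(L+1) L * eps` of the quadruple, `L ≥ 1` a bound of
`1/|deriv (F i)|` (lengths grow at most by the factor `L`, `om (L t) ≤ 2 L om t` by `quot`). -/
def StGEN : Prop :=
  ∀ (n : ℕ) (F : Fin n → Equiv.Perm ℝ),
    (∀ i, ContDiff ℝ 2 (⇑(F i))) →
    (∀ i x, deriv (⇑(F i)) x ≠ 0) →
    (∀ i, ∃ d : ℝ, (d = 1 ∨ d = -1) ∧ ∀ x : ℝ, F i (x + 1) = F i x + d) →
    (∃ ω : ℝ → ℝ, (∀ s t, 0 ≤ s → s ≤ t → ω s ≤ ω t) ∧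
      Summable (fun k : ℕ => ((k : ℝ) + 1) * ω ((1 / 2) ^ k)) ∧
      ∀ i x y, |iteratedDeriv 2 (⇑(F i)) x - iteratedDeriv 2 (⇑(F i)) y| ≤ ω |x - y|) →
    ∃ (K K' : ℝ) (om : ℝ → ℝ) (S : Set (Equiv.Perm ℝ)), 1 ≤ K ∧ Gens K S ∧ Modulus om ∧ 0 ≤ K' ∧
      (∀ s ∈ S, Dist K' om s) ∧
      Gr S = Subgroup.closure (insert (Equiv.addRight (1 : ℝ)) (Set.range F))

/-- supremum of the lengths over the orbit of a pair -/
noncomputable def W (S : Set (Equiv.Perm ℝ)) (u : ℝ × ℝ) : ℝ :=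
  sSup {t | ∃ g ∈ Gr S, t = len (act g u)}

/-- weight of a gap -/
noncomputable def wt (S : Set (Equiv.Perm ℝ)) (u : ℝ × ℝ) : ℝ := (u.2 - u.1) / W S u

/-- ordered image of a pair -/
noncomputable def sact (g : Equiv.Perm ℝ) (u : ℝ × ℝ) : ℝ × ℝ :=
  (min (g u.1) (g u.2), max (g u.1) (g u.2))

/-- MODULE WGT (`theorem tWGT : StBAS → StLAM → StWGT`).
PROOF. By StLAM (g), (f) `len (act g u) = (sact g u).2 - (sact g u).1 ∈ (0, 1]` for `g ∈ Gr S`, so the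
set in `W` is nonempty, bounded by 1 and contains `len (act 1 u) = u.2 - u.1 > 0`. Invariance:
`len (act h (sact g u)) = len (act (h * g) u)`, reindex with the group. Last claim: `W/2 < W`. -/
def StWGT : Prop :=
  ∀ (K : ℝ) (S : Set (Equiv.Perm ℝ)) (Λ : Set ℝ), Gens K S → Lam S Λ →
    ∀ u : ℝ × ℝ, Gap Λ u.1 u.2 →
      0 < W S u ∧ W S u ≤ 1 ∧ u.2 - u.1 ≤ W S u ∧ (∀ g ∈ Gr S, W S (sact g u) = W S u) ∧
      ∃ g ∈ Gr S, W S u ≤ 2 * ((sact g u).2 - (sact g u).1)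

/-- two gaps, the first one on the left, of total span less than one -/
def IsPair (Λ : Set ℝ) (P : (ℝ × ℝ) × (ℝ × ℝ)) : Prop :=
  Gap Λ P.1.1 P.1.2 ∧ Gap Λ P.2.1 P.2.2 ∧ P.1.2 ≤ P.2.1 ∧ P.2.2 < P.1.1 + 1

/-- span of a pair of gaps -/
def span (P : (ℝ × ℝ) × (ℝ × ℝ)) : ℝ := P.2.2 - P.1.1

/-- distance of the two gaps -/
def mid (P : (ℝ × ℝ) × (ℝ × ℝ)) : ℝ := P.2.1 - P.1.2

/-- the union of two orbits -/
def Orb2 (S : Set (Equiv.Perm ℝ)) (u v : ℝ × ℝ) : Set (ℝ × ℝ) :=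
  {x | ∃ g ∈ Gr S, x = sact g u ∨ x = sact g v}

/-- MODULE MIN (`theorem tMIN : StMIN`). The extremal pair.
PROOF. `F0 = sInf {span P / √(wt P.1 * wt P.2)}` over all pairs `P` with both gaps in `Orb2`. The set
is nonempty (`P₁`). Lower bound: `wt = length / W`, `W (P.i) ∈ {W u, W v}` (invariance of `W`), and
`span P ≥ (P.1.2-P.1.1) + (P.2.2-P.2.1) ≥ 2 √(product of the lengths) = 2 √(wt wt) √(W W)`, so
`F ≥ 2 min (W u) (W v) > 0`, hence `F0 > 0`, and there is a pair with value `< 2 F0`. Same estimate for this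
pair `P`: `2 √(W W) ≤ span P/√(wt wt) ≤ 2 F0`, so `W P.1 * W P.2 ≤ F0 ^ 2`. -/
def StMIN : Prop :=
  ∀ (S : Set (Equiv.Perm ℝ)) (Λ : Set ℝ) (P₁ : (ℝ × ℝ) × (ℝ × ℝ)), IsPair Λ P₁ →
    (∀ x ∈ Orb2 S P₁.1 P₁.2, Gap Λ x.1 x.2 ∧ (W S x = W S P₁.1 ∨ W S x = W S P₁.2)) →
    0 < W S P₁.1 → 0 < W S P₁.2 →
    ∃ F0 : ℝ, 0 < F0 ∧
      (∀ P, IsPair Λ P → P.1 ∈ Orb2 S P₁.1 P₁.2 → P.2 ∈ Orb2 S P₁.1 P₁.2 →
        F0 * Real.sqrt (wt S P.1 * wt S P.2) ≤ span P) ∧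
      ∃ P, IsPair Λ P ∧ P.1 ∈ Orb2 S P₁.1 P₁.2 ∧ P.2 ∈ Orb2 S P₁.1 P₁.2 ∧
        span P ≤ 2 * F0 * Real.sqrt (wt S P.1 * wt S P.2) ∧ W S P.1 * W S P.2 ≤ F0 ^ 2

/-- MODULE EST (`theorem tEST : StEST`). Real inequalities. With `t = F0 √(w₁ w₂)`, `w₁ = (a-c)/W₁`,
`w₂ = (d-b)/W₂`: `t² = F0² (a-c)(d-b)/(W₁W₂)`, so `(b-a)(d-c) ≤ 8 t²`, `(a-c)(d-b) ≤ t²`.
`(b-a)² ≤ (b-a)(d-c) ≤ 8t²` gives `b - a ≤ 3t`. For the last: if e.g. `d - b ≤ a - c`,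
`(d-b)(d-c) = (d-b)(a-c) + (d-b)(b-a) + (d-b)² ≤ t² + (b-a)(d-c) + t²`. -/
def StEST : Prop :=
  ∀ c a b d W₁ W₂ F0 : ℝ, c < a → a ≤ b → b < d → 0 < W₁ → 0 < W₂ → 0 < F0 → W₁ * W₂ ≤ F0 ^ 2 →
    (b - a) * (d - c) * (W₁ * W₂) ≤ 8 * F0 ^ 2 * ((a - c) * (d - b)) →
    (b - a) ≤ 3 * (F0 * Real.sqrt ((a - c) / W₁ * ((d - b) / W₂))) ∧
    ((b - a) + min (a - c) (d - b)) * (d - c) ≤
      18 * (F0 * Real.sqrt ((a - c) / W₁ * ((d - b) / W₂))) ^ 2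

/-- MODULE SEP (`theorem tSEP : StSEP`). A finite set of reals in an interval of length `L` such that
three members spread over at least `σ` has at most `2 (L/σ + 1)` elements.
PROOF. `x ↦ ⌊(x-u)/σ⌋₊` maps `B` to `range (⌊L/σ⌋₊ + 1)` and each fibre has at most 2 elements
(`Finset.card_le_mul_card_image_of_maps_to`). -/
def StSEP : Prop :=
  ∀ (B : Finset ℝ) (u L σ : ℝ), 0 < σ → 0 ≤ L → (∀ x ∈ B, u ≤ x ∧ x ≤ u + L) →
    (∀ x ∈ B, ∀ y ∈ B, ∀ z ∈ B, x < y → y < z → σ ≤ z - x) → (B.card : ℝ) ≤ 2 * (L / σ + 1)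

/-- the hypotheses on a set `G` of gaps with weights `w`: separation with constant `F0` -/
structure Sepd (Λ : Set ℝ) (G : Set (ℝ × ℝ)) (w : ℝ × ℝ → ℝ) (F0 : ℝ) : Prop where
  pos : 0 < F0
  le : F0 ≤ 1
  gap : ∀ u ∈ G, Gap Λ u.1 u.2
  w0 : ∀ u ∈ G, 0 < w u
  w1 : ∀ u ∈ G, w u ≤ 1
  sep : ∀ u ∈ G, ∀ v ∈ G, u.2 ≤ v.1 → v.2 < u.1 + 1 → F0 * Real.sqrt (w u * w v) ≤ v.2 - u.1

/-- MODULE CLS (`theorem tCLS : StSEP → StCLS`). Number of pairs in the class `(p, q)`.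
PROOF. `t = F0 (1/2)^(p+q)`, `σ_p = F0 (1/4)^(p+1)`. Three gaps `u₁,u₂,u₃` of `G` of weight
`≥ (1/4)^(q+1)` with left end points `b₁ < b₂ < b₃`: `u₁.2 ≤ b₂`, `u₂.2 ≤ b₃` (end points of gaps are in
`Λ`, gaps contain no point of `Λ`); if `u₂.2 < b₁ + 1` then `sep` gives `b₃ - b₁ ≥ u₂.2 - u₁.1 ≥ σ_q`,
otherwise `b₃ - b₁ ≥ 1 ≥ σ_q`. Same for right end points. A gap is determined by its left (right) end
point. Case `q ≤ p`: the left end points `P.2.1` of the second gaps lie in `[0,2]`, so there are at most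
`2 (2/σ_q + 1) ≤ 18 * 4^q/F0` of them; for a fixed one (hence fixed second gap) the right end points
`P.1.2` of the first gaps lie in `[P.2.1 - 3t, P.2.1]`, so there are at most
`2 (3t/σ_p + 1) ≤ 26 * 2^(p-q)`. Product `≤ 468 * 2^(p+q)/F0`. Case `p < q`: left end points `P.1.1` in
`[0,1]`: at most `10 * 4^p/F0`; then `P.2.1 ∈ [P.1.2, P.1.2 + 3t]`: at most `26 * 2^(q-p)`.
(`Finset.card_le_mul_card_image_of_maps_to` or `Finset.card_eq_sum_card_image`.) -/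
def StCLS : Prop :=
  ∀ (Λ : Set ℝ) (G : Set (ℝ × ℝ)) (w : ℝ × ℝ → ℝ) (F0 : ℝ), Sepd Λ G w F0 →
    ∀ (p q : ℕ) (s : Finset ((ℝ × ℝ) × (ℝ × ℝ))),
    (∀ P ∈ s, P.1 ∈ G ∧ P.2 ∈ G ∧ IsPair Λ P ∧ 0 ≤ P.1.1 ∧ P.1.1 < 1 ∧
      (1 / 4) ^ (p + 1) ≤ w P.1 ∧ (1 / 4) ^ (q + 1) ≤ w P.2 ∧
      mid P ≤ 3 * (F0 * (1 / 2) ^ (p + q))) →
    (s.card : ℝ) ≤ 500 * (2 ^ (p + q) / F0)

/-- MODULE SUM (`theorem tSUM : StCLS → StSUM`). Total cost.
PROOF. For `P ∈ s` let `t = F0 √(w w')`, `t ≤ span P` by `sep`. `quot`: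
`om (span) * t ≤ 2 om t * span`, so `om (span) (mid + min) = om (span) (mid + min) span/span ≤
om (span) 18 t²/span ≤ 36 om t * t`. Choose `p, q` with `(1/4)^(p+1) < w ≤ (1/4)^p`,
`(1/4)^(q+1) < w' ≤ (1/4)^q` (`exists_nat_pow_near_of_lt_one`): `t ≤ F0 (1/2)^(p+q)`, so the cost of `P`
is at most `36 K om (F0 (1/2)^(p+q)) F0 (1/2)^(p+q)` and `mid P ≤ 3 t ≤ 3 F0 (1/2)^(p+q)`. With CLS the
class `(p,q)` contributes at most `18000 K om (F0 (1/2)^(p+q))`, the classes with `p + q = k` at most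
`(k+1)` times this. Sum over `k` (`sum_le_tsum`). -/
def StSUM : Prop :=
  ∀ (Λ : Set ℝ) (G : Set (ℝ × ℝ)) (w : ℝ × ℝ → ℝ) (F0 K : ℝ) (om : ℝ → ℝ), Sepd Λ G w F0 →
    Modulus om → 0 ≤ K → (Summable fun k : ℕ => ((k : ℝ) + 1) * om (F0 * (1 / 2) ^ k)) →
    ∀ s : Finset ((ℝ × ℝ) × (ℝ × ℝ)),
    (∀ P ∈ s, P.1 ∈ G ∧ P.2 ∈ G ∧ IsPair Λ P ∧ 0 ≤ P.1.1 ∧ P.1.1 < 1 ∧
      mid P ≤ 3 * (F0 * Real.sqrt (w P.1 * w P.2)) ∧
      (mid P + min (P.1.2 - P.1.1) (P.2.2 - P.2.1)) * span P ≤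
        18 * (F0 * Real.sqrt (w P.1 * w P.2)) ^ 2) →
    ∑ P ∈ s, K * eps om P.1.1 P.1.2 P.2.1 P.2.2 ≤
      18000 * K * ∑' k : ℕ, ((k : ℝ) + 1) * om (F0 * (1 / 2) ^ k)

/-- MODULE TAIL (`theorem tTAIL : StTAIL`).
PROOF. Take `k₀` with `∑_{j ≥ k₀} (j+1) om (2^-j) ≤ ε`, `δ = 2^-k₀`;
`(k+1) om (F0 2^-k) ≤ (k + k₀ + 1) om (2^-(k+k₀))` by monotonicity (terms are nonneg by `lin`). -/
def StTAIL : Prop :=
  ∀ om : ℝ → ℝ, Modulus om → ∀ ε : ℝ, 0 < ε → ∃ δ : ℝ, 0 < δ ∧ δ ≤ 1 ∧ ∀ F0 : ℝ, 0 < F0 → F0 ≤ δ →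
    (Summable fun k : ℕ => ((k : ℝ) + 1) * om (F0 * (1 / 2) ^ k)) ∧
    ∑' k : ℕ, ((k : ℝ) + 1) * om (F0 * (1 / 2) ^ k) ≤ ε

/-- MODULE PTH (`theorem tPTH : StPTH`). Control along simple paths.
PROOF. Suppose some reachable `y` has `2 * X x₀ < X y`. Let `n` be the least length of a path
`x 0 = x₀, …, x n` (a function `ℕ → α` with `r (x i) (x (i+1))` for `i < n`) whose end is bad. Then all
`x i`, `i < n`, are good (`X ≤ 2 X x₀`) and `V`, and they are pairwise different (otherwise cut out the loop).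
By induction `X (x i) ≤ exp (∑_{j<i} cost (x j)) X x₀`, and `∑_{j<n} cost (x j) ≤ log 2` (image
finset, injectivity), so `X (x n) ≤ 2 X x₀`. (Here `0 ≤ X x₀`; `cost` is nonneg on `V`.) -/
def StPTH : Prop :=
  ∀ (α : Type) (r : α → α → Prop) (X cost : α → ℝ) (V : α → Prop) (x₀ : α), 0 ≤ X x₀ → V x₀ →
    (∀ x y, V x → r x y → V y) → (∀ x, V x → 0 ≤ cost x) →
    (∀ x y, V x → r x y → X y ≤ Real.exp (cost x) * X x) →
    (∀ s : Finset α, (∀ x ∈ s, V x ∧ X x ≤ 2 * X x₀) → ∑ x ∈ s, cost x ≤ Real.log 2) →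
    ∀ y, Relation.ReflTransGen r x₀ y → X y ≤ 2 * X x₀

/-- ordered image of a pair of gaps -/
noncomputable def pact (g : Equiv.Perm ℝ) (P : (ℝ × ℝ) × (ℝ × ℝ)) : (ℝ × ℝ) × (ℝ × ℝ) :=
  if g P.1.1 < g P.2.1 then (sact g P.1, sact g P.2) else (sact g P.2, sact g P.1)

/-- translate a pair of gaps so that the left end is in `[0,1)` -/
noncomputable def nrm (P : (ℝ × ℝ) × (ℝ × ℝ)) : (ℝ × ℝ) × (ℝ × ℝ) :=
  ((P.1.1 - ⌊P.1.1⌋, P.1.2 - ⌊P.1.1⌋), (P.2.1 - ⌊P.1.1⌋, P.2.2 - ⌊P.1.1⌋))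

/-- one step: a letter of `S`, then normalisation -/
def Stp (S : Set (Equiv.Perm ℝ)) (P Q : (ℝ × ℝ) × (ℝ × ℝ)) : Prop := ∃ s ∈ S, Q = nrm (pact s P)

/-- MODULE ACT (`theorem tACT : StBAS → StLAM → StACT`). Image of a pair of gaps.
PROOF. `g` is strictly monotone or antitone with `g (x+1) = g x ± 1`; in the monotone case
`pact g P = ((g c, g a), (g b, g d))`, in the antitone case `((g d, g b), (g a, g c))` where
`P = ((c,a),(b,d))`; `g d < g c + 1` (resp. `g c < g d + 1`) by monotonicity on `d < c + 1`. -/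
def StACT : Prop :=
  ∀ (K : ℝ) (S : Set (Equiv.Perm ℝ)) (Λ : Set ℝ), Gens K S → Lam S Λ →
    ∀ g ∈ Gr S, ∀ P : (ℝ × ℝ) × (ℝ × ℝ), IsPair Λ P →
      IsPair Λ (pact g P) ∧
      (((pact g P).1 = sact g P.1 ∧ (pact g P).2 = sact g P.2) ∨
        ((pact g P).1 = sact g P.2 ∧ (pact g P).2 = sact g P.1)) ∧
      span (pact g P) = |g P.2.2 - g P.1.1| ∧ mid (pact g P) = |g P.2.1 - g P.1.2| ∧
      ((pact g P).1.2 - (pact g P).1.1) * ((pact g P).2.2 - (pact g P).2.1) =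
        |g P.1.2 - g P.1.1| * |g P.2.2 - g P.2.1|

/-- MODULE STP (`theorem tSTP : StBAS → StACT → StSTP`). All translates are reached by steps.
PROOF. `Subgroup.closure_induction_left` on `g` (closure of `insert T S`), for all pairs. Facts:
`nrm (pact g (nrm P)) = nrm (pact g P)` for `g ∈ Gr S` (because `g (x - n) = g x ∓ n`),
`nrm (pact T^{±1} P) = nrm P`, `pact (g * h) P = pact g (pact h P)`, `S` is closed under inverses. So if
`nrm P →* nrm (pact y P)` and `s ∈ S` then `nrm (pact y P) → nrm (pact s (nrm (pact y P))) =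
nrm (pact (s * y) P)`. -/
def StSTP : Prop :=
  ∀ (K : ℝ) (S : Set (Equiv.Perm ℝ)) (Λ : Set ℝ), Gens K S → Lam S Λ →
    ∀ P : (ℝ × ℝ) × (ℝ × ℝ), IsPair Λ P → ∀ g ∈ Gr S,
      Relation.ReflTransGen (Stp S) (nrm P) (nrm (pact g P))

/-- MODULE CTR (`theorem tCTR : StBAS → StLAM → StWGT → StMIN → StEST → StSUM → StTAIL → StPTH → StACT →
StSTP → StCTR`). All translates of the extremal pair are short. (helper82) -/
def StCTR : Prop :=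
  ∀ (K K' : ℝ) (om : ℝ → ℝ) (S : Set (Equiv.Perm ℝ)) (Λ : Set ℝ), Gens K S → Lam S Λ →
    Modulus om → 0 ≤ K' → (∀ s ∈ S, Dist K' om s) →
    ∃ δ : ℝ, 0 < δ ∧ ∀ P₁ : (ℝ × ℝ) × (ℝ × ℝ), IsPair Λ P₁ → span P₁ ≤ δ →
      W S P₁.1 ≤ 2 * (P₁.1.2 - P₁.1.1) → W S P₁.2 ≤ 2 * (P₁.2.2 - P₁.2.1) →
      ∃ P, IsPair Λ P ∧ ∀ g ∈ Gr S, span (pact g P) ≤ 10 * span P₁

/-- MODULE FAR (`theorem tFAR : StLAM → StACT → StFAR`). Some translate of any pair is long.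
PROOF. `Λ` has a gap `(l, r)` (StLAM (e); `Λ ≠ univ`); `η = r - l`. For a pair `P = ((c,a),(b,d))` the open
interval `(c,d)` contains `a ∈ Λ`, so by StLAM (d) some `g ∈ Gr S` has `g l ∈ (c, d)`. Then `l` is strictly
between `g⁻¹ c` and `g⁻¹ d`, which are in `Λ`; the greater one is `> l` and in `Λ`, so `≥ r`. Hence
`|g⁻¹ d - g⁻¹ c| ≥ r - l`, and this is `span (pact g⁻¹ P)`. -/
def StFAR : Prop :=
  ∀ (K : ℝ) (S : Set (Equiv.Perm ℝ)) (Λ : Set ℝ), Gens K S → Lam S Λ →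
    ∃ η : ℝ, 0 < η ∧ ∀ P : (ℝ × ℝ) × (ℝ × ℝ), IsPair Λ P → ∃ g ∈ Gr S, η ≤ span (pact g P)

/-- MODULE FIN (`theorem tFIN : StBAS → StLAM → StWGT → StFIN`). Finiteness.
PROOF. Let `B` be the set of gaps `u` with `0 ≤ u.1 < 1` and `W S u ≤ 2 (u.2 - u.1)`. Left end points of
three members `b₁ < b₂ < b₃` satisfy `b₃ - b₁ ≥ min η 1`: the pair of the first two is `IsPair` if
`u₂.2 < b₁ + 1`, and then `η ≤ u₂.2 - b₁ ≤ b₃ - b₁`; otherwise `b₃ ≥ u₂.2 ≥ b₁ + 1`. So `B` is finite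
(a gap is determined by its left end point; `StSEP`-type count, or: an infinite subset of `[0,1]` has
three members closer than `min η 1`). Every gap `v` is the image of a member of `B`: StWGT gives `g` with
`u = sact g v` long, translate it by an integer into `[0,1)` (`W` is invariant), `g⁻¹` maps the interval
back (`⇑g '' Ioo = Ioo` for monotone and antitone bijections). -/
def StFIN : Prop :=
  ∀ (K : ℝ) (S : Set (Equiv.Perm ℝ)) (Λ : Set ℝ), Gens K S → Lam S Λ →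
    (∃ η : ℝ, 0 < η ∧ ∀ P : (ℝ × ℝ) × (ℝ × ℝ), IsPair Λ P → W S P.1 ≤ 2 * (P.1.2 - P.1.1) →
      W S P.2 ≤ 2 * (P.2.2 - P.2.1) → η ≤ span P) →
    ∃ s : Finset (ℝ × ℝ), ∀ a b : ℝ, Gap Λ a b →
      ∃ p ∈ s, ∃ g ∈ Gr S, ⇑g '' Ioo p.1 p.2 = Ioo a b

end Pool.Agent.Helper82.HC
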